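import Mathlib

set_option autoImplicit false
open MeasureTheory Filter Topology Metric

namespace Pool.Agent.Helper949.TB

/-- `ℝ^N` with its Euclidean structure. -/
abbrev E (N : ℕ) : Type := EuclideanSpace ℝ (Fin N)

/-- `v` is a smooth function with compact support contained in `Ω`. -/
def IsTest {N : ℕ} (Ω : Set (E N)) (v : E N → ℝ) : Prop :=
  ContDiff ℝ (⊤ : ℕ∞) v ∧ HasCompactSupport v ∧ tsupport v ⊆ Ω

/-- The real numbers `c` for which some `k`-dimensional space of test functions on `Ω` satisfies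
`∫ ‖∇v‖² ≤ c ∫ v²`. -/
def RaySet (N k : ℕ) (Ω : Set (E N)) : Set ℝ :=
  {c : ℝ | ∃ V : Submodule ℝ (E N → ℝ), Module.finrank ℝ V = k ∧
    ∀ v ∈ V, ContDiff ℝ (⊤ : ℕ∞) v ∧ HasCompactSupport v ∧ tsupport v ⊆ Ω ∧
      ∫ x, ‖fderiv ℝ v x‖ ^ 2 ≤ c * ∫ x, v x ^ 2}

/-- The `k`-th Dirichlet eigenvalue of `-Δ` on `Ω` (min-max over smooth compactly supported functions). -/
noncomputable def lam (N k : ℕ) (Ω : Set (E N)) : ℝ := sInf (RaySet N k Ω)

/-- The bilinear form `∫ (∇f·∇g - f g)`. -/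
noncomputable def B {N : ℕ} (f g : E N → ℝ) : ℝ :=
  ∫ x, (inner ℝ (gradient f x) (gradient g x) - f x * g x)

/-- `x ↦ F(‖x‖²)` restricted to the ball of radius `R` is the first Dirichlet eigenfunction,
with eigenvalue `1`. -/
structure Ground (N : ℕ) (F : ℝ → ℝ) (R : ℝ) : Prop where
  Rpos : 0 < R
  smooth : ContDiff ℝ (⊤ : ℕ∞) F
  one : F 0 = 1
  ode : ∀ s : ℝ, 4 * s * deriv (deriv F) s + 2 * N * deriv F s + F s = 0
  pos : ∀ s : ℝ, 0 ≤ s → s < R ^ 2 → 0 < F s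
  zero : F (R ^ 2) = 0
  neg : ∀ s : ℝ, 0 ≤ s → s ≤ R ^ 2 → deriv F s < 0

/-- The radial function `x ↦ F(‖x‖²)`. -/
noncomputable def W {N : ℕ} (F : ℝ → ℝ) (x : E N) : ℝ := F (‖x‖ ^ 2)

/-- A fixed radial bump with support in the closed ball of radius `1/2`. -/
noncomputable def phi {N : ℕ} (x : E N) : ℝ := Real.smoothTransition (1 - 4 * ‖x‖ ^ 2)

/-- The bump at `p` at scale `ε`. -/
noncomputable def phie {N : ℕ} (ε : ℝ) (p : E N) (x : E N) : ℝ := phi (ε⁻¹ • (x - p))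

/-- three balls of radius `R` with small balls added at the midpoints of the centres -/
def Om {N : ℕ} (q : Fin 3 → E N) (R ε : ℝ) : Set (E N) :=
  (⋃ i, ball (q i) R) ∪ ⋃ i : Fin 3, ball (midpoint ℝ (q i) (q (i + 1))) ε

end Pool.Agent.Helper949.TB
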