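import Mathlib
import Pool.Agent.Helper949.TB.Defs

set_option autoImplicit false

open MeasureTheory Filter Topology Metric

namespace Pool.Agent.Helper949.TB

end Pool.Agent.Helper949.TB

namespace Pool.Agent.Helper949.TB
private noncomputable def h170_S (b : ℕ → ℝ) (s : ℝ) : ℝ := ∑' k, b k * (s ^ k / (k.factorial : ℝ))

private theorem h170_sum {b : ℕ → ℝ} (hb : ∀ k, |b k| ≤ 1) (s : ℝ) :
    Summable (fun k => b k * (s ^ k / (k.factorial : ℝ))) := by
  refine Summable.of_norm_bounded (g := fun k => |s| ^ k / (k.factorial : ℝ))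
    (Real.summable_pow_div_factorial |s|) ?_
  intro k
  rw [norm_mul, Real.norm_eq_abs, Real.norm_eq_abs, abs_div, abs_pow, Nat.abs_cast]
  calc |b k| * (|s| ^ k / k.factorial) ≤ 1 * (|s| ^ k / k.factorial) :=
        mul_le_mul_of_nonneg_right (hb k) (by positivity)
    _ = _ := one_mul _

private theorem h170_term (k : ℕ) (y : ℝ) :
    HasDerivAt (fun z : ℝ => z ^ (k + 1) / ((k + 1).factorial : ℝ)) (y ^ k / (k.factorial : ℝ)) y := by
  refine ((hasDerivAt_pow (k + 1) y).div_const ((k + 1).factorial : ℝ)).congr_deriv ?_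
  rw [Nat.factorial_succ, Nat.add_sub_cancel]
  push_cast
  have h1 : (k.factorial : ℝ) ≠ 0 := by positivity
  have h2 : (k : ℝ) + 1 ≠ 0 := by positivity
  field_simp

private theorem h170_deriv {b : ℕ → ℝ} (hb : ∀ k, |b k| ≤ 1) (s : ℝ) :
    HasDerivAt (h170_S b) (h170_S (fun k => b (k + 1)) s) s := by
  have h1 : h170_S b = fun z => b 0 + ∑' k, b (k + 1) * (z ^ (k + 1) / ((k + 1).factorial : ℝ)) := by
    funext z
    unfold h170_S
    rw [(h170_sum hb z).tsum_eq_zero_add]
    simp
  rw [h1]
  have hs : s ∈ Metric.ball (0 : ℝ) (|s| + 1) := by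
    rw [Metric.mem_ball, dist_zero_right, Real.norm_eq_abs]; linarith
  have h2 := hasDerivAt_tsum_of_isPreconnected
    (g := fun k z => b (k + 1) * (z ^ (k + 1) / ((k + 1).factorial : ℝ)))
    (g' := fun k z => b (k + 1) * (z ^ k / (k.factorial : ℝ)))
    (u := fun k => (|s| + 1) ^ k / (k.factorial : ℝ)) (t := Metric.ball (0 : ℝ) (|s| + 1))
    (y₀ := s) (y := s)
    (Real.summable_pow_div_factorial _) Metric.isOpen_ball (convex_ball (0 : ℝ) _).isPreconnected
    (fun k y _ => (h170_term k y).const_mul _) (by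
      intro k y hy
      rw [Metric.mem_ball, dist_zero_right, Real.norm_eq_abs] at hy
      rw [norm_mul, Real.norm_eq_abs, Real.norm_eq_abs, abs_div, abs_pow, Nat.abs_cast]
      calc |b (k + 1)| * (|y| ^ k / k.factorial) ≤ 1 * (|y| ^ k / k.factorial) :=
            mul_le_mul_of_nonneg_right (hb _) (by positivity)
        _ = |y| ^ k / k.factorial := one_mul _
        _ ≤ (|s| + 1) ^ k / k.factorial := by
            apply div_le_div_of_nonneg_right _ (by positivity)
            exact pow_le_pow_left₀ (abs_nonneg y) hy.le k) hs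
    ((summable_nat_add_iff 1).2 (h170_sum hb s)) hs
  exact h2.const_add (b 0)

private theorem h170_cd (n : ℕ) : ∀ b : ℕ → ℝ, (∀ k, |b k| ≤ 1) → ContDiff ℝ n (h170_S b) := by
  induction n with
  | zero =>
    intro b hb
    rw [Nat.cast_zero, contDiff_zero]
    exact continuous_iff_continuousAt.2 (fun s => (h170_deriv hb s).continuousAt)
  | succ n ih =>
    intro b hb
    rw [Nat.cast_succ, contDiff_succ_iff_deriv]
    refine ⟨fun s => (h170_deriv hb s).differentiableAt, ?_, ?_⟩
    · intro h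
      exfalso
      exact absurd h (by simp)
    · have h1 : deriv (h170_S b) = h170_S (fun k => b (k + 1)) := by
        funext s
        exact (h170_deriv hb s).deriv
      rw [h1]
      exact ih _ (fun k => hb (k + 1))

theorem exists_series (N : ℕ) (hN : 1 ≤ N) :
    ∃ F : ℝ → ℝ, ContDiff ℝ (⊤ : ℕ∞) F ∧ F 0 = 1 ∧
      ∀ s : ℝ, 4 * s * deriv (deriv F) s + 2 * N * deriv F s + F s = 0 := by
  obtain ⟨b, hb⟩ : ∃ b : ℕ → ℝ, ∀ k, b k = ∏ j ∈ Finset.range k, (-1 / (2 * (2 * (j : ℝ) + N))) :=
    ⟨fun k => ∏ j ∈ Finset.range k, (-1 / (2 * (2 * (j : ℝ) + N))), fun _ => rfl⟩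
  have hN' : (1 : ℝ) ≤ N := by exact_mod_cast hN
  have hrec : ∀ k : ℕ, 2 * (2 * (k : ℝ) + N) * b (k + 1) = - b k := by
    intro k
    rw [hb, hb, Finset.prod_range_succ]
    have h1 : (0 : ℝ) < 2 * (2 * (k : ℝ) + N) := by positivity
    field_simp
  have hb1 : ∀ k, |b k| ≤ 1 := by
    intro k
    induction k with
    | zero => rw [hb]; simp
    | succ k ih =>
      have h1 := hrec k
      have h2 : |2 * (2 * (k : ℝ) + N) * b (k + 1)| = |b k| := by rw [h1, abs_neg]
      rw [abs_mul] at h2
      have h3 : (1 : ℝ) ≤ |2 * (2 * (k : ℝ) + N)| := by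
        rw [abs_of_nonneg (by positivity)]
        have : (0 : ℝ) ≤ k := Nat.cast_nonneg k
        linarith
      have h4 := abs_nonneg (b (k + 1))
      nlinarith
  have hd1 : deriv (h170_S b) = h170_S (fun k => b (k + 1)) := by
    funext s
    exact (h170_deriv hb1 s).deriv
  have hd2 : deriv (h170_S (fun k => b (k + 1))) = h170_S (fun k => b (k + 2)) := by
    funext s
    exact (h170_deriv (b := fun k => b (k + 1)) (fun k => hb1 (k + 1)) s).deriv
  refine ⟨h170_S b, ?_, ?_, ?_⟩
  · exact contDiff_infty.2 (fun n => h170_cd n b hb1)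
  · unfold h170_S
    rw [tsum_eq_single 0]
    · rw [hb]; simp
    · intro k hk
      rw [zero_pow hk]
      simp
  · intro s
    rw [hd1, hd2]
    have s0 := h170_sum hb1 s
    have s1 := h170_sum (b := fun k => b (k + 1)) (fun k => hb1 (k + 1)) s
    have s2 := h170_sum (b := fun k => b (k + 2)) (fun k => hb1 (k + 2)) s
    -- shifted series
    have t1 : 4 * s * h170_S (fun k => b (k + 2)) s =
        ∑' k : ℕ, 4 * (k : ℝ) * b (k + 1) * (s ^ k / (k.factorial : ℝ)) := by
      have u1 : ∀ k : ℕ, 4 * s * (b (k + 2) * (s ^ k / (k.factorial : ℝ))) =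
          4 * ((k + 1 : ℕ) : ℝ) * b (k + 1 + 1) * (s ^ (k + 1) / ((k + 1).factorial : ℝ)) := by
        intro k
        rw [Nat.factorial_succ]
        push_cast
        have h1 : (k.factorial : ℝ) ≠ 0 := by positivity
        have h2 : (k : ℝ) + 1 ≠ 0 := by positivity
        field_simp
        ring
      have u2 : Summable (fun k : ℕ =>
          4 * (k : ℝ) * b (k + 1) * (s ^ k / (k.factorial : ℝ))) := by
        rw [← summable_nat_add_iff 1]
        exact (s2.mul_left (4 * s)).congr u1
      rw [u2.tsum_eq_zero_add]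
      unfold h170_S
      rw [← tsum_mul_left]
      simp only [Nat.cast_zero, mul_zero, zero_mul, zero_add]
      exact tsum_congr u1
    have u2 : Summable (fun k : ℕ =>
        4 * (k : ℝ) * b (k + 1) * (s ^ k / (k.factorial : ℝ))) := by
      rw [← summable_nat_add_iff 1]
      refine (s2.mul_left (4 * s)).congr ?_
      intro k
      rw [Nat.factorial_succ]
      push_cast
      have h1 : (k.factorial : ℝ) ≠ 0 := by positivity
      have h2 : (k : ℝ) + 1 ≠ 0 := by positivity
      field_simp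
      ring
    rw [t1]
    unfold h170_S
    rw [← tsum_mul_left, ← (u2).tsum_add (s1.mul_left _), ← (u2.add (s1.mul_left _)).tsum_add s0]
    rw [← tsum_zero (α := ℝ) (β := ℕ)]
    refine tsum_congr fun k => ?_
    have h1 := hrec k
    have h2 : 4 * (k : ℝ) * b (k + 1) * (s ^ k / (k.factorial : ℝ)) +
        2 * (N : ℝ) * (b (k + 1) * (s ^ k / (k.factorial : ℝ))) + b k * (s ^ k / (k.factorial : ℝ)) =
        (2 * (2 * (k : ℝ) + N) * b (k + 1) + b k) * (s ^ k / (k.factorial : ℝ)) := by ring
    rw [h2, h1]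
    ring
end Pool.Agent.Helper949.TB

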