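import Mathlib
import Pool.Agent.Helper949.TB.Defs

set_option autoImplicit false

open MeasureTheory Filter Topology Metric

namespace Pool.Agent.Helper949.TB

end Pool.Agent.Helper949.TB

namespace Pool.Agent.Helper949.TB
private theorem egs_hP (N : ℕ) (hN : 2 ≤ N) (F : ℝ → ℝ) (hF : ContDiff ℝ (⊤ : ℕ∞) F)
    (hode : ∀ s : ℝ, 4 * s * deriv (deriv F) s + 2 * N * deriv F s + F s = 0) (r : ℝ) :
    HasDerivAt (fun r : ℝ => r ^ N * deriv F (r ^ 2)) (-(r ^ (N - 1) * F (r ^ 2)) / 2) r := by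
  have hF1 : Differentiable ℝ (deriv F) :=
    ((contDiff_infty_iff_deriv.1 hF).2).differentiable (by simp)
  obtain ⟨M, rfl⟩ : ∃ M, N = M + 1 := ⟨N - 1, by omega⟩
  have h1 : HasDerivAt (fun r : ℝ => r ^ 2) (2 * r) r := by
    simpa using hasDerivAt_pow 2 r
  have h2' : HasDerivAt (deriv F) (deriv (deriv F) (r ^ 2)) ((fun r : ℝ => r ^ 2) r) :=
    (hF1 (r ^ 2)).hasDerivAt
  have h2 : HasDerivAt (fun r : ℝ => deriv F (r ^ 2)) (deriv (deriv F) (r ^ 2) * (2 * r)) r :=
    HasDerivAt.comp (h₂ := deriv F) (h := fun r : ℝ => r ^ 2) r h2' h1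
  have h3 := (hasDerivAt_pow (M + 1) r).mul h2
  have h4 := hode (r ^ 2)
  refine h3.congr_deriv ?_
  simp only [Nat.add_sub_cancel]
  have e : r ^ (M + 1) = r ^ M * r := pow_succ r M
  rw [e]
  push_cast at h4 ⊢
  linear_combination (r ^ M / 2) * h4

private theorem egs_neg (N : ℕ) (hN : 2 ≤ N) (F : ℝ → ℝ) (hF : ContDiff ℝ (⊤ : ℕ∞) F)
    (h0 : F 0 = 1)
    (hode : ∀ s : ℝ, 4 * s * deriv (deriv F) s + 2 * N * deriv F s + F s = 0) (T : ℝ)
    (hT : 0 < T) (hpos : ∀ s, 0 ≤ s → s < T → 0 < F s) (s : ℝ) (hs0 : 0 ≤ s) (hsT : s ≤ T) :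
    deriv F s < 0 := by
  have hN' : (2:ℝ) ≤ N := by exact_mod_cast hN
  rcases hs0.eq_or_lt with rfl | hs
  · have h1 := hode 0
    rw [h0] at h1
    by_contra h
    push Not at h
    have := mul_nonneg (by linarith : (0:ℝ) ≤ 2 * N) h
    linarith
  · have hr : 0 < √s := Real.sqrt_pos.2 hs
    have hr2 : √s ^ 2 = s := Real.sq_sqrt hs.le
    have hP := egs_hP N hN F hF hode
    have hcont : Continuous (fun r : ℝ => r ^ N * deriv F (r ^ 2)) :=
      continuous_iff_continuousAt.2 (fun r => (hP r).continuousAt)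
    have hanti : StrictAntiOn (fun r : ℝ => r ^ N * deriv F (r ^ 2)) (Set.Icc 0 (√s)) := by
      apply strictAntiOn_of_deriv_neg (convex_Icc _ _) hcont.continuousOn
      intro x hx
      rw [interior_Icc] at hx
      rw [(hP x).deriv]
      have h1 : x ^ 2 < T := by
        have : x ^ 2 < √s ^ 2 := pow_lt_pow_left₀ hx.2 hx.1.le (by norm_num)
        linarith
      have h2 := hpos (x ^ 2) (sq_nonneg x) h1
      have h3 : 0 < x ^ (N - 1) := pow_pos hx.1 _
      have h4 := mul_pos h3 h2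
      linarith
    have h5 := hanti ⟨le_rfl, hr.le⟩ ⟨hr.le, le_rfl⟩ hr
    simp only [hr2] at h5
    rw [zero_pow (by omega), zero_mul] at h5
    by_contra h
    push Not at h
    have := mul_nonneg (pow_pos hr N).le h
    linarith

private theorem egs_zero (N : ℕ) (hN : 2 ≤ N) (F : ℝ → ℝ) (hF : ContDiff ℝ (⊤ : ℕ∞) F)
    (h0 : F 0 = 1)
    (hode : ∀ s : ℝ, 4 * s * deriv (deriv F) s + 2 * N * deriv F s + F s = 0) :
    ∃ s, 0 ≤ s ∧ F s ≤ 0 := by
  by_contra hcon
  push Not at hcon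
  have hN' : (2:ℝ) ≤ N := by exact_mod_cast hN
  have hF0 : Differentiable ℝ F := hF.differentiable (by simp)
  have hF1 : Differentiable ℝ (deriv F) :=
    ((contDiff_infty_iff_deriv.1 hF).2).differentiable (by simp)
  have hneg : ∀ s, 0 ≤ s → deriv F s < 0 := fun s hs =>
    egs_neg N hN F hF h0 hode (s + 1) (by linarith) (fun t ht _ => hcon t ht) s hs (by linarith)
  have hP := egs_hP N hN F hF hode
  have hQ : ∀ r : ℝ, HasDerivAt (fun r : ℝ => r ^ N * deriv F (r ^ 2) +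
      F (r ^ 2) * r ^ N / (2 * N)) (r ^ (N + 1) * deriv F (r ^ 2) / N) r := by
    intro r
    have h1 : HasDerivAt (fun r : ℝ => r ^ 2) (2 * r) r := by
      simpa using hasDerivAt_pow 2 r
    have h2 : HasDerivAt (fun r : ℝ => F (r ^ 2)) (deriv F (r ^ 2) * (2 * r)) r :=
      (hF0 (r ^ 2)).hasDerivAt.comp r h1
    have h3 := (hP r).add ((h2.mul (hasDerivAt_pow N r)).div_const (2 * (N:ℝ)))
    refine h3.congr_deriv ?_
    have hN0 : (N:ℝ) ≠ 0 := by positivity
    obtain ⟨M, rfl⟩ : ∃ M, N = M + 1 := ⟨N - 1, by omega⟩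
    simp only [Nat.add_sub_cancel]
    have e : r ^ (M + 1) = r ^ M * r := pow_succ r M
    have e2 : r ^ (M + 1 + 1) = r ^ M * r * r := by rw [pow_succ, pow_succ]
    rw [e, e2]
    field_simp
    ring
  have hB : ∀ s, 0 < s → 2 * N * deriv F s + F s ≤ 0 := by
    intro s hs
    have hr : 0 < √s := Real.sqrt_pos.2 hs
    have hr2 : √s ^ 2 = s := Real.sq_sqrt hs.le
    have hcont : Continuous (fun r : ℝ => r ^ N * deriv F (r ^ 2) + F (r ^ 2) * r ^ N / (2 * N)) :=
      continuous_iff_continuousAt.2 (fun r => (hQ r).continuousAt)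
    have hanti : AntitoneOn (fun r : ℝ => r ^ N * deriv F (r ^ 2) + F (r ^ 2) * r ^ N / (2 * N))
        (Set.Icc 0 (√s)) := by
      apply antitoneOn_of_deriv_nonpos (convex_Icc _ _) hcont.continuousOn
      · intro x _
        exact (hQ x).differentiableAt.differentiableWithinAt
      · intro x hx
        rw [interior_Icc] at hx
        rw [(hQ x).deriv]
        have h1 := hneg (x ^ 2) (sq_nonneg x)
        have h2 : 0 < x ^ (N + 1) := pow_pos hx.1 _
        have h3 : x ^ (N + 1) * deriv F (x ^ 2) ≤ 0 := (mul_neg_of_pos_of_neg h2 h1).le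
        exact div_nonpos_of_nonpos_of_nonneg h3 (by linarith)
    have h5 := hanti ⟨le_rfl, hr.le⟩ ⟨hr.le, le_rfl⟩ hr.le
    simp only [hr2] at h5
    rw [zero_pow (by omega : N ≠ 0)] at h5
    have h6 : √s ^ N * (deriv F s + F s / (2 * N)) ≤ 0 := by
      have : √s ^ N * (deriv F s + F s / (2 * N)) =
        √s ^ N * deriv F s + F s * √s ^ N / (2 * N) := by ring
      rw [this]
      simpa using h5
    have h7 : deriv F s + F s / (2 * N) ≤ 0 := by
      by_contra h
      push Not at h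
      have := mul_pos (pow_pos hr N) h
      linarith
    have h8 : 2 * N * deriv F s + F s = (2 * N) * (deriv F s + F s / (2 * N)) := by
      field_simp
    rw [h8]
    exact mul_nonpos_of_nonneg_of_nonpos (by linarith) h7
  have hs0 : (0:ℝ) < 2 * N ^ 2 := by positivity
  have hV : ∀ s : ℝ, HasDerivAt (fun s : ℝ => F s + (2 * N - (s - 2 * N ^ 2) / 2) * deriv F s)
      (deriv F s / 2 + (2 * N - (s - 2 * N ^ 2) / 2) * deriv (deriv F) s) s := by
    intro s
    have h1 : HasDerivAt (fun s : ℝ => 2 * N - (s - 2 * N ^ 2) / 2) (-(1 / 2) : ℝ) s := by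
      have h2 := (((hasDerivAt_id s).sub_const (2 * (N:ℝ) ^ 2)).div_const 2).const_sub (2 * (N:ℝ))
      exact h2
    have h3 := (hF0 s).hasDerivAt.add (h1.mul (hF1 s).hasDerivAt)
    refine h3.congr_deriv ?_
    ring
  have hanti : AntitoneOn (fun s : ℝ => F s + (2 * N - (s - 2 * N ^ 2) / 2) * deriv F s)
      (Set.Icc (2 * (N:ℝ) ^ 2) (2 * (N:ℝ) ^ 2 + 4 * N)) := by
    apply antitoneOn_of_deriv_nonpos (convex_Icc _ _)
    · exact (continuous_iff_continuousAt.2 (fun r => (hV r).continuousAt)).continuousOn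
    · intro x _
      exact (hV x).differentiableAt.differentiableWithinAt
    · intro x hx
      rw [interior_Icc] at hx
      rw [(hV x).deriv]
      obtain ⟨hx1, hx2⟩ := hx
      have hx0 : 0 < x := by linarith
      have h1 := hode x
      have h2 := hB x hx0
      have h3 := hneg x hx0.le
      have h4 := hcon x hx0.le
      have h5 : 0 ≤ deriv (deriv F) x := by
        by_contra h
        push Not at h
        have := mul_neg_of_pos_of_neg hx0 h
        nlinarith
      have h6 : 2 * N * deriv (deriv F) x ≤ - deriv F x / 2 := by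
        have h7 : 8 * N ^ 2 * deriv (deriv F) x ≤ 4 * x * deriv (deriv F) x := by nlinarith
        have h8 : (N:ℝ) * (4 * N * deriv (deriv F) x + deriv F x) ≤ 0 := by nlinarith
        have h9 : 4 * N * deriv (deriv F) x + deriv F x ≤ 0 := by
          by_contra h
          push Not at h
          have := mul_pos (by linarith : (0:ℝ) < N) h
          linarith
        linarith
      have h10 : (2 * N - (x - 2 * N ^ 2) / 2) * deriv (deriv F) x ≤ 2 * N * deriv (deriv F) x := by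
        apply mul_le_mul_of_nonneg_right _ h5
        linarith
      linarith
  have h5 := hanti ⟨le_rfl, by linarith⟩ ⟨by linarith, le_rfl⟩
    (by linarith : 2 * (N:ℝ) ^ 2 ≤ 2 * (N:ℝ) ^ 2 + 4 * N)
  have h6 := hB (2 * (N:ℝ) ^ 2) hs0
  have h7 := hcon (2 * (N:ℝ) ^ 2 + 4 * N) (by linarith)
  simp only at h5
  have h8 : (2 * (N:ℝ) - (2 * (N:ℝ) ^ 2 + 4 * N - 2 * N ^ 2) / 2) = 0 := by ring
  have h9 : (2 * (N:ℝ) - (2 * (N:ℝ) ^ 2 - 2 * N ^ 2) / 2) = 2 * N := by ring
  rw [h8, h9] at h5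
  linarith

theorem exists_ground_of_series (N : ℕ) (hN : 2 ≤ N) (F : ℝ → ℝ) (hF : ContDiff ℝ (⊤ : ℕ∞) F)
    (h0 : F 0 = 1)
    (hode : ∀ s : ℝ, 4 * s * deriv (deriv F) s + 2 * N * deriv F s + F s = 0) :
    ∃ R : ℝ, Ground N F R := by
  have hne : {s : ℝ | 0 ≤ s ∧ F s ≤ 0}.Nonempty := egs_zero N hN F hF h0 hode
  have hcl : IsClosed {s : ℝ | 0 ≤ s ∧ F s ≤ 0} :=
    (isClosed_le continuous_const continuous_id).inter (isClosed_le hF.continuous continuous_const)
  have hbd : BddBelow {s : ℝ | 0 ≤ s ∧ F s ≤ 0} := ⟨0, fun s hs => hs.1⟩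
  have hmem := hcl.csInf_mem hne hbd
  set s₀ := sInf {s : ℝ | 0 ≤ s ∧ F s ≤ 0} with hs₀
  have hs0 : 0 < s₀ := by
    rcases hmem.1.eq_or_lt with h | h
    · exfalso
      have := hmem.2
      rw [← h, h0] at this
      linarith
    · exact h
  have hpos : ∀ s, 0 ≤ s → s < s₀ → 0 < F s := by
    intro s hs hlt
    by_contra h
    push Not at h
    have := csInf_le hbd (show s ∈ {s : ℝ | 0 ≤ s ∧ F s ≤ 0} from ⟨hs, h⟩)
    linarith
  have hge : 0 ≤ F s₀ := by
    have h1 : s₀ ∈ closure (Set.Ico 0 s₀) := by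
      rw [closure_Ico hs0.ne]
      exact ⟨hs0.le, le_rfl⟩
    have h2 : closure (Set.Ico 0 s₀) ⊆ {s | 0 ≤ F s} :=
      closure_minimal (fun s hs => (hpos s hs.1 hs.2).le)
        (isClosed_le continuous_const hF.continuous)
    exact h2 h1
  have hz : F s₀ = 0 := le_antisymm hmem.2 hge
  have hr2 : √s₀ ^ 2 = s₀ := Real.sq_sqrt hs0.le
  refine ⟨√s₀, ⟨Real.sqrt_pos.2 hs0, hF, h0, hode, ?_, ?_, ?_⟩⟩
  · rw [hr2]; exact hpos
  · rw [hr2]; exact hz
  · rw [hr2]
    intro s hs hs'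
    exact egs_neg N hN F hF h0 hode s₀ hs0 hpos s hs hs'
end Pool.Agent.Helper949.TB

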