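import Mathlib
import Pool.Agent.Helper949.TB.Defs

set_option autoImplicit false

open MeasureTheory Filter Topology Metric

namespace Pool.Agent.Helper949.TB

end Pool.Agent.Helper949.TB

namespace Pool.Agent.Helper949.TB
private theorem hasFD' {N : ℕ} (G : ℝ → ℝ) (hG : Differentiable ℝ G) (m : ℝ) (q x : E N) :
    HasFDerivAt (fun x : E N => G (m * ‖x - q‖ ^ 2))
      (deriv G (m * ‖x - q‖ ^ 2) • (m • ((2 : ℝ) • innerSL ℝ (x - q)))) x := by
  have h1 : HasFDerivAt (fun x : E N => ‖x - q‖ ^ 2) ((2 : ℝ) • innerSL ℝ (x - q)) x := by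
    have h0 : HasFDerivAt (fun x : E N => x - q) (ContinuousLinearMap.id ℝ (E N)) x :=
      (hasFDerivAt_id x).sub_const q
    have h3 := h0.norm_sq
    have e1 : ((2 : ℝ) • innerSL ℝ (x - q)) = (2 : ℕ) • innerSL ℝ (x - q) := by
      rw [two_smul, two_smul]
    rw [e1]
    simpa using h3
  have h2 := h1.const_mul m
  exact ((hG (m * ‖x - q‖ ^ 2)).hasDerivAt).comp_hasFDerivAt x h2

private theorem hasFD_apply' {N : ℕ} (G : ℝ → ℝ) (hG : Differentiable ℝ G) (m : ℝ) (q x : E N) (i : Fin N) :
    fderiv ℝ (fun x : E N => G (m * ‖x - q‖ ^ 2)) x (EuclideanSpace.single i 1) =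
      2 * m * deriv G (m * ‖x - q‖ ^ 2) * (x i - q i) := by
  rw [(hasFD' G hG m q x).fderiv]
  simp [EuclideanSpace.inner_single_right]
  ring

private theorem sum_sq_le' {N : ℕ} (f : E N → ℝ) (x : E N) :
    ∑ i, (fderiv ℝ f x (EuclideanSpace.single i 1)) ^ 2 ≤ ‖fderiv ℝ f x‖ ^ 2 := by
  set L := fderiv ℝ f x
  set v : E N := (InnerProductSpace.toDual ℝ (E N)).symm L with hv
  have h1 : ‖v‖ = ‖L‖ := LinearIsometryEquiv.norm_map _ _
  rw [← h1, EuclideanSpace.norm_sq_eq]
  apply Finset.sum_le_sum
  intro i _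
  have h2 : L (EuclideanSpace.single i 1) = v i := by
    have h3 : inner ℝ v (EuclideanSpace.single i (1 : ℝ)) = L (EuclideanSpace.single i 1) := by
      rw [hv]
      exact InnerProductSpace.toDual_symm_apply
    rw [← h3, EuclideanSpace.inner_single_right]
    simp
  rw [h2]
  simp

theorem ball_ineq (N : ℕ) (hN : 2 ≤ N) (F : ℝ → ℝ) (R : ℝ) (hG : Ground N F R)
    (q : E N) (ρ : ℝ) (hρ : 0 < ρ) (f : E N → ℝ) (hf : IsTest (ball q ρ) f) :
    (R / ρ) ^ 2 * ∫ x, f x ^ 2 ≤ ∫ x, ‖fderiv ℝ f x‖ ^ 2 := by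
  obtain ⟨hf1, hf2, hf3⟩ := hf
  have hR := hG.Rpos
  set m : ℝ := (R / ρ) ^ 2 with hm
  have hm0 : 0 < m := by positivity
  have hs : ContDiff ℝ (⊤ : ℕ∞) (fun x : E N => m * ‖x - q‖ ^ 2) :=
    contDiff_const.mul ((contDiff_id.sub contDiff_const).norm_sq ℝ)
  have hF := hG.smooth
  have hF' : ContDiff ℝ (⊤ : ℕ∞) (deriv F) := (contDiff_infty_iff_deriv.mp hF).2
  have hFd : Differentiable ℝ F := (contDiff_infty_iff_deriv.mp hF).1
  have hF'd : Differentiable ℝ (deriv F) := (contDiff_infty_iff_deriv.mp hF').1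
  set w : E N → ℝ := fun x => F (m * ‖x - q‖ ^ 2) with hw
  have hwc : ContDiff ℝ (⊤ : ℕ∞) w := hF.comp hs
  have hwpos : ∀ x ∈ ball q ρ, 0 < w x := by
    intro x hx
    rw [mem_ball, dist_eq_norm] at hx
    apply hG.pos
    · positivity
    · rw [hm]
      have h1 : R / ρ * ‖x - q‖ < R := by
        rw [div_mul_eq_mul_div, div_lt_iff₀ hρ]
        exact mul_lt_mul_of_pos_left hx hR
      have h2 : 0 ≤ R / ρ * ‖x - q‖ := by positivity
      nlinarith
  set h : E N → ℝ := fun x => f x ^ 2 / w x with hh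
  have hcd : ContDiff ℝ (⊤ : ℕ∞) h := by
    rw [contDiff_iff_contDiffAt]
    intro x
    by_cases hx : x ∈ tsupport f
    · exact (hf1.contDiffAt.pow 2).div hwc.contDiffAt (hwpos x (hf3 hx)).ne'
    · have h0 : f =ᶠ[𝓝 x] 0 := notMem_tsupport_iff_eventuallyEq.mp hx
      have h1 : h =ᶠ[𝓝 x] fun _ => 0 := by
        filter_upwards [h0] with y hy
        simp [hh, hy]
      exact contDiffAt_const.congr_of_eventuallyEq h1
  have hcs : HasCompactSupport h := by
    apply hf2.mono
    intro x hx
    simp only [Function.mem_support, hh] at hx ⊢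
    intro h0
    apply hx
    rw [h0]
    simp
  set e : Fin N → E N := fun i => EuclideanSpace.single i 1 with he
  set W1 : Fin N → E N → ℝ := fun i x => 2 * m * deriv F (m * ‖x - q‖ ^ 2) * (x i - q i) with hW1
  have hxi : ∀ i : Fin N, ContDiff ℝ (⊤ : ℕ∞) (fun x : E N => x i - q i) := by
    intro i
    exact (EuclideanSpace.proj i : E N →L[ℝ] ℝ).contDiff.sub contDiff_const
  have hW1c : ∀ i, ContDiff ℝ (⊤ : ℕ∞) (W1 i) := by
    intro i
    exact (contDiff_const.mul (hF'.comp hs)).mul (hxi i)
  have hone : (1 : WithTop ℕ∞) ≤ ((⊤ : ℕ∞) : WithTop ℕ∞) := by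
    exact_mod_cast le_top
  have hne : ((⊤ : ℕ∞) : WithTop ℕ∞) ≠ 0 := by
    intro h0
    rw [h0] at hone
    exact absurd hone (by simp)
  have hhd : Differentiable ℝ h := hcd.differentiable hne
  have hfd : Differentiable ℝ f := hf1.differentiable hne
  have hwd : Differentiable ℝ w := hwc.differentiable hne
  have hwh : ∀ y, w y * h y = f y ^ 2 := by
    intro y
    by_cases hy : y ∈ tsupport f
    · have hwy := hwpos y (hf3 hy)
      show w y * (f y ^ 2 / w y) = _
      field_simp
    · have h0 : f y = 0 := image_eq_zero_of_notMem_tsupport hy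
      show w y * (f y ^ 2 / w y) = _
      rw [h0]
      simp
  have hdW1 : ∀ i x, fderiv ℝ (W1 i) x (e i) =
      2 * m * (2 * m * deriv (deriv F) (m * ‖x - q‖ ^ 2) * (x i - q i) ^ 2 + deriv F (m * ‖x - q‖ ^ 2)) := by
    intro i x
    have h1 := (hasFD' (deriv F) hF'd m q x)
    have h2 : HasFDerivAt (fun x : E N => x i - q i) (EuclideanSpace.proj i : E N →L[ℝ] ℝ) x :=
      (EuclideanSpace.proj i : E N →L[ℝ] ℝ).hasFDerivAt.sub_const (q i)
    have h3 := (h1.const_mul (2 * m)).mul h2
    have h4 : HasFDerivAt (W1 i) _ x := h3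
    rw [h4.fderiv]
    simp [he, EuclideanSpace.inner_single_right]
    ring
  have hsum : ∀ x, ∑ i, fderiv ℝ (W1 i) x (e i) = - m * w x := by
    intro x
    have h1 : ∑ i, fderiv ℝ (W1 i) x (e i) =
        4 * m ^ 2 * deriv (deriv F) (m * ‖x - q‖ ^ 2) * (∑ i, (x i - q i) ^ 2) +
          2 * m * N * deriv F (m * ‖x - q‖ ^ 2) := by
      rw [Finset.mul_sum]
      have : (2 * m * N * deriv F (m * ‖x - q‖ ^ 2)) =
          ∑ i : Fin N, 2 * m * deriv F (m * ‖x - q‖ ^ 2) := by
        rw [Finset.sum_const, Finset.card_univ, Fintype.card_fin, nsmul_eq_mul]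
        ring
      rw [this, ← Finset.sum_add_distrib]
      apply Finset.sum_congr rfl
      intro i _
      rw [hdW1]
      ring
    have h2 : ∑ i, (x i - q i) ^ 2 = ‖x - q‖ ^ 2 := by
      rw [EuclideanSpace.norm_sq_eq]
      apply Finset.sum_congr rfl
      intro i _
      simp
    have h3 := hG.ode (m * ‖x - q‖ ^ 2)
    rw [h1, h2]
    show _ = - m * F (m * ‖x - q‖ ^ 2)
    linear_combination m * h3
  -- pointwise inequality
  have hpt : ∀ x, ∑ i, W1 i x * fderiv ℝ h x (e i) ≤ ‖fderiv ℝ f x‖ ^ 2 := by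
    intro x
    by_cases hx : x ∈ tsupport f
    · have hwx := hwpos x (hf3 hx)
      have h1 : ∀ i, fderiv ℝ h x (e i) =
          2 * f x * fderiv ℝ f x (e i) / w x - f x ^ 2 * W1 i x / w x ^ 2 := by
        intro i
        have hA := ((hfd x).hasFDerivAt.pow 2)
        have hB := (hwd x).hasFDerivAt
        have hC := hB.mul (hhd x).hasFDerivAt
        have hwh' : (fun y => w y * h y) = fun y => f y ^ 2 := by
          ext y
          exact hwh y
        have hD : HasFDerivAt (fun y => f y ^ 2) (w x • fderiv ℝ h x + h x • fderiv ℝ w x) x := by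
          rw [← hwh']
          exact hC
        have hU := hA.unique hD
        have hV := congrArg (fun T : E N →L[ℝ] ℝ => T (e i)) hU
        have hE : fderiv ℝ w x (e i) = W1 i x := hasFD_apply' F hFd m q x i
        simp only [ContinuousLinearMap.smul_apply, ContinuousLinearMap.add_apply, smul_eq_mul,
          hE] at hV
        have hhx : h x = f x ^ 2 / w x := rfl
        rw [hhx] at hV
        field_simp
        field_simp at hV
        simp at hV
        nlinarith
      refine le_trans ?_ (sum_sq_le' f x)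
      apply Finset.sum_le_sum
      intro i _
      rw [h1]
      have h2 : W1 i x * (2 * f x * fderiv ℝ f x (e i) / w x - f x ^ 2 * W1 i x / w x ^ 2) =
          (fderiv ℝ f x (e i)) ^ 2 - (fderiv ℝ f x (e i) - f x * W1 i x / w x) ^ 2 := by
        field_simp
        ring
      rw [h2]
      have h3 := sq_nonneg (fderiv ℝ f x (e i) - f x * W1 i x / w x)
      show _ ≤ (fderiv ℝ f x (e i)) ^ 2
      linarith
    · have h0 : f =ᶠ[𝓝 x] 0 := notMem_tsupport_iff_eventuallyEq.mp hx
      have h1 : h =ᶠ[𝓝 x] fun _ => 0 := by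
        filter_upwards [h0] with y hy
        simp [hh, hy]
      have h2 : fderiv ℝ h x = 0 := by
        rw [h1.fderiv_eq]
        simp
      rw [h2]
      simp
  have hfdc : Continuous (fun x => fderiv ℝ h x) := hcd.continuous_fderiv hne
  have hfdcs : HasCompactSupport (fun x => fderiv ℝ h x) := hcs.fderiv ℝ
  have hi1 : ∀ i, Integrable (fun x => W1 i x * fderiv ℝ h x (e i)) := by
    intro i
    apply Continuous.integrable_of_hasCompactSupport
    · exact (hW1c i).continuous.mul (hfdc.clm_apply continuous_const)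
    · apply hfdcs.mono
      intro x hx
      simp only [Function.mem_support] at hx ⊢
      intro h0
      apply hx
      rw [h0]
      simp
  have hi2 : ∀ i, Integrable (fun x => fderiv ℝ (W1 i) x (e i) * h x) := by
    intro i
    apply Continuous.integrable_of_hasCompactSupport
    · exact (((hW1c i).continuous_fderiv hne).clm_apply continuous_const).mul hcd.continuous
    · apply hcs.mono
      intro x hx
      simp only [Function.mem_support] at hx ⊢
      intro h0
      apply hx
      rw [h0]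
      simp
  have hi3 : ∀ i, Integrable (fun x => W1 i x * h x) := by
    intro i
    apply Continuous.integrable_of_hasCompactSupport
    · exact (hW1c i).continuous.mul hcd.continuous
    · apply hcs.mono
      intro x hx
      simp only [Function.mem_support] at hx ⊢
      intro h0
      apply hx
      rw [h0]
      simp
  have hi4 : Integrable (fun x => ‖fderiv ℝ f x‖ ^ 2) := by
    apply Continuous.integrable_of_hasCompactSupport
    · exact (hf1.continuous_fderiv hne).norm.pow 2
    · apply (hf2.fderiv ℝ).mono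
      intro x hx
      simp only [Function.mem_support] at hx ⊢
      intro h0
      apply hx
      rw [h0]
      simp
  have hIBP : ∀ i, ∫ x, W1 i x * fderiv ℝ h x (e i) = - ∫ x, fderiv ℝ (W1 i) x (e i) * h x := by
    intro i
    exact integral_mul_fderiv_eq_neg_fderiv_mul_of_integrable (hi2 i) (hi1 i) (hi3 i)
      (fun x _ => (hW1c i).differentiable hne x) (fun x _ => hhd x)
  have hfin : ∫ x, ∑ i, W1 i x * fderiv ℝ h x (e i) = m * ∫ x, f x ^ 2 := by
    rw [integral_finsetSum _ (fun i _ => hi1 i)]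
    simp_rw [hIBP]
    rw [Finset.sum_neg_distrib, ← integral_finsetSum _ (fun i _ => hi2 i), ← integral_neg,
      ← integral_const_mul]
    congr 1
    ext x
    rw [← Finset.sum_mul, hsum]
    by_cases hx : x ∈ tsupport f
    · have hwx := hwpos x (hf3 hx)
      show - (- m * w x * (f x ^ 2 / w x)) = m * f x ^ 2
      field_simp
      try ring
    · have h0 : f x = 0 := image_eq_zero_of_notMem_tsupport hx
      show - (- m * w x * (f x ^ 2 / w x)) = m * f x ^ 2
      rw [h0]
      simp
  rw [← hfin]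
  apply integral_mono (integrable_finsetSum _ (fun i _ => hi1 i)) hi4
  exact hpt

end Pool.Agent.Helper949.TB

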