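import Mathlib
import Pool.Agent.Helper949.TB.Defs

set_option autoImplicit false

open MeasureTheory Filter Topology Metric

namespace Pool.Agent.Helper949.TB

end Pool.Agent.Helper949.TB

namespace Pool.Agent.Helper949.TB

private theorem j25104_pos {N : ℕ} (v : E N → ℝ) (hv : Continuous v) (hs : HasCompactSupport v)
    (h0 : v ≠ 0) : 0 < ∫ x, v x ^ 2 := by
  obtain ⟨x, hx⟩ := Function.ne_iff.1 h0
  have hs2 : HasCompactSupport (fun x => v x ^ 2) :=
    hs.comp_left (g := fun t : ℝ => t ^ 2) (by norm_num)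
  exact (hv.pow 2).integral_pos_of_hasCompactSupport_nonneg_nonzero hs2 (fun x => sq_nonneg _)
    (x := x) (pow_ne_zero 2 hx)

private theorem j25104_nz {N k : ℕ} (hk : 1 ≤ k) (V : Submodule ℝ (E N → ℝ))
    (hV : Module.finrank ℝ V = k) : ∃ v ∈ V, v ≠ 0 := by
  have h : V ≠ ⊥ := by
    rintro rfl
    rw [finrank_bot] at hV
    omega
  exact Submodule.exists_mem_ne_zero_of_ne_bot h

/-- every admissible number is positive or zero -/
theorem raySet_nonneg (N k : ℕ) (hk : 1 ≤ k) (Ω : Set (E N)) (c : ℝ) (hc : c ∈ RaySet N k Ω) : 0 ≤ c := by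
  obtain ⟨V, hV, h⟩ := hc
  obtain ⟨v, hvV, hv0⟩ := j25104_nz hk V hV
  obtain ⟨h1, h2, h3, h4⟩ := h v hvV
  have h5 := j25104_pos v h1.continuous h2 hv0
  have h6 : 0 ≤ ∫ x, ‖fderiv ℝ v x‖ ^ 2 := integral_nonneg fun x => sq_nonneg _
  by_contra hcn
  push Not at hcn
  have := mul_neg_of_neg_of_pos hcn h5
  linarith

theorem lam_le (N k : ℕ) (hk : 1 ≤ k) (Ω : Set (E N)) (c : ℝ) (hc : c ∈ RaySet N k Ω) :
    lam N k Ω ≤ c :=
  csInf_le ⟨0, fun d hd => raySet_nonneg N k hk Ω d hd⟩ hc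

private theorem j25104_sq {ι G : Type} [Fintype ι] [NormedAddCommGroup G] (F : ι → G)
    (h : ∀ i j, i ≠ j → F i = 0 ∨ F j = 0) : ‖∑ i, F i‖ ^ 2 = ∑ i, ‖F i‖ ^ 2 := by
  classical
  by_cases hall : ∀ i, F i = 0
  · simp [hall]
  · push Not at hall
    obtain ⟨j, hj⟩ := hall
    have hz : ∀ i, i ≠ j → F i = 0 := by
      intro i hij
      rcases h i j hij with h1 | h1
      · exact h1
      · exact absurd h1 hj
    rw [Finset.sum_eq_single j (fun i _ hij => hz i hij) (fun h => absurd (Finset.mem_univ _) h),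
      Finset.sum_eq_single j (fun i _ hij => by rw [hz i hij, norm_zero]; norm_num)
        (fun h => absurd (Finset.mem_univ _) h)]

private theorem j25104_pts (N k : ℕ) (hN : 1 ≤ N) (x0 : E N) (r : ℝ) (hr : 0 < r) :
    ∃ (p : Fin k → E N) (δ : ℝ), 0 < δ ∧ (∀ i j, i ≠ j → δ ≤ dist (p i) (p j)) ∧
      ∀ i x, dist x (p i) ≤ δ / 3 → dist x x0 < r := by
  obtain ⟨e, he⟩ : ∃ e : E N, ‖e‖ = 1 := ⟨EuclideanSpace.single ⟨0, hN⟩ 1, by simp⟩
  obtain ⟨δ, hδ0, hrδ⟩ : ∃ δ : ℝ, 0 < δ ∧ r = (k + 1) * δ :=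
    ⟨r / (k + 1), by positivity, by field_simp⟩
  refine ⟨fun i => x0 + (((i : ℕ) : ℝ) * δ) • e, δ, hδ0, ?_, ?_⟩
  · intro i j hij
    have h1 : (x0 + (((i : ℕ) : ℝ) * δ) • e) - (x0 + (((j : ℕ) : ℝ) * δ) • e) =
        (((i : ℕ) : ℝ) - ((j : ℕ) : ℝ)) • (δ • e) := by
      rw [smul_smul, add_sub_add_left_eq_sub, ← sub_smul, ← sub_mul]
    rw [dist_eq_norm, h1, norm_smul, norm_smul, he, mul_one, Real.norm_eq_abs, Real.norm_eq_abs,
      abs_of_pos hδ0]
    have h2 : (1 : ℝ) ≤ |((i : ℕ) : ℝ) - ((j : ℕ) : ℝ)| := by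
      have h3 : ((i : ℕ) : ℤ) ≠ ((j : ℕ) : ℤ) := by
        intro h
        exact hij (Fin.ext (by exact_mod_cast h))
      have h4 : (1 : ℤ) ≤ |((i : ℕ) : ℤ) - ((j : ℕ) : ℤ)| :=
        Int.one_le_abs (sub_ne_zero.2 h3)
      exact_mod_cast h4
    nlinarith
  · intro i x hx
    have h1 : dist (x0 + (((i : ℕ) : ℝ) * δ) • e) x0 = ((i : ℕ) : ℝ) * δ := by
      rw [dist_eq_norm, add_sub_cancel_left, norm_smul, he, mul_one, Real.norm_eq_abs,
        abs_of_nonneg (by positivity)]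
    have h2 : ((i : ℕ) : ℝ) + 1 ≤ k := by exact_mod_cast i.2
    have h3 := dist_triangle x (x0 + (((i : ℕ) : ℝ) * δ) • e) x0
    rw [h1] at h3
    rw [hrδ]
    nlinarith

private theorem j25104_bumps (N k : ℕ) (hN : 1 ≤ N) (Ω : Set (E N)) (hΩ : IsOpen Ω) (hne : Ω.Nonempty) :
    ∃ (F : Fin k → E N → ℝ) (p : Fin k → E N), (∀ i, ContDiff ℝ (⊤ : ℕ∞) (F i)) ∧
      (∀ i, HasCompactSupport (F i)) ∧ (∀ i, tsupport (F i) ⊆ Ω) ∧ (∀ i, F i (p i) = 1) ∧
      ∀ i j, i ≠ j → ∀ x, x ∈ tsupport (F i) → x ∉ tsupport (F j) := by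
  obtain ⟨x0, hx0⟩ := hne
  obtain ⟨r, hr, hball⟩ := Metric.isOpen_iff.1 hΩ x0 hx0
  obtain ⟨p, δ, hδ, hpd, hpx⟩ := j25104_pts N k hN x0 r hr
  have key : ∀ i : Fin k, ∃ F : E N → ℝ, ContDiff ℝ (⊤ : ℕ∞) F ∧ HasCompactSupport F ∧
      tsupport F = closedBall (p i) (δ / 3) ∧ F (p i) = 1 := by
    intro i
    have f : {f : ContDiffBump (p i) // f.rOut = δ / 3} :=
      ⟨⟨δ / 6, δ / 3, by positivity, by linarith⟩, rfl⟩
    refine ⟨f.1, f.1.contDiff, f.1.hasCompactSupport, ?_, ?_⟩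
    · have h := f.1.tsupport_eq
      rwa [f.2] at h
    · exact f.1.one_of_mem_closedBall (mem_closedBall_self f.1.rIn_pos.le)
  choose F hF1 hF2 hF3 hF4 using key
  refine ⟨F, p, hF1, hF2, ?_, hF4, ?_⟩
  · intro i x hx
    rw [hF3, mem_closedBall] at hx
    exact hball (mem_ball.2 (hpx i x hx))
  · intro i j hij x hx hx'
    rw [hF3, mem_closedBall] at hx hx'
    have h1 := hpd i j hij
    have h2 := dist_triangle_left (p i) (p j) x
    linarith

private theorem j25104_span (N k : ℕ) (Ω : Set (E N)) (F : Fin k → E N → ℝ) (p : Fin k → E N)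
    (hFs : ∀ i, ContDiff ℝ (⊤ : ℕ∞) (F i)) (hFc : ∀ i, HasCompactSupport (F i))
    (hsubΩ : ∀ i, tsupport (F i) ⊆ Ω) (hF1 : ∀ i, F i (p i) = 1)
    (hdisj : ∀ i j, i ≠ j → ∀ x, x ∈ tsupport (F i) → x ∉ tsupport (F j)) :
    (RaySet N k Ω).Nonempty := by
  have hor : ∀ i j, i ≠ j → ∀ x, F i x = 0 ∨ F j x = 0 := by
    intro i j hij x
    by_cases h : x ∈ tsupport (F i)
    · exact Or.inr (image_eq_zero_of_notMem_tsupport (hdisj i j hij x h))
    · exact Or.inl (image_eq_zero_of_notMem_tsupport h)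
  have hord : ∀ i j, i ≠ j → ∀ x, fderiv ℝ (F i) x = 0 ∨ fderiv ℝ (F j) x = 0 := by
    intro i j hij x
    by_cases h : x ∈ tsupport (F i)
    · refine Or.inr ?_
      by_contra h'
      exact hdisj i j hij x h (support_fderiv_subset ℝ h')
    · refine Or.inl ?_
      by_contra h'
      exact h (support_fderiv_subset ℝ h')
  have hli : LinearIndependent ℝ F := by
    rw [Fintype.linearIndependent_iff]
    intro g hg j
    have h1 := congrFun hg (p j)
    rw [Finset.sum_apply, Finset.sum_eq_single j] at h1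
    · simpa [hF1 j] using h1
    · intro i _ hij
      rcases hor i j hij (p j) with h2 | h2
      · show g i * F i (p j) = 0
        rw [h2, mul_zero]
      · rw [hF1 j] at h2
        exact absurd h2 one_ne_zero
    · intro h
      exact absurd (Finset.mem_univ _) h
  have hb : ∀ i, 0 < ∫ x, F i x ^ 2 := by
    intro i
    refine j25104_pos (F i) (hFs i).continuous (hFc i) ?_
    intro h
    have := congrFun h (p i)
    rw [hF1 i] at this
    exact one_ne_zero this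
  have ha : ∀ i, 0 ≤ ∫ x, ‖fderiv ℝ (F i) x‖ ^ 2 := fun i => integral_nonneg fun x => sq_nonneg _
  refine ⟨∑ i, (∫ x, ‖fderiv ℝ (F i) x‖ ^ 2) / (∫ x, F i x ^ 2),
    Submodule.span ℝ (Set.range F), ?_, ?_⟩
  · rw [finrank_span_eq_card hli, Fintype.card_fin]
  · intro v hv
    obtain ⟨g, rfl⟩ := (Submodule.mem_span_range_iff_exists_fun ℝ).1 hv
    have hvx : ∀ x, (∑ i, g i • F i) x = ∑ i, g i * F i x := by
      intro x
      rw [Finset.sum_apply]
      rfl
    have hfun : (∑ i, g i • F i) = fun x => ∑ i, g i * F i x := funext hvx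
    have hsm : ContDiff ℝ (⊤ : ℕ∞) (∑ i, g i • F i) := by
      rw [hfun]
      exact ContDiff.sum fun i _ => contDiff_const.mul (hFs i)
    have hts : tsupport (∑ i, g i • F i) ⊆ ⋃ i, tsupport (F i) := by
      refine closure_minimal ?_ (isClosed_iUnion_of_finite fun i => isClosed_tsupport _)
      intro x hx
      by_contra hx'
      simp only [Set.mem_iUnion, not_exists] at hx'
      apply hx
      rw [hvx]
      refine Finset.sum_eq_zero fun i _ => ?_
      rw [image_eq_zero_of_notMem_tsupport (hx' i), mul_zero]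
    have hcs : HasCompactSupport (∑ i, g i • F i) := by
      refine IsCompact.of_isClosed_subset (isCompact_iUnion fun i => hFc i)
        (isClosed_tsupport _) hts
    refine ⟨hsm, hcs, hts.trans (Set.iUnion_subset hsubΩ), ?_⟩
    have hfd : ∀ x, fderiv ℝ (∑ i, g i • F i) x = ∑ i, g i • fderiv ℝ (F i) x := by
      intro x
      rw [hfun]
      have h1 : HasFDerivAt (fun x => ∑ i, g i * F i x) (∑ i, g i • fderiv ℝ (F i) x) x := by
        refine HasFDerivAt.fun_sum fun i _ => ?_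
        exact (((hFs i).differentiable (by simp)) x).hasFDerivAt.const_mul (g i)
      exact h1.fderiv
    have e1 : ∀ x, ‖fderiv ℝ (∑ i, g i • F i) x‖ ^ 2 = ∑ i, g i ^ 2 * ‖fderiv ℝ (F i) x‖ ^ 2 := by
      intro x
      rw [hfd, j25104_sq]
      · refine Finset.sum_congr rfl fun i _ => ?_
        rw [norm_smul, mul_pow, Real.norm_eq_abs, sq_abs]
      · intro i j hij
        rcases hord i j hij x with h | h
        · exact Or.inl (by rw [h, smul_zero])
        · exact Or.inr (by rw [h, smul_zero])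
    have e2 : ∀ x, (∑ i, g i • F i) x ^ 2 = ∑ i, g i ^ 2 * F i x ^ 2 := by
      intro x
      rw [hvx, ← sq_abs, ← Real.norm_eq_abs, j25104_sq]
      · refine Finset.sum_congr rfl fun i _ => ?_
        rw [Real.norm_eq_abs, sq_abs, mul_pow]
      · intro i j hij
        rcases hor i j hij x with h | h
        · exact Or.inl (by rw [h, mul_zero])
        · exact Or.inr (by rw [h, mul_zero])
    have hi1 : ∀ i, Integrable (fun x => ‖fderiv ℝ (F i) x‖ ^ 2) := by
      intro i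
      have hc : Continuous (fun x => ‖fderiv ℝ (F i) x‖ ^ 2) :=
        (((hFs i).continuous_fderiv (by simp)).norm).pow 2
      refine hc.integrable_of_hasCompactSupport ?_
      exact ((hFc i).fderiv ℝ).comp_left (g := fun L : E N →L[ℝ] ℝ => ‖L‖ ^ 2) (by simp)
    have hi2 : ∀ i, Integrable (fun x => F i x ^ 2) := by
      intro i
      have hc : Continuous (fun x => F i x ^ 2) := (hFs i).continuous.pow 2
      have hs2 : HasCompactSupport (fun x => F i x ^ 2) :=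
        (hFc i).comp_left (g := fun t : ℝ => t ^ 2) (by norm_num)
      exact hc.integrable_of_hasCompactSupport hs2
    simp only [e1, e2]
    rw [integral_finset_sum _ fun i _ => (hi1 i).const_mul _,
      integral_finset_sum _ fun i _ => (hi2 i).const_mul _, Finset.mul_sum]
    refine Finset.sum_le_sum fun i _ => ?_
    rw [integral_const_mul, integral_const_mul]
    have h1 : (∫ x, ‖fderiv ℝ (F i) x‖ ^ 2) / (∫ x, F i x ^ 2) ≤
        ∑ i, (∫ x, ‖fderiv ℝ (F i) x‖ ^ 2) / (∫ x, F i x ^ 2) :=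
      Finset.single_le_sum (f := fun i => (∫ x, ‖fderiv ℝ (F i) x‖ ^ 2) / (∫ x, F i x ^ 2))
        (fun j _ => div_nonneg (ha j) (hb j).le) (Finset.mem_univ i)
    have h2 : g i ^ 2 * ∫ x, ‖fderiv ℝ (F i) x‖ ^ 2 =
        (∫ x, ‖fderiv ℝ (F i) x‖ ^ 2) / (∫ x, F i x ^ 2) * (g i ^ 2 * ∫ x, F i x ^ 2) := by
      have := (hb i).ne'
      field_simp
    rw [h2]
    exact mul_le_mul_of_nonneg_right h1 (mul_nonneg (sq_nonneg _) (hb i).le)

theorem raySet_nonempty (N k : ℕ) (hN : 1 ≤ N) (Ω : Set (E N)) (hΩ : IsOpen Ω) (hne : Ω.Nonempty) :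
    (RaySet N k Ω).Nonempty := by
  obtain ⟨F, p, h1, h2, h3, h4, h5⟩ := j25104_bumps N k hN Ω hΩ hne
  exact j25104_span N k Ω F p h1 h2 h3 h4 h5

theorem lam_lower (N k : ℕ) (hk : 1 ≤ k) (Ω : Set (E N)) (hΩ : IsOpen Ω) (hne : Ω.Nonempty) (hN : 1 ≤ N) (m : ℝ)
    (h : ∀ f : E N → ℝ, IsTest Ω f → m * ∫ x, f x ^ 2 ≤ ∫ x, ‖fderiv ℝ f x‖ ^ 2) :
    m ≤ lam N k Ω := by
  refine le_csInf (raySet_nonempty N k hN Ω hΩ hne) fun c hc => ?_
  obtain ⟨V, hV, hv⟩ := hc
  obtain ⟨v, hvV, hv0⟩ := j25104_nz hk V hV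
  obtain ⟨h1, h2, h3, h4⟩ := hv v hvV
  have h5 := j25104_pos v h1.continuous h2 hv0
  have h6 := h v ⟨h1, h2, h3⟩
  exact le_of_mul_le_mul_right (h6.trans h4) h5

end Pool.Agent.Helper949.TB

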