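import Mathlib
import Pool.Agent.Helper949.TB.Defs

set_option autoImplicit false

open MeasureTheory Filter Topology Metric

namespace Pool.Agent.Helper949.TB

end Pool.Agent.Helper949.TB

namespace Pool.Agent.Helper949.TB
private theorem approx_T_deriv_zero (y : ℝ) (hy : y ≤ 0 ∨ 1 ≤ y) :
    deriv Real.smoothTransition y = 0 := by
  rcases hy with hy | hy
  · apply IsLocalMin.deriv_eq_zero
    apply Filter.Eventually.of_forall
    intro z
    rw [Real.smoothTransition.zero_of_nonpos hy]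
    exact Real.smoothTransition.nonneg z
  · apply IsLocalMax.deriv_eq_zero
    apply Filter.Eventually.of_forall
    intro z
    rw [Real.smoothTransition.one_of_one_le hy]
    exact Real.smoothTransition.le_one z

private theorem approx_T_bound : ∃ C : ℝ, 0 ≤ C ∧ ∀ y, |deriv Real.smoothTransition y| ≤ C := by
  have hc : Continuous (deriv Real.smoothTransition) :=
    (Real.smoothTransition.contDiff (n := ⊤)).continuous_deriv (by exact_mod_cast le_top)
  obtain ⟨C, hC⟩ := (isCompact_Icc (a := (0 : ℝ)) (b := 1)).exists_bound_of_continuousOn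
    hc.continuousOn
  refine ⟨max C 0, le_max_right _ _, fun y => ?_⟩
  by_cases hy : y ∈ Set.Icc (0 : ℝ) 1
  · exact (hC y hy).trans (le_max_left _ _)
  · rw [approx_T_deriv_zero y, abs_zero]
    · exact le_max_right _ _
    · simp only [Set.mem_Icc, not_and_or, not_le] at hy
      rcases hy with h | h
      · exact Or.inl h.le
      · exact Or.inr h.le

/-- cut off profile -/
private noncomputable def approx_h (F : ℝ → ℝ) (R : ℝ) (n : ℕ) (s : ℝ) : ℝ :=
  Real.smoothTransition (((n : ℝ) + 2) / R ^ 2 * (R ^ 2 - s) - 1) * F s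

/-- its derivative -/
private noncomputable def approx_k (F : ℝ → ℝ) (R : ℝ) (n : ℕ) (s : ℝ) : ℝ :=
  deriv Real.smoothTransition (((n : ℝ) + 2) / R ^ 2 * (R ^ 2 - s) - 1) *
    (-(((n : ℝ) + 2) / R ^ 2)) * F s +
  Real.smoothTransition (((n : ℝ) + 2) / R ^ 2 * (R ^ 2 - s) - 1) * deriv F s

private theorem approx_h_deriv {F : ℝ → ℝ} (R : ℝ) (n : ℕ) (s : ℝ) (hF : ContDiff ℝ (⊤ : ℕ∞) F) :
    HasDerivAt (approx_h F R n) (approx_k F R n s) s := by
  have h1 : HasDerivAt (fun s => ((n : ℝ) + 2) / R ^ 2 * (R ^ 2 - s) - 1)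
      (-(((n : ℝ) + 2) / R ^ 2)) s := by
    have := (((hasDerivAt_id s).const_sub (R ^ 2)).const_mul (((n : ℝ) + 2) / R ^ 2)).sub_const 1
    simpa using this
  have h2 : HasDerivAt Real.smoothTransition
      (deriv Real.smoothTransition (((n : ℝ) + 2) / R ^ 2 * (R ^ 2 - s) - 1))
      (((n : ℝ) + 2) / R ^ 2 * (R ^ 2 - s) - 1) :=
    ((Real.smoothTransition.contDiff (n := ⊤)).differentiable (by norm_num) _).hasDerivAt
  have h3 := (hF.differentiable (by norm_num) s).hasDerivAt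
  exact (h2.comp s h1).mul h3

private theorem approx_h_smooth {F : ℝ → ℝ} (R : ℝ) (n : ℕ) (hF : ContDiff ℝ (⊤ : ℕ∞) F) :
    ContDiff ℝ (⊤ : ℕ∞) (approx_h F R n) := by
  unfold approx_h
  exact (Real.smoothTransition.contDiff.comp (by fun_prop)).mul hF

private theorem approx_grad {N : ℕ} (h : ℝ → ℝ) (h' : ℝ) (x : E N) (hh : HasDerivAt h h' (‖x‖ ^ 2)) :
    HasGradientAt (fun x : E N => h (‖x‖ ^ 2)) ((2 * h') • x) x := by
  rw [hasGradientAt_iff_hasFDerivAt]
  have h1 := hh.comp_hasFDerivAt x (hasStrictFDerivAt_norm_sq x).hasFDerivAt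
  have h2 : (InnerProductSpace.toDual ℝ (E N)) ((2 * h') • x) = h' • 2 • (innerSL ℝ) x := by
    ext v
    simp
    ring
  rw [h2]
  exact h1

private theorem approx_grad_cont {N : ℕ} {φ : E N → ℝ} (hφ : ContDiff ℝ (⊤ : ℕ∞) φ) :
    Continuous (gradient φ) :=
  (InnerProductSpace.toDual ℝ (E N)).symm.continuous.comp (hφ.continuous_fderiv (by norm_num))

private theorem approx_lim {N : ℕ} {R : ℝ} (g : ℕ → E N → ℝ) (g0 : E N → ℝ) (K : ℝ)
    (hc : ∀ n, Continuous (g n)) (h0 : ∀ n x, x ∉ ball (0 : E N) R → g n x = 0)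
    (hK : ∀ n, ∀ x ∈ ball (0 : E N) R, |g n x| ≤ K)
    (hl : ∀ x ∈ ball (0 : E N) R, Tendsto (fun n => g n x) atTop (𝓝 (g0 x))) :
    Tendsto (fun n => ∫ x, g n x) atTop (𝓝 (∫ x in ball (0 : E N) R, g0 x)) := by
  have h1 : ∀ n, ∫ x, g n x = ∫ x in ball (0 : E N) R, g n x := fun n =>
    (setIntegral_eq_integral_of_forall_compl_eq_zero (h0 n)).symm
  simp_rw [h1]
  haveI : IsFiniteMeasure (volume.restrict (ball (0 : E N) R)) :=
    ⟨by rw [Measure.restrict_apply_univ]; exact measure_ball_lt_top⟩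
  apply tendsto_integral_of_dominated_convergence (fun _ => K)
  · intro n
    exact (hc n).aestronglyMeasurable
  · exact integrable_const _
  · intro n
    rw [ae_restrict_iff' measurableSet_ball]
    exact Filter.Eventually.of_forall fun x hx => hK n x hx
  · rw [ae_restrict_iff' measurableSet_ball]
    exact Filter.Eventually.of_forall fun x hx => hl x hx

private theorem approx_zero {F : ℝ → ℝ} {R : ℝ} {n : ℕ} {s : ℝ}
    (h : ((n : ℝ) + 2) / R ^ 2 * (R ^ 2 - s) - 1 ≤ 0) :
    approx_h F R n s = 0 ∧ approx_k F R n s = 0 := by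
  unfold approx_h approx_k
  rw [Real.smoothTransition.zero_of_nonpos h, approx_T_deriv_zero _ (Or.inl h)]
  simp

private theorem approx_zero' {F : ℝ → ℝ} {R : ℝ} {n : ℕ} {s : ℝ}
    (h : R ^ 2 ≤ s) :
    approx_h F R n s = 0 ∧ approx_k F R n s = 0 := by
  apply approx_zero
  have : ((n : ℝ) + 2) / R ^ 2 * (R ^ 2 - s) ≤ 0 :=
    mul_nonpos_of_nonneg_of_nonpos (by positivity) (by linarith)
  linarith

private theorem approx_ev {F : ℝ → ℝ} {R : ℝ} (hR : 0 < R) {s : ℝ} (h : s < R ^ 2) :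
    ∀ᶠ n : ℕ in atTop, approx_h F R n s = F s ∧ approx_k F R n s = deriv F s := by
  filter_upwards [eventually_ge_atTop (⌈2 * R ^ 2 / (R ^ 2 - s)⌉₊)] with n hn
  have h1 : 2 * R ^ 2 / (R ^ 2 - s) ≤ n := (Nat.le_ceil _).trans (by exact_mod_cast hn)
  have h2 : 0 < R ^ 2 - s := by linarith
  have hR2 : 0 < R ^ 2 := by positivity
  rw [div_le_iff₀ h2] at h1
  have h3 : 1 ≤ ((n : ℝ) + 2) / R ^ 2 * (R ^ 2 - s) - 1 := by
    have : 2 ≤ ((n : ℝ) + 2) / R ^ 2 * (R ^ 2 - s) := by
      rw [div_mul_eq_mul_div, le_div_iff₀ hR2]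
      nlinarith
    linarith
  unfold approx_h approx_k
  rw [Real.smoothTransition.one_of_one_le h3, approx_T_deriv_zero _ (Or.inr h3)]
  simp

private theorem approx_F_anti {N : ℕ} {F : ℝ → ℝ} {R : ℝ} (hG : Ground N F R) {s : ℝ} (h0 : 0 ≤ s)
    (h1 : s ≤ R ^ 2) : 0 ≤ F s ∧ F s ≤ 1 := by
  have hanti : AntitoneOn F (Set.Icc 0 (R ^ 2)) := by
    apply antitoneOn_of_deriv_nonpos (convex_Icc _ _) hG.smooth.continuous.continuousOn
      (hG.smooth.differentiable (by norm_num)).differentiableOn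
    intro x hx
    rw [interior_Icc] at hx
    exact (hG.neg x hx.1.le hx.2.le).le
  have hR2 : 0 ≤ R ^ 2 := by positivity
  refine ⟨?_, ?_⟩
  · rw [← hG.zero]
    exact hanti ⟨h0, h1⟩ ⟨hR2, le_refl _⟩ h1
  · rw [← hG.one]
    exact hanti ⟨le_refl _, hR2⟩ ⟨h0, h1⟩ h0

private theorem approx_k_bound {N : ℕ} {F : ℝ → ℝ} {R : ℝ} (hG : Ground N F R) :
    ∃ K : ℝ, 0 ≤ K ∧ ∀ n s, 0 ≤ s → s ≤ R ^ 2 → |approx_k F R n s| ≤ K := by
  obtain ⟨C, hC0, hC⟩ := approx_T_bound
  have hR2 : 0 < R ^ 2 := by have := hG.Rpos; positivity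
  have hdc : Continuous (deriv F) := hG.smooth.continuous_deriv (by exact_mod_cast le_top)
  obtain ⟨M0, hM0⟩ := (isCompact_Icc (a := (0 : ℝ)) (b := R ^ 2)).exists_bound_of_continuousOn
    hdc.continuousOn
  set M := max M0 0 with hMdef
  have hMn : 0 ≤ M := le_max_right _ _
  have hM : ∀ s ∈ Set.Icc (0 : ℝ) (R ^ 2), ‖deriv F s‖ ≤ M := fun s hs =>
    (hM0 s hs).trans (le_max_left _ _)
  refine ⟨2 * C * M + M, by positivity, ?_⟩
  intro n s hs0 hs1
  have hFs : |F s| ≤ M * (R ^ 2 - s) := by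
    have := Convex.norm_image_sub_le_of_norm_deriv_le (f := F) (s := Set.Icc (0 : ℝ) (R ^ 2))
      (x := R ^ 2) (y := s) (fun x _ => hG.smooth.differentiable (by norm_num) x) hM
      (convex_Icc _ _) ⟨hR2.le, le_refl _⟩ ⟨hs0, hs1⟩
    rw [hG.zero, sub_zero, Real.norm_eq_abs, Real.norm_eq_abs, abs_sub_comm,
      abs_of_nonneg (show (0 : ℝ) ≤ R ^ 2 - s by linarith)] at this
    exact this
  unfold approx_k
  refine (abs_add_le _ _).trans (add_le_add ?_ ?_)
  · by_cases hy : ((n : ℝ) + 2) / R ^ 2 * (R ^ 2 - s) - 1 ≤ 1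
    · rw [abs_mul, abs_mul, abs_neg, abs_of_nonneg (show (0 : ℝ) ≤ ((n : ℝ) + 2) / R ^ 2 by
        positivity)]
      have h1 : ((n : ℝ) + 2) / R ^ 2 * |F s| ≤ 2 * M := by
        calc ((n : ℝ) + 2) / R ^ 2 * |F s| ≤ ((n : ℝ) + 2) / R ^ 2 * (M * (R ^ 2 - s)) :=
              mul_le_mul_of_nonneg_left hFs (by positivity)
          _ = M * (((n : ℝ) + 2) / R ^ 2 * (R ^ 2 - s)) := by ring
          _ ≤ M * 2 := mul_le_mul_of_nonneg_left (by linarith) hMn
          _ = 2 * M := by ring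
      calc _ = |deriv Real.smoothTransition (((n : ℝ) + 2) / R ^ 2 * (R ^ 2 - s) - 1)| *
            (((n : ℝ) + 2) / R ^ 2 * |F s|) := by ring
        _ ≤ C * (2 * M) := mul_le_mul (hC _) h1 (by positivity) hC0
        _ = 2 * C * M := by ring
    · rw [approx_T_deriv_zero _ (Or.inr (not_le.1 hy).le)]
      simp only [zero_mul, abs_zero]
      positivity
  · rw [abs_mul, abs_of_nonneg (Real.smoothTransition.nonneg _)]
    calc _ ≤ 1 * M := mul_le_mul (Real.smoothTransition.le_one _) (hM s ⟨hs0, hs1⟩)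
          (abs_nonneg _) zero_le_one
      _ = M := one_mul _

private theorem approx_h_range {N : ℕ} {F : ℝ → ℝ} {R : ℝ} (hG : Ground N F R) (n : ℕ) {s : ℝ}
    (h0 : 0 ≤ s) : 0 ≤ approx_h F R n s ∧ approx_h F R n s ≤ 1 := by
  by_cases h1 : s ≤ R ^ 2
  · obtain ⟨h2, h3⟩ := approx_F_anti hG h0 h1
    unfold approx_h
    exact ⟨mul_nonneg (Real.smoothTransition.nonneg _) h2,
      mul_le_one₀ (Real.smoothTransition.le_one _) h2 h3⟩
  · rw [(approx_zero' (F := F) (n := n) (not_le.1 h1).le).1]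
    norm_num

private theorem approx_W_grad {N : ℕ} {F : ℝ → ℝ} (hF : ContDiff ℝ (⊤ : ℕ∞) F) (x : E N) :
    gradient (W F) x = (2 * deriv F (‖x‖ ^ 2)) • x :=
  (approx_grad F _ x (hF.differentiable (by norm_num) _).hasDerivAt).gradient

private theorem approx_u_grad {N : ℕ} {F : ℝ → ℝ} (hF : ContDiff ℝ (⊤ : ℕ∞) F) (R : ℝ) (n : ℕ) (x : E N) :
    gradient (fun x : E N => approx_h F R n (‖x‖ ^ 2)) x =
      (2 * approx_k F R n (‖x‖ ^ 2)) • x :=
  (approx_grad _ _ x (approx_h_deriv R n _ hF)).gradient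

private theorem approx_u_smooth {N : ℕ} {F : ℝ → ℝ} (hF : ContDiff ℝ (⊤ : ℕ∞) F) (R : ℝ) (n : ℕ) :
    ContDiff ℝ (⊤ : ℕ∞) (fun x : E N => approx_h F R n (‖x‖ ^ 2)) :=
  (approx_h_smooth R n hF).comp (contDiff_norm_sq ℝ)

private theorem approx_B_lim {N : ℕ} {F : ℝ → ℝ} {R : ℝ} (hG : Ground N F R) {φ : E N → ℝ}
    (hφ : ContDiff ℝ (⊤ : ℕ∞) φ) :
    Tendsto (fun n => B (fun x : E N => approx_h F R n (‖x‖ ^ 2)) φ) atTop
      (𝓝 (∫ x in ball (0 : E N) R,
        (inner ℝ (gradient (W F) x) (gradient φ x) - W F x * φ x))) := by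
  obtain ⟨K, hK0, hK⟩ := approx_k_bound hG
  have hRp := hG.Rpos
  have hgc := approx_grad_cont hφ
  obtain ⟨C1, hC1⟩ := (isCompact_closedBall (0 : E N) R).exists_bound_of_continuousOn
    hgc.continuousOn
  obtain ⟨C2, hC2⟩ := (isCompact_closedBall (0 : E N) R).exists_bound_of_continuousOn
    hφ.continuous.continuousOn
  unfold B
  refine approx_lim _ _ (2 * K * R * C1 + C2) ?_ ?_ ?_ ?_
  · intro n
    exact ((approx_grad_cont (approx_u_smooth hG.smooth R n)).inner hgc).sub
      ((approx_u_smooth hG.smooth R n).continuous.mul hφ.continuous)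
  · intro n x hx
    rw [mem_ball_zero_iff, not_lt] at hx
    have hs : R ^ 2 ≤ ‖x‖ ^ 2 := by gcongr
    have e1 := (approx_zero' (F := F) (n := n) hs).1
    have e2 := (approx_zero' (F := F) (n := n) hs).2
    simp [approx_u_grad hG.smooth, e1, e2]
  · intro n x hx
    rw [mem_ball_zero_iff] at hx
    have hs : ‖x‖ ^ 2 ≤ R ^ 2 := by gcongr
    have hxm : x ∈ closedBall (0 : E N) R := by
      rw [mem_closedBall_zero_iff]; exact hx.le
    rw [approx_u_grad hG.smooth]
    refine (abs_sub _ _).trans (add_le_add ?_ ?_)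
    · refine (abs_real_inner_le_norm _ _).trans ?_
      apply mul_le_mul _ (hC1 x hxm) (norm_nonneg _) (by positivity)
      rw [norm_smul, Real.norm_eq_abs, abs_mul, abs_two]
      apply mul_le_mul _ hx.le (norm_nonneg _) (by positivity)
      exact mul_le_mul_of_nonneg_left (hK n _ (by positivity) hs) (by norm_num)
    · rw [abs_mul]
      obtain ⟨h1, h2⟩ := approx_h_range hG n (s := ‖x‖ ^ 2) (by positivity)
      rw [abs_of_nonneg h1]
      calc _ ≤ 1 * C2 := mul_le_mul h2 (hC2 x hxm) (abs_nonneg _) zero_le_one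
        _ = C2 := one_mul _
  · intro x hx
    rw [mem_ball_zero_iff] at hx
    have hs : ‖x‖ ^ 2 < R ^ 2 := by gcongr
    apply tendsto_const_nhds.congr'
    filter_upwards [approx_ev (F := F) hRp hs] with n hn
    rw [approx_u_grad hG.smooth, approx_W_grad hG.smooth, hn.1, hn.2]
    rfl

private theorem approx_B_self {N : ℕ} {F : ℝ → ℝ} {R : ℝ} (hG : Ground N F R) :
    Tendsto (fun n => B (fun x : E N => approx_h F R n (‖x‖ ^ 2))
      (fun x : E N => approx_h F R n (‖x‖ ^ 2))) atTop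
      (𝓝 (∫ x in ball (0 : E N) R,
        (inner ℝ (gradient (W F) x) (gradient (W F) x) - W F x * W F x))) := by
  obtain ⟨K, hK0, hK⟩ := approx_k_bound hG
  have hRp := hG.Rpos
  unfold B
  refine approx_lim _ _ ((2 * K * R) * (2 * K * R) + 1) ?_ ?_ ?_ ?_
  · intro n
    exact ((approx_grad_cont (approx_u_smooth hG.smooth R n)).inner
      (approx_grad_cont (approx_u_smooth hG.smooth R n))).sub
      ((approx_u_smooth hG.smooth R n).continuous.mul (approx_u_smooth hG.smooth R n).continuous)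
  · intro n x hx
    rw [mem_ball_zero_iff, not_lt] at hx
    have hs : R ^ 2 ≤ ‖x‖ ^ 2 := by gcongr
    have e1 := (approx_zero' (F := F) (n := n) hs).1
    have e2 := (approx_zero' (F := F) (n := n) hs).2
    simp [approx_u_grad hG.smooth, e1, e2]
  · intro n x hx
    rw [mem_ball_zero_iff] at hx
    have hs : ‖x‖ ^ 2 ≤ R ^ 2 := by gcongr
    rw [approx_u_grad hG.smooth]
    have hn : ‖(2 * approx_k F R n (‖x‖ ^ 2)) • x‖ ≤ 2 * K * R := by
      rw [norm_smul, Real.norm_eq_abs, abs_mul, abs_two]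
      apply mul_le_mul _ hx.le (norm_nonneg _) (by positivity)
      exact mul_le_mul_of_nonneg_left (hK n _ (by positivity) hs) (by norm_num)
    refine (abs_sub _ _).trans (add_le_add ?_ ?_)
    · refine (abs_real_inner_le_norm _ _).trans ?_
      exact mul_le_mul hn hn (norm_nonneg _) (by positivity)
    · rw [abs_mul]
      obtain ⟨h1, h2⟩ := approx_h_range hG n (s := ‖x‖ ^ 2) (by positivity)
      rw [abs_of_nonneg h1]
      exact mul_le_one₀ h2 h1 h2
  · intro x hx
    rw [mem_ball_zero_iff] at hx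
    have hs : ‖x‖ ^ 2 < R ^ 2 := by gcongr
    apply tendsto_const_nhds.congr'
    filter_upwards [approx_ev (F := F) hRp hs] with n hn
    rw [approx_u_grad hG.smooth, approx_W_grad hG.smooth, hn.1, hn.2]
    rfl

private theorem approx_B_W {N : ℕ} {F : ℝ → ℝ} (hF : ContDiff ℝ (⊤ : ℕ∞) F)
    (hode : ∀ s : ℝ, 4 * s * deriv (deriv F) s + 2 * N * deriv F s + F s = 0)
    {u : E N → ℝ} (hu : ContDiff ℝ (⊤ : ℕ∞) u) (hc : HasCompactSupport u) :
    B u (W F) = 0 := by
  have hF1 : ContDiff ℝ (⊤ : ℕ∞) (deriv F) := by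
    have : ContDiff ℝ ((⊤ : ℕ∞) + 1) F := hF
    exact (contDiff_succ_iff_deriv.1 this).2.2
  set g : Fin N → E N → ℝ := fun i x => 2 * deriv F (‖x‖ ^ 2) * x i with hg
  have hgs : ∀ i, ContDiff ℝ (⊤ : ℕ∞) (g i) := by
    intro i
    have h1 : ContDiff ℝ (⊤ : ℕ∞) (fun x : E N => deriv F (‖x‖ ^ 2)) :=
      hF1.comp (contDiff_norm_sq ℝ)
    have h2 : ContDiff ℝ (⊤ : ℕ∞) (fun x : E N => x i) :=
      (EuclideanSpace.proj i : E N →L[ℝ] ℝ).contDiff
    exact (contDiff_const.mul h1).mul h2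
  have hgd : ∀ i (x : E N), fderiv ℝ (g i) x (EuclideanSpace.single i 1) =
      4 * deriv (deriv F) (‖x‖ ^ 2) * (x i) ^ 2 + 2 * deriv F (‖x‖ ^ 2) := by
    intro i x
    have h1 := ((hF1.differentiable (by norm_num) (‖x‖ ^ 2)).hasDerivAt).comp_hasFDerivAt x
      (hasStrictFDerivAt_norm_sq x).hasFDerivAt
    have h2 := (EuclideanSpace.proj i : E N →L[ℝ] ℝ).hasFDerivAt (x := x)
    have h3 := (h1.const_mul 2).mul h2
    have h4 : fderiv ℝ (g i) x = _ := h3.fderiv
    rw [h4]
    simp [EuclideanSpace.inner_single_right]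
    ring
  have hsum : ∀ x : E N, ∑ i, fderiv ℝ (g i) x (EuclideanSpace.single i 1) = -F (‖x‖ ^ 2) := by
    intro x
    simp_rw [hgd]
    rw [Finset.sum_add_distrib, ← Finset.mul_sum, ← EuclideanSpace.real_norm_sq_eq,
      Finset.sum_const, Finset.card_univ, Fintype.card_fin, nsmul_eq_mul]
    linarith [hode (‖x‖ ^ 2)]
  have hinner : ∀ x : E N, inner ℝ (gradient u x) (gradient (W F) x) =
      ∑ i, fderiv ℝ u x (EuclideanSpace.single i 1) * g i x := by
    intro x
    rw [approx_W_grad hF, PiLp.inner_apply]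
    refine Finset.sum_congr rfl fun i _ => ?_
    have h1 : (gradient u x) i = fderiv ℝ u x (EuclideanSpace.single i 1) := by
      have h2 : inner ℝ (gradient u x) (EuclideanSpace.single i (1 : ℝ)) =
          fderiv ℝ u x (EuclideanSpace.single i 1) := by
        unfold gradient
        rw [InnerProductSpace.toDual_symm_apply]
      rw [← h2, EuclideanSpace.inner_single_right]
      simp
    simp only [RCLike.inner_apply, conj_trivial, PiLp.smul_apply, smul_eq_mul, h1, hg]
    ring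
  have hfc : ∀ v : E N, Continuous (fun x => fderiv ℝ u x v) := fun v =>
    (hu.continuous_fderiv (by norm_num)).clm_apply continuous_const
  have hgc : ∀ i (v : E N), Continuous (fun x => fderiv ℝ (g i) x v) := fun i v =>
    ((hgs i).continuous_fderiv (by norm_num)).clm_apply continuous_const
  have hfs : ∀ v : E N, HasCompactSupport (fun x => fderiv ℝ u x v) := fun v =>
    hc.fderiv_apply ℝ v
  have hint1 : ∀ i, Integrable (fun x => fderiv ℝ u x (EuclideanSpace.single i 1) * g i x) :=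
    fun i => ((hfc _).mul (hgs i).continuous).integrable_of_hasCompactSupport
      ((hfs _).mul_right)
  have hint2 : ∀ i, Integrable (fun x => u x * fderiv ℝ (g i) x (EuclideanSpace.single i 1)) :=
    fun i => (hu.continuous.mul (hgc i _)).integrable_of_hasCompactSupport hc.mul_right
  have hint3 : ∀ i, Integrable (fun x => u x * g i x) :=
    fun i => (hu.continuous.mul (hgs i).continuous).integrable_of_hasCompactSupport hc.mul_right
  have hparts : ∀ i, ∫ x, fderiv ℝ u x (EuclideanSpace.single i 1) * g i x =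
      -∫ x, u x * fderiv ℝ (g i) x (EuclideanSpace.single i 1) := by
    intro i
    rw [integral_mul_fderiv_eq_neg_fderiv_mul_of_integrable (hint1 i) (hint2 i) (hint3 i)
      (fun x _ => hu.differentiable (by norm_num) x)
      (fun x _ => (hgs i).differentiable (by norm_num) x), neg_neg]
  have hWc : Continuous (W F : E N → ℝ) := hF.continuous.comp (by fun_prop)
  have hintW : Integrable (fun x => u x * W F x) :=
    (hu.continuous.mul hWc).integrable_of_hasCompactSupport hc.mul_right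
  unfold B
  simp_rw [hinner]
  rw [integral_sub (integrable_finset_sum _ fun i _ => hint1 i) hintW,
    integral_finset_sum _ fun i _ => hint1 i, Finset.sum_congr rfl fun i _ => hparts i,
    Finset.sum_neg_distrib, ← integral_finset_sum _ fun i _ => hint2 i]
  simp_rw [← Finset.mul_sum, hsum]
  simp only [mul_neg, integral_neg, neg_neg]
  exact sub_self _

theorem approx (N : ℕ) (hN : 2 ≤ N) (F : ℝ → ℝ) (R : ℝ) (hG : Ground N F R) :
    ∃ u : ℕ → E N → ℝ,
      (∀ n, IsTest (ball (0 : E N) R) (u n)) ∧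
      (∀ n x y, ‖x‖ = ‖y‖ → u n x = u n y) ∧
      (∀ n x, 0 ≤ u n x ∧ u n x ≤ 1) ∧
      (∀ n, u n 0 = 1) ∧
      Tendsto (fun n => B (u n) (u n)) atTop (𝓝 0) ∧
      ∀ φ : E N → ℝ, ContDiff ℝ (⊤ : ℕ∞) φ → HasCompactSupport φ →
        Tendsto (fun n => B (u n) φ) atTop
          (𝓝 (∫ x in ball (0 : E N) R,
            (inner ℝ (gradient (W F) x) (gradient φ x) - W F x * φ x))) := by
  have hRp := hG.Rpos
  have hR2 : 0 < R ^ 2 := by positivity
  have hcs : ∀ n, HasCompactSupport (fun x : E N => approx_h F R n (‖x‖ ^ 2)) := by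
    intro n
    apply HasCompactSupport.intro (isCompact_closedBall (0 : E N) R)
    intro x hx
    rw [mem_closedBall_zero_iff, not_le] at hx
    have hs : R ^ 2 ≤ ‖x‖ ^ 2 := by gcongr
    exact (approx_zero' (F := F) (n := n) hs).1
  refine ⟨fun n x => approx_h F R n (‖x‖ ^ 2), ?_, ?_, ?_, ?_, ?_, ?_⟩
  · intro n
    refine ⟨approx_u_smooth hG.smooth R n, hcs n, ?_⟩
    have h1 : tsupport (fun x : E N => approx_h F R n (‖x‖ ^ 2)) ⊆
        {x : E N | 1 ≤ ((n : ℝ) + 2) / R ^ 2 * (R ^ 2 - ‖x‖ ^ 2)} := by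
      apply closure_minimal
      · intro x hx
        by_contra hx'
        apply hx
        rw [Set.mem_setOf_eq, not_le] at hx'
        exact (approx_zero (by linarith)).1
      · exact isClosed_le continuous_const (by fun_prop)
    refine h1.trans ?_
    intro x hx
    rw [mem_ball_zero_iff]
    by_contra hx'
    rw [not_lt] at hx'
    have hs : R ^ 2 ≤ ‖x‖ ^ 2 := by gcongr
    rw [Set.mem_setOf_eq] at hx
    have : ((n : ℝ) + 2) / R ^ 2 * (R ^ 2 - ‖x‖ ^ 2) ≤ 0 :=
      mul_nonpos_of_nonneg_of_nonpos (by positivity) (by linarith)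
    linarith
  · intro n x y hxy
    simp only [hxy]
  · intro n x
    exact approx_h_range hG n (by positivity)
  · intro n
    simp only
    unfold approx_h
    rw [norm_zero, zero_pow (by norm_num), sub_zero, hG.one, mul_one,
      div_mul_cancel₀ _ hR2.ne']
    apply Real.smoothTransition.one_of_one_le
    have : (0 : ℝ) ≤ n := Nat.cast_nonneg n
    linarith
  · have h1 := approx_B_self hG
    have h2 := approx_B_lim hG (φ := W F) (hG.smooth.comp (contDiff_norm_sq ℝ))
    have h3 : (fun n => B (fun x : E N => approx_h F R n (‖x‖ ^ 2)) (W F)) = fun _ => 0 := by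
      funext n
      exact approx_B_W hG.smooth hG.ode (approx_u_smooth hG.smooth R n) (hcs n)
    rw [h3] at h2
    have h4 := tendsto_nhds_unique h2 tendsto_const_nhds
    rw [h4] at h1
    exact h1
  · intro φ hφ _
    exact approx_B_lim hG hφ

end Pool.Agent.Helper949.TB

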