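import Mathlib
import Pool.Agent.Helper949.TB.Defs

set_option autoImplicit false

open MeasureTheory Filter Topology Metric

namespace Pool.Agent.Helper949.TB

end Pool.Agent.Helper949.TB

namespace Pool.Agent.Helper949.TB

private theorem phi_contDiff' {N : ℕ} : ContDiff ℝ (⊤ : ℕ∞) (phi : E N → ℝ) := by
  have h1 : ContDiff ℝ (⊤ : ℕ∞) (fun x : E N => 1 - 4 * ‖x‖ ^ 2) :=
    contDiff_const.sub (contDiff_const.mul (contDiff_norm_sq ℝ))
  exact Real.smoothTransition.contDiff.comp h1

private theorem W_contDiff' {N : ℕ} {F : ℝ → ℝ} (hF : ContDiff ℝ (⊤ : ℕ∞) F) :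
    ContDiff ℝ (⊤ : ℕ∞) (W F : E N → ℝ) :=
  hF.comp (contDiff_norm_sq ℝ)

private theorem grad_cont' {N : ℕ} {f : E N → ℝ} (hf : ContDiff ℝ (⊤ : ℕ∞) f) :
    Continuous (gradient f) := by
  unfold gradient
  exact (LinearIsometryEquiv.continuous _).comp (hf.continuous_fderiv (by simp))

private theorem inner_grad' {N : ℕ} (f : E N → ℝ) (x v : E N) :
    inner ℝ (gradient f x) v = fderiv ℝ f x v := by
  unfold gradient
  exact InnerProductSpace.toDual_symm_apply

private theorem fderiv_radial' {N : ℕ} {g : ℝ → ℝ} (hg : Differentiable ℝ g) (c d : ℝ) (x v : E N) :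
    fderiv ℝ (fun x : E N => g (c + d * ‖x‖ ^ 2)) x v =
      deriv g (c + d * ‖x‖ ^ 2) * (2 * d * inner ℝ x v) := by
  have h1 : HasFDerivAt (fun x : E N => ‖x‖ ^ 2) (2 • (innerSL ℝ x)) x :=
    (hasStrictFDerivAt_norm_sq x).hasFDerivAt
  have h2 : HasFDerivAt (fun x : E N => c + d * ‖x‖ ^ 2) (d • (2 • (innerSL ℝ x))) x :=
    (h1.const_mul d).const_add c
  have h3 := (hg (c + d * ‖x‖ ^ 2)).hasDerivAt.comp_hasFDerivAt x h2
  have h4 : HasFDerivAt (fun x : E N => g (c + d * ‖x‖ ^ 2))
      (deriv g (c + d * ‖x‖ ^ 2) • (d • (2 • (innerSL ℝ x)))) x := h3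
  rw [h4.fderiv]
  simp only [_root_.smul_apply, innerSL_apply_apply, smul_eq_mul, nsmul_eq_mul]
  push_cast
  ring

theorem b_asymp (N : ℕ) (hN : 2 ≤ N) (F : ℝ → ℝ) (R : ℝ) (hG : Ground N F R) (ω : E N) (hω : ‖ω‖ = 1) :
    ∃ β : ℝ, 0 < β ∧ ∀ᶠ ε in 𝓝[>] (0 : ℝ),
      ∫ x in ball (0 : E N) R,
        (inner ℝ (gradient (W F) x) (gradient (phie ε (R • ω)) x) - W F x * phie ε (R • ω) x)
        ≤ -β * ε ^ (N - 1) := by
  have hR := hG.Rpos
  set p : E N := R • ω with hp
  have hpn : ‖p‖ = R := by rw [hp, norm_smul, hω, Real.norm_eq_abs, abs_of_pos hR, mul_one]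
  have hphiC : ContDiff ℝ (⊤ : ℕ∞) (phi : E N → ℝ) := phi_contDiff'
  have hWC : ContDiff ℝ (⊤ : ℕ∞) (W F : E N → ℝ) := W_contDiff' hG.smooth
  have hgphi : Continuous (gradient (phi : E N → ℝ)) := grad_cont' hphiC
  have hgW : Continuous (gradient (W F : E N → ℝ)) := grad_cont' hWC
  -- vanishing outside the unit ball
  have hphi0 : ∀ y : E N, y ∉ closedBall (0 : E N) 1 → phi y = 0 := by
    intro y hy
    have h1 : 1 < ‖y‖ := by simpa using hy
    apply Real.smoothTransition.zero_of_nonpos
    nlinarith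
  have hgphi0 : ∀ y : E N, y ∉ closedBall (0 : E N) 1 → gradient (phi : E N → ℝ) y = 0 := by
    intro y hy
    have h1 : (phi : E N → ℝ) =ᶠ[𝓝 y] fun _ => 0 := by
      filter_upwards [isClosed_closedBall.isOpen_compl.mem_nhds hy] with z hz
      exact hphi0 z hz
    unfold gradient
    rw [h1.fderiv_eq]
    simp
  -- bounds
  obtain ⟨C1, hC1⟩ := (isCompact_closedBall p 1).exists_bound_of_continuousOn hgW.continuousOn
  obtain ⟨C2, hC2⟩ := (isCompact_closedBall p 1).exists_bound_of_continuousOn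
    hWC.continuous.continuousOn
  obtain ⟨D1, hD1⟩ := (isCompact_closedBall (0 : E N) 1).exists_bound_of_continuousOn
    hgphi.continuousOn
  have hphi1 : ∀ y : E N, |phi y| ≤ 1 := by
    intro y
    rw [abs_le]
    exact ⟨by linarith [Real.smoothTransition.nonneg (1 - 4 * ‖y‖ ^ 2), show phi y = Real.smoothTransition (1 - 4 * ‖y‖ ^ 2) from rfl],
      Real.smoothTransition.le_one _⟩
  have hC1n : 0 ≤ C1 := (norm_nonneg _).trans (hC1 p (mem_closedBall_self zero_le_one))
  have hC2n : 0 ≤ C2 := (norm_nonneg _).trans (hC2 p (mem_closedBall_self zero_le_one))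
  have hD1n : 0 ≤ D1 := (norm_nonneg _).trans (hD1 0 (mem_closedBall_self zero_le_one))
  -- the rescaled integrand
  let Kc : ℝ → E N → ℝ := fun ε y =>
    inner ℝ (gradient (W F) (p + ε • y)) (gradient phi y) - ε * (W F (p + ε • y) * phi y)
  let K : ℝ → E N → ℝ := fun ε => Set.indicator {y | p + ε • y ∈ ball (0 : E N) R} (Kc ε)
  let J : E N → ℝ := Set.indicator {y | inner ℝ ω y < 0}
    (fun y => inner ℝ (gradient (W F) p) (gradient phi y))
  let bd : E N → ℝ := Set.indicator (closedBall (0 : E N) 1) (fun _ => C1 * D1 + C2)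
  have hJmem : ∀ y : E N, inner ℝ ω y < 0 →
      J y = inner ℝ (gradient (W F) p) (gradient (phi : E N → ℝ) y) := fun y hy =>
    Set.indicator_of_mem (s := {y : E N | inner ℝ ω y < 0}) hy _
  have hJnot : ∀ y : E N, ¬ inner ℝ ω y < 0 → J y = 0 := fun y hy =>
    Set.indicator_of_notMem (s := {y : E N | inner ℝ ω y < 0}) hy _
  have hKmem : ∀ (ε : ℝ) (y : E N), p + ε • y ∈ ball (0 : E N) R → K ε y = Kc ε y :=
    fun ε y hy => Set.indicator_of_mem (s := {y : E N | p + ε • y ∈ ball (0 : E N) R}) hy _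
  have hKnot : ∀ (ε : ℝ) (y : E N), ¬ p + ε • y ∈ ball (0 : E N) R → K ε y = 0 :=
    fun ε y hy => Set.indicator_of_notMem (s := {y : E N | p + ε • y ∈ ball (0 : E N) R}) hy _
  have hbd : Integrable bd := by
    rw [integrable_indicator_iff measurableSet_closedBall]
    exact integrableOn_const (hs := (measure_closedBall_lt_top).ne)
  have hKc0 : ∀ ε, ∀ y, y ∉ closedBall (0 : E N) 1 → Kc ε y = 0 := by
    intro ε y hy
    simp only [Kc, hphi0 y hy, hgphi0 y hy, inner_zero_right, mul_zero, sub_zero]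
  have hKcb : ∀ ε, 0 < ε → ε ≤ 1 → ∀ y, ‖Kc ε y‖ ≤ bd y := by
    intro ε h0 h1 y
    by_cases hy : y ∈ closedBall (0 : E N) 1
    · have hy1 : ‖y‖ ≤ 1 := by simpa using hy
      have hmem : p + ε • y ∈ closedBall p 1 := by
        rw [mem_closedBall, dist_eq_norm, add_sub_cancel_left, norm_smul, Real.norm_eq_abs,
          abs_of_pos h0]
        nlinarith [norm_nonneg y]
      have e1 : ‖(inner ℝ (gradient (W F) (p + ε • y)) (gradient phi y) : ℝ)‖ ≤ C1 * D1 :=
        (norm_inner_le_norm _ _).trans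
          (mul_le_mul (hC1 _ hmem) (hD1 _ hy) (norm_nonneg _) hC1n)
      have e2 : ‖ε * (W F (p + ε • y) * phi y)‖ ≤ C2 := by
        rw [norm_mul, norm_mul, Real.norm_eq_abs ε, abs_of_pos h0]
        have h3 := hC2 _ hmem
        have h4 : ‖phi y‖ ≤ 1 := hphi1 y
        have h5 : ‖W F (p + ε • y)‖ * ‖phi y‖ ≤ C2 * 1 :=
          mul_le_mul h3 h4 (norm_nonneg _) hC2n
        have h6 : 0 ≤ ‖W F (p + ε • y)‖ * ‖phi y‖ := by positivity
        nlinarith
      have : bd y = C1 * D1 + C2 := Set.indicator_of_mem hy _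
      rw [this]
      exact (norm_sub_le _ _).trans (add_le_add e1 e2)
    · rw [hKc0 ε y hy]
      simp only [norm_zero]
      exact Set.indicator_nonneg (fun _ _ => by positivity) y
  have hKb : ∀ ε, 0 < ε → ε ≤ 1 → ∀ y, ‖K ε y‖ ≤ bd y := fun ε h0 h1 y =>
    (norm_indicator_le_norm_self _ _).trans (hKcb ε h0 h1 y)
  have hKcc : ∀ ε, Continuous (Kc ε) := by
    intro ε
    have h1 : Continuous fun y : E N => p + ε • y := by fun_prop
    exact ((hgW.comp h1).inner hgphi).sub
      (continuous_const.mul ((hWC.continuous.comp h1).mul hphiC.continuous))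
  have hKm : ∀ ε, AEStronglyMeasurable (K ε) volume := by
    intro ε
    have h1 : Continuous fun y : E N => p + ε • y := by fun_prop
    exact (hKcc ε).aestronglyMeasurable.indicator (measurableSet_ball.preimage h1.measurable)
  have hker : ∀ᵐ y : E N, inner ℝ ω y ≠ 0 := by
    have h1 : (volume : Measure (E N))
        (LinearMap.ker ((innerSL ℝ ω : E N →L[ℝ] ℝ) : E N →ₗ[ℝ] ℝ) : Set (E N)) = 0 := by
      apply Measure.addHaar_submodule
      intro h
      have h2 : ω ∈ LinearMap.ker ((innerSL ℝ ω : E N →L[ℝ] ℝ) : E N →ₗ[ℝ] ℝ) := by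
        rw [h]; trivial
      have h3 : inner ℝ ω ω = 0 := h2
      rw [real_inner_self_eq_norm_sq, hω] at h3
      norm_num at h3
    rw [ae_iff]
    convert h1 using 2
    ext y
    simp
  have hlim : ∀ᵐ y : E N, Tendsto (fun ε => K ε y) (𝓝[>] 0) (𝓝 (J y)) := by
    filter_upwards [hker] with y hy
    have hnorm : ∀ ε : ℝ, ‖p + ε • y‖ ^ 2 = R ^ 2 + ε * (2 * R * inner ℝ ω y + ε * ‖y‖ ^ 2) := by
      intro ε
      rw [norm_add_sq_real, hpn, inner_smul_right, hp, inner_smul_left, norm_smul]
      simp only [conj_trivial, Real.norm_eq_abs, mul_pow, sq_abs]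
      ring
    rcases lt_or_gt_of_ne hy with hneg | hpos
    · have hJ : J y = Kc 0 y := by
        rw [hJmem y hneg]
        simp [Kc]
      have hc : Tendsto (fun ε => Kc ε y) (𝓝[>] 0) (𝓝 (Kc 0 y)) := by
        have h1 : Continuous fun ε : ℝ => p + ε • y := by fun_prop
        have h2 : Continuous fun ε : ℝ => Kc ε y :=
          ((hgW.comp h1).inner continuous_const).sub
            (continuous_id.mul ((hWC.continuous.comp h1).mul continuous_const))
        exact (h2.tendsto 0).mono_left nhdsWithin_le_nhds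
      rw [hJ]
      refine hc.congr' ?_
      have h3 : ∀ᶠ ε : ℝ in 𝓝[>] 0, 2 * R * inner ℝ ω y + ε * ‖y‖ ^ 2 < 0 := by
        have h4 : Tendsto (fun ε : ℝ => 2 * R * inner ℝ ω y + ε * ‖y‖ ^ 2) (𝓝[>] 0)
            (𝓝 (2 * R * inner ℝ ω y + 0 * ‖y‖ ^ 2)) := by
          have : Continuous fun ε : ℝ => 2 * R * inner ℝ ω y + ε * ‖y‖ ^ 2 := by fun_prop
          exact (this.tendsto 0).mono_left nhdsWithin_le_nhds
        apply h4.eventually_lt_const
        nlinarith
      filter_upwards [h3, self_mem_nhdsWithin] with ε h4 h5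
      have h5' : 0 < ε := h5
      refine (Set.indicator_of_mem ?_ _).symm
      show p + ε • y ∈ ball (0 : E N) R
      rw [mem_ball_zero_iff]
      have h6 : ‖p + ε • y‖ ^ 2 < R ^ 2 := by rw [hnorm]; nlinarith
      exact lt_of_pow_lt_pow_left₀ 2 hR.le h6
    · have hJ : J y = 0 := hJnot y (not_lt.mpr hpos.le)
      rw [hJ]
      refine tendsto_const_nhds.congr' ?_
      filter_upwards [self_mem_nhdsWithin] with ε h5
      have h5' : 0 < ε := h5
      refine (Set.indicator_of_notMem ?_ _).symm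
      show ¬ p + ε • y ∈ ball (0 : E N) R
      rw [mem_ball_zero_iff, not_lt]
      have h6 : R ^ 2 ≤ ‖p + ε • y‖ ^ 2 := by
        rw [hnorm]
        have : 0 ≤ ε * (2 * R * inner ℝ ω y + ε * ‖y‖ ^ 2) := by positivity
        linarith
      exact le_of_sq_le_sq h6 (norm_nonneg _)
  have hconv : Tendsto (fun ε => ∫ y, K ε y) (𝓝[>] 0) (𝓝 (∫ y, J y)) := by
    refine tendsto_integral_filter_of_dominated_convergence bd ?_ ?_ hbd hlim
    · exact Eventually.of_forall hKm
    · filter_upwards [Ioc_mem_nhdsGT (zero_lt_one' ℝ)] with ε hε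
      exact Eventually.of_forall (hKb ε hε.1 hε.2)
  -- the limit integral is negative
  have hF' : deriv F (R ^ 2) < 0 := hG.neg _ (sq_nonneg _) le_rfl
  have hJval : ∀ y : E N, inner ℝ (gradient (W F) p) (gradient (phi : E N → ℝ) y) =
      2 * R * deriv F (R ^ 2) * (deriv Real.smoothTransition (1 - 4 * ‖y‖ ^ 2) * (-8 * inner ℝ y ω)) := by
    intro y
    have hFd : Differentiable ℝ F := hG.smooth.differentiable (by simp)
    have hsd : Differentiable ℝ Real.smoothTransition :=
      (Real.smoothTransition.contDiff (n := ⊤)).differentiable (by simp)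
    have e1 := fderiv_radial' (N := N) hFd 0 1 p (gradient phi y)
    have e1' : (fun x : E N => F (0 + 1 * ‖x‖ ^ 2)) = W F := by
      funext x; simp [W]
    rw [e1'] at e1
    have e2 := fderiv_radial' (N := N) hsd 1 (-4) y ω
    have e2' : (fun x : E N => Real.smoothTransition (1 + -4 * ‖x‖ ^ 2)) = phi := by
      funext x; simp [phi, sub_eq_add_neg]
    rw [e2'] at e2
    rw [inner_grad', e1, hpn, hp, inner_smul_left, real_inner_comm, inner_grad', e2]
    simp only [conj_trivial]
    have e3 : (1 : ℝ) + -4 * ‖y‖ ^ 2 = 1 - 4 * ‖y‖ ^ 2 := by ring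
    have e4 : (0 : ℝ) + 1 * R ^ 2 = R ^ 2 := by ring
    rw [e3, e4]
    ring
  have hs' : ∀ t, 0 ≤ deriv Real.smoothTransition t := fun t =>
    Real.smoothTransition.monotone.deriv_nonneg
  have hJint : Integrable J := by
    refine hbd.mono' ?_ ?_
    · refine ((continuous_const.inner hgphi).aestronglyMeasurable).indicator ?_
      exact (isOpen_lt (continuous_const.inner continuous_id) continuous_const).measurableSet
    · refine Eventually.of_forall fun y => ?_
      refine (norm_indicator_le_norm_self _ _).trans ?_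
      by_cases hy : y ∈ closedBall (0 : E N) 1
      · have : bd y = C1 * D1 + C2 := Set.indicator_of_mem hy _
        rw [this]
        have e1 : ‖(inner ℝ (gradient (W F) p) (gradient phi y) : ℝ)‖ ≤ C1 * D1 :=
          (norm_inner_le_norm _ _).trans
            (mul_le_mul (hC1 _ (mem_closedBall_self zero_le_one)) (hD1 _ hy) (norm_nonneg _) hC1n)
        linarith
      · rw [hgphi0 y hy, inner_zero_right, norm_zero]
        exact Set.indicator_nonneg (fun _ _ => by positivity) y
  have hJneg : ∫ y, J y < 0 := by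
    have hnn : 0 ≤ fun y => - J y := by
      intro y
      show 0 ≤ - J y
      by_cases hy : inner ℝ ω y < 0
      · rw [hJmem y hy, hJval]
        rw [real_inner_comm] at hy
        have h1 : 0 ≤ deriv Real.smoothTransition (1 - 4 * ‖y‖ ^ 2) * (-8 * inner ℝ y ω) :=
          mul_nonneg (hs' _) (by linarith)
        have h2 : 2 * R * deriv F (R ^ 2) ≤ 0 := by nlinarith
        nlinarith
      · rw [hJnot y hy]
        simp
    have h1 := (integral_pos_iff_support_of_nonneg hnn hJint.neg).mpr ?_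
    · rw [integral_neg] at h1
      linarith
    · -- the support contains a nonempty open set
      obtain ⟨c, hc, hc'⟩ := exists_deriv_eq_slope Real.smoothTransition (zero_lt_one' ℝ)
        Real.smoothTransition.continuous.continuousOn
        ((Real.smoothTransition.contDiff (n := ⊤)).differentiable (by simp)).differentiableOn
      rw [Real.smoothTransition.one, Real.smoothTransition.zero] at hc'
      have hcont : Continuous (deriv Real.smoothTransition) :=
        (Real.smoothTransition.contDiff (n := ⊤)).continuous_deriv (by simp)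
      let U : Set (E N) := {y | inner ℝ ω y < 0} ∩
        {y | 0 < deriv Real.smoothTransition (1 - 4 * ‖y‖ ^ 2)}
      have hU : IsOpen U := by
        apply IsOpen.inter
        · exact isOpen_lt (continuous_const.inner continuous_id) continuous_const
        · exact isOpen_lt continuous_const (hcont.comp (by fun_prop))
      have hUne : U.Nonempty := by
        refine ⟨(-Real.sqrt ((1 - c) / 4)) • ω, ?_, ?_⟩
        · show inner ℝ ω ((-Real.sqrt ((1 - c) / 4)) • ω) < 0
          rw [inner_smul_right, real_inner_self_eq_norm_sq, hω]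
          have : 0 < Real.sqrt ((1 - c) / 4) := Real.sqrt_pos.mpr (by linarith [hc.2])
          linarith
        · show 0 < deriv Real.smoothTransition (1 - 4 * ‖(-Real.sqrt ((1 - c) / 4)) • ω‖ ^ 2)
          rw [norm_smul, hω, mul_one, norm_neg, Real.norm_eq_abs, sq_abs,
            Real.sq_sqrt (by linarith [hc.2])]
          have : (1 : ℝ) - 4 * ((1 - c) / 4) = c := by ring
          rw [this, hc']
          norm_num
      refine lt_of_lt_of_le (hU.measure_pos volume hUne) (measure_mono ?_)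
      intro y hy
      have hy1 : inner ℝ ω y < 0 := hy.1
      have hy2 : 0 < deriv Real.smoothTransition (1 - 4 * ‖y‖ ^ 2) := hy.2
      rw [Function.mem_support]
      rw [hJmem y hy1, hJval]
      rw [real_inner_comm] at hy1
      have h1 : 0 < deriv Real.smoothTransition (1 - 4 * ‖y‖ ^ 2) * (-8 * inner ℝ y ω) :=
        mul_pos hy2 (by linarith)
      have h2 : 2 * R * deriv F (R ^ 2) < 0 := by nlinarith
      have h3 := mul_neg_of_neg_of_pos h2 h1
      exact neg_ne_zero.mpr h3.ne
  -- conclusion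
  refine ⟨-(∫ y, J y) / 2, by linarith, ?_⟩
  have hev : ∀ᶠ ε in 𝓝[>] (0 : ℝ), ∫ y, K ε y < (∫ y, J y) / 2 :=
    hconv.eventually_lt_const (by linarith)
  filter_upwards [hev, self_mem_nhdsWithin] with ε hε hε0
  have hε0' : 0 < ε := hε0
  have hgr : ∀ y : E N, gradient (phie ε p) (p + ε • y) = ε⁻¹ • gradient phi y := by
    intro y
    have h1 : HasFDerivAt (fun x : E N => ε⁻¹ • (x - p)) (ε⁻¹ • ContinuousLinearMap.id ℝ (E N))
        (p + ε • y) := ((hasFDerivAt_id (𝕜 := ℝ) (p + ε • y)).sub_const p).const_smul ε⁻¹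
    have h2 : ε⁻¹ • ((p + ε • y) - p) = y := by
      rw [add_sub_cancel_left, smul_smul, inv_mul_cancel₀ hε0'.ne', one_smul]
    have h3 : HasFDerivAt (phi : E N → ℝ) (fderiv ℝ phi y) (ε⁻¹ • ((p + ε • y) - p)) := by
      rw [h2]
      exact (hphiC.differentiable (by simp) y).hasFDerivAt
    have h4 := h3.comp (p + ε • y) h1
    have h5 : HasFDerivAt (phie ε p) ((fderiv ℝ phi y).comp
        (ε⁻¹ • ContinuousLinearMap.id ℝ (E N))) (p + ε • y) := h4
    unfold gradient
    rw [h5.fderiv]
    have h6 : (fderiv ℝ phi y).comp (ε⁻¹ • ContinuousLinearMap.id ℝ (E N)) =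
        ε⁻¹ • fderiv ℝ phi y := by
      ext v
      simp
    rw [h6, map_smulₛₗ]
    simp
  have hph : ∀ y : E N, phie ε p (p + ε • y) = phi y := by
    intro y
    unfold phie
    rw [add_sub_cancel_left, smul_smul, inv_mul_cancel₀ hε0'.ne', one_smul]
  have hint : ∫ x in ball (0 : E N) R,
      (inner ℝ (gradient (W F) x) (gradient (phie ε p) x) - W F x * phie ε p x) =
      ε ^ (N - 1) * ∫ y, K ε y := by
    set H : E N → ℝ := Set.indicator (ball (0 : E N) R) (fun x =>
      inner ℝ (gradient (W F) x) (gradient (phie ε p) x) - W F x * phie ε p x) with hH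
    rw [← integral_indicator measurableSet_ball, ← hH, ← integral_add_left_eq_self H p]
    have h1 := Measure.integral_comp_smul_of_nonneg (volume : Measure (E N))
      (fun z => H (p + z)) ε (hR := hε0'.le)
    have h2 : ∀ y, H (p + ε • y) = ε⁻¹ * K ε y := by
      intro y
      by_cases hy : p + ε • y ∈ ball (0 : E N) R
      · have e1 : H (p + ε • y) = _ := Set.indicator_of_mem hy _
        have e2 : K ε y = Kc ε y := hKmem ε y hy
        rw [e1, e2, hgr, hph]
        simp only [Kc, inner_smul_right]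
        field_simp
      · have e1 : H (p + ε • y) = 0 := Set.indicator_of_notMem hy _
        have e2 : K ε y = 0 := hKnot ε y hy
        rw [e1, e2, mul_zero]
    simp only [h2] at h1
    rw [integral_const_mul, finrank_euclideanSpace_fin, smul_eq_mul] at h1
    obtain ⟨M, rfl⟩ : ∃ M, N = M + 1 := ⟨N - 1, by omega⟩
    rw [Nat.add_sub_cancel]
    have h3 : ε ^ (M + 1) ≠ 0 := pow_ne_zero _ hε0'.ne'
    rw [pow_succ] at h1 h3
    field_simp at h1
    linarith
  rw [hint]
  have h7 : 0 < ε ^ (N - 1) := pow_pos hε0' _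
  nlinarith
end Pool.Agent.Helper949.TB

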