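import Mathlib
import Pool.Agent.Helper949.TB.Defs

set_option autoImplicit false

open MeasureTheory Filter Topology Metric

namespace Pool.Agent.Helper949.TB

end Pool.Agent.Helper949.TB

namespace Pool.Agent.Helper949.TB

private theorem grad_sub {N : ℕ} (u : E N → ℝ) (q x : E N) :
    gradient (fun x => u (x - q)) x = gradient u (x - q) := by
  unfold gradient
  rw [fderiv_comp_sub]

theorem B_translate (N : ℕ) (u v : E N → ℝ) (q : E N) :
    B (fun x => u (x - q)) (fun x => v (x - q)) = B u v := by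
  unfold B
  simp only [grad_sub]
  exact MeasureTheory.integral_sub_right_eq_self
    (fun x => inner ℝ (gradient u x) (gradient v x) - u x * v x) q

private theorem grad_comp {N : ℕ} (f : E N → ℝ) (L : E N ≃ₗᵢ[ℝ] E N) (x : E N) :
    gradient (fun y => f (L y)) x = L.symm (gradient f (L x)) := by
  apply (InnerProductSpace.toDual ℝ (E N)).injective
  ext w
  unfold gradient
  rw [LinearIsometryEquiv.apply_symm_apply]
  have h1 : fderiv ℝ (fun y => f (L y)) x = (fderiv ℝ f (L x)).comp
      (L.toContinuousLinearEquiv : E N →L[ℝ] E N) :=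
    L.toContinuousLinearEquiv.comp_right_fderiv (f := f) (x := x)
  rw [h1, InnerProductSpace.toDual_apply_apply]
  rw [← L.inner_map_map]
  rw [LinearIsometryEquiv.apply_symm_apply]
  rw [InnerProductSpace.toDual_symm_apply]
  rfl

private theorem B_comp {N : ℕ} (f g : E N → ℝ) (L : E N ≃ₗᵢ[ℝ] E N) :
    B (fun y => f (L y)) (fun y => g (L y)) = B f g := by
  unfold B
  simp only [grad_comp, LinearIsometryEquiv.inner_map_map]
  exact L.measurePreserving.integral_comp L.toHomeomorph.measurableEmbedding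
    (fun x => inner ℝ (gradient f x) (gradient g x) - f x * g x)

theorem B_invariant (N : ℕ) (u : E N → ℝ) (hu : ContDiff ℝ (⊤ : ℕ∞) u)
    (hrad : ∀ x y, ‖x‖ = ‖y‖ → u x = u y) (ε : ℝ) (q p p0 : E N) (hp : ‖p - q‖ = ‖p0‖) :
    B (fun x => u (x - q)) (phie ε p) = B u (phie ε p0) := by
  have h1 : phie ε p = fun x => phie ε (p - q) (x - q) := by
    funext x
    unfold phie
    congr 2
    abel
  rw [h1, B_translate]
  set L : E N ≃ₗᵢ[ℝ] E N := (ℝ ∙ ((p - q) - p0))ᗮ.reflection with hL
  have hLp : L (p - q) = p0 := Submodule.reflection_sub hp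
  have h2 : (fun x => u (L x)) = u := by
    funext x
    exact hrad _ _ (L.norm_map x)
  have h3 : (fun x => phie ε p0 (L x)) = phie ε (p - q) := by
    funext x
    unfold phie phi
    have : ε⁻¹ • (L x - p0) = L (ε⁻¹ • (x - (p - q))) := by
      rw [map_smul, map_sub, hLp]
    rw [this, L.norm_map]
  rw [← B_comp u (phie ε p0) L, h2, h3]

private theorem phi_contDiff {N : ℕ} : ContDiff ℝ (⊤ : ℕ∞) (phi : E N → ℝ) := by
  unfold phi
  apply Real.smoothTransition.contDiff.comp
  exact contDiff_const.sub (contDiff_const.mul (contDiff_norm_sq ℝ))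

private theorem phi_zero {N : ℕ} (x : E N) (h : 1/2 ≤ ‖x‖) : phi x = 0 := by
  unfold phi
  apply Real.smoothTransition.zero_of_nonpos
  have : (1/2)^2 ≤ ‖x‖^2 := by gcongr
  linarith

theorem phie_facts (N : ℕ) (ε : ℝ) (hε : 0 < ε) (p : E N) :
    ContDiff ℝ (⊤ : ℕ∞) (phie ε p) ∧ HasCompactSupport (phie ε p) ∧
      tsupport (phie ε p) ⊆ ball p ε ∧ ∀ x, 0 ≤ phie ε p x ∧ phie ε p x ≤ 1 := by
  have hs : Function.support (phie ε p) ⊆ closedBall p (ε/2) := by
    intro x hx
    rw [Function.mem_support] at hx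
    by_contra h
    rw [mem_closedBall, not_le, dist_eq_norm] at h
    apply hx
    unfold phie
    apply phi_zero
    rw [norm_smul, norm_inv, Real.norm_of_nonneg hε.le, inv_mul_eq_div, le_div_iff₀ hε]
    linarith
  refine ⟨?_, ?_, ?_, ?_⟩
  · unfold phie
    apply phi_contDiff.comp
    fun_prop
  · exact HasCompactSupport.of_support_subset_isCompact (isCompact_closedBall _ _) hs
  · refine (closure_minimal hs isClosed_closedBall).trans ?_
    apply closedBall_subset_ball
    linarith
  · intro x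
    unfold phie phi
    exact ⟨Real.smoothTransition.nonneg _, Real.smoothTransition.le_one _⟩

private theorem phi_compact {N : ℕ} : HasCompactSupport (phi : E N → ℝ) := by
  apply HasCompactSupport.of_support_subset_isCompact (isCompact_closedBall (0 : E N) (1/2))
  intro x hx
  rw [Function.mem_support] at hx
  by_contra h
  rw [mem_closedBall, not_le, dist_zero_right] at h
  exact hx (phi_zero x h.le)

theorem phi_grad_pos (N : ℕ) (hN : 1 ≤ N) :
    0 < ∫ x : E N, ‖fderiv ℝ (phi : E N → ℝ) x‖ ^ 2 := by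
  have hcd : ContDiff ℝ (⊤ : ℕ∞) (phi : E N → ℝ) := phi_contDiff
  have hc : Continuous (fun x : E N => ‖fderiv ℝ (phi : E N → ℝ) x‖ ^ 2) := by
    have := hcd.continuous_fderiv (by simp)
    fun_prop
  have hcs : HasCompactSupport (fun x : E N => ‖fderiv ℝ (phi : E N → ℝ) x‖ ^ 2) := by
    have := (phi_compact (N := N)).fderiv ℝ
    exact this.comp_left (g := fun y => ‖y‖ ^ 2) (by simp)
  have hne : ∃ x : E N, fderiv ℝ (phi : E N → ℝ) x ≠ 0 := by
    by_contra h
    push Not at h
    have h1 := is_const_of_fderiv_eq_zero (hcd.differentiable (by simp)) h 0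
      (EuclideanSpace.single (⟨0, hN⟩ : Fin N) (1 : ℝ))
    rw [phi_zero (EuclideanSpace.single (⟨0, hN⟩ : Fin N) (1 : ℝ)) (by simp; norm_num)] at h1
    unfold phi at h1
    rw [norm_zero] at h1
    rw [Real.smoothTransition.one_of_one_le (by norm_num)] at h1
    norm_num at h1
  obtain ⟨x, hx⟩ := hne
  apply hc.integral_pos_of_hasCompactSupport_nonneg_nonzero hcs (x := x)
  · intro y
    positivity
  · simpa using hx

theorem phie_phie (N : ℕ) (ε : ℝ) (hε : 0 < ε) (p : E N) :
    B (phie ε p) (phie ε p) ≤ ε ^ N * ε⁻¹ ^ 2 * ∫ x : E N, ‖fderiv ℝ (phi : E N → ℝ) x‖ ^ 2 := by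
  obtain ⟨h1, h2, h3, h4⟩ := phie_facts N ε hε p
  have hfd : ∀ x, fderiv ℝ (phie ε p) x = ε⁻¹ • fderiv ℝ (phi : E N → ℝ) (ε⁻¹ • (x - p)) := by
    intro x
    unfold phie
    rw [fderiv_comp_sub (f := fun y => phi (ε⁻¹ • y)) p]
    exact fderiv_comp_smul ε⁻¹
  have hg : ∀ x, inner ℝ (gradient (phie ε p) x) (gradient (phie ε p) x)
      = ‖fderiv ℝ (phie ε p) x‖ ^ 2 := by
    intro x
    rw [real_inner_self_eq_norm_sq]
    unfold gradient
    rw [LinearIsometryEquiv.norm_map]
  have hc : Continuous (fun x : E N => ‖fderiv ℝ (phie ε p) x‖ ^ 2) := by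
    have := h1.continuous_fderiv (by simp)
    fun_prop
  have hcs : HasCompactSupport (fun x : E N => ‖fderiv ℝ (phie ε p) x‖ ^ 2) := by
    have := h2.fderiv ℝ
    exact this.comp_left (g := fun y => ‖y‖ ^ 2) (by simp)
  have hi1 := hc.integrable_of_hasCompactSupport (μ := volume) hcs
  have hc2 : Continuous (fun x : E N => phie ε p x * phie ε p x) := by
    have := h1.continuous
    fun_prop
  have hcs2 : HasCompactSupport (fun x : E N => phie ε p x * phie ε p x) := h2.mul_left
  have hi2 := hc2.integrable_of_hasCompactSupport (μ := volume) hcs2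
  unfold B
  simp only [hg]
  rw [integral_sub hi1 hi2]
  have h5 : 0 ≤ ∫ x : E N, phie ε p x * phie ε p x := by
    apply integral_nonneg
    intro x
    exact mul_self_nonneg _
  have h6 : ∫ x : E N, ‖fderiv ℝ (phie ε p) x‖ ^ 2
      = ε ^ N * ε⁻¹ ^ 2 * ∫ x : E N, ‖fderiv ℝ (phi : E N → ℝ) x‖ ^ 2 := by
    have h7 : ∀ x, ‖fderiv ℝ (phie ε p) x‖ ^ 2
        = (fun y => ε⁻¹ ^ 2 * ‖fderiv ℝ (phi : E N → ℝ) (ε⁻¹ • y)‖ ^ 2) (x - p) := by
      intro x
      simp only []
      rw [hfd, norm_smul, norm_inv, Real.norm_of_nonneg hε.le, mul_pow]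
    simp only [h7]
    rw [MeasureTheory.integral_sub_right_eq_self
      (fun y => ε⁻¹ ^ 2 * ‖fderiv ℝ (phi : E N → ℝ) (ε⁻¹ • y)‖ ^ 2) p]
    rw [MeasureTheory.Measure.integral_comp_inv_smul volume
      (fun y => ε⁻¹ ^ 2 * ‖fderiv ℝ (phi : E N → ℝ) y‖ ^ 2) ε]
    rw [integral_const_mul, finrank_euclideanSpace, Fintype.card_fin, abs_of_pos (by positivity),
      smul_eq_mul]
    ring
  linarith

end Pool.Agent.Helper949.TB

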