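import Mathlib
import Pool.Agent.Helper949.TB.Defs

set_option autoImplicit false

open MeasureTheory Filter Topology Metric

namespace Pool.Agent.Helper949.TB

end Pool.Agent.Helper949.TB

namespace Pool.Agent.Helper949.TB
open scoped Pointwise

/-- slab in the unit ball -/
private def slab {N : ℕ} (e : E N) (R ε : ℝ) : Set (E N) :=
  {y | ‖y‖ < 1 ∧ |inner ℝ y e| ≤ ε / (2 * R)}

private theorem slab_meas {N : ℕ} (e : E N) (R ε : ℝ) : MeasurableSet (slab e R ε) := by
  have h1 : MeasurableSet {y : E N | ‖y‖ < 1} := measurableSet_lt (by fun_prop) measurable_const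
  have h2 : MeasurableSet {y : E N | |inner ℝ y e| ≤ ε / (2 * R)} := by
    have : Continuous (fun y : E N => |inner ℝ y e|) := by fun_prop
    exact measurableSet_le this.measurable measurable_const
  exact h1.inter h2

private theorem slab_fin {N : ℕ} (e : E N) (R ε : ℝ) : volume (slab e R ε) ≠ ⊤ := by
  have : slab e R ε ⊆ ball 0 1 := by
    intro y hy
    rw [mem_ball_zero_iff]; exact hy.1
  exact ne_top_of_le_ne_top measure_ball_lt_top.ne (measure_mono this)

private theorem slab_tend {N : ℕ} (e : E N) (he : ‖e‖ = 1) (R : ℝ) (hR : 0 < R) :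
    Tendsto (fun ε => (volume (slab e R ε)).toReal) (𝓝[>] 0) (𝓝 0) := by
  have h := tendsto_measure_biInter_gt (μ := (volume : Measure (E N))) (s := fun ε : ℝ => slab e R ε)
    (a := 0) (fun r _ => (slab_meas e R r).nullMeasurableSet)
    (fun i j _ hij y hy => ⟨hy.1, hy.2.trans (by gcongr)⟩) ⟨1, one_pos, slab_fin e R 1⟩
  have h0 : volume (⋂ r, ⋂ (_ : r > 0), slab e R r) = 0 := by
    have hsub : (⋂ r, ⋂ (_ : r > 0), slab e R r) ⊆ (((ℝ ∙ e)ᗮ : Submodule ℝ (E N)) : Set (E N)) := by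
      intro y hy
      simp only [Set.mem_iInter] at hy
      rw [SetLike.mem_coe, Submodule.mem_orthogonal_singleton_iff_inner_left]
      have h1 : ∀ r : ℝ, 0 < r → |inner ℝ y e| ≤ r / (2 * R) := fun r hr => (hy r hr).2
      have h2 : |inner ℝ y e| ≤ 0 := by
        refine le_of_forall_pos_le_add fun r hr => ?_
        have := h1 (r * (2 * R)) (by positivity)
        rw [zero_add]
        rwa [mul_div_cancel_right₀ _ (by positivity)] at this
      exact abs_nonpos_iff.1 h2
    refine measure_mono_null hsub ?_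
    refine Measure.addHaar_submodule _ _ ?_
    intro htop
    have : e ∈ (ℝ ∙ e)ᗮ := by rw [htop]; trivial
    rw [Submodule.mem_orthogonal_singleton_iff_inner_left] at this
    rw [real_inner_self_eq_norm_sq, he] at this
    norm_num at this
  rw [h0] at h
  have := (ENNReal.tendsto_toReal ENNReal.zero_ne_top).comp h
  exact this

theorem gap_volume (N : ℕ) (hN : 1 ≤ N) (R : ℝ) (hR : 0 < R) :
    ∃ θ : ℝ → ℝ, Tendsto θ (𝓝[>] 0) (𝓝 0) ∧ (∀ ε, 0 ≤ θ ε) ∧
      ∀ (q1 q2 : E N), dist q1 q2 = 2 * R → ∀ ε : ℝ, 0 < ε → ε < R →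
        volume (ball (midpoint ℝ q1 q2) ε \ (ball q1 R ∪ ball q2 R)) ≤ ENNReal.ofReal (θ ε * ε ^ N) := by
  let e : E N := EuclideanSpace.single ⟨0, hN⟩ 1
  have he : ‖e‖ = 1 := by simp [e]
  refine ⟨fun ε => (volume (slab e R ε)).toReal, slab_tend e he R hR, fun ε => ENNReal.toReal_nonneg, ?_⟩
  intro q1 q2 hq ε hε hεR
  set p := midpoint ℝ q1 q2 with hp
  set v : E N := (2 : ℝ)⁻¹ • (q2 - q1) with hv
  have hvn : ‖v‖ = R := by
    rw [hv, norm_smul, ← dist_eq_norm, dist_comm, hq, Real.norm_eq_abs, abs_of_pos (by norm_num)]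
    ring
  have hq2 : q2 = p + v := by
    rw [hp, hv, midpoint_eq_smul_add, invOf_eq_inv]
    module
  have hq1 : q1 = p - v := by
    rw [hp, hv, midpoint_eq_smul_add, invOf_eq_inv]
    module
  set ω : E N := R⁻¹ • v with hω
  have hωn : ‖ω‖ = 1 := by
    rw [hω, norm_smul, hvn, Real.norm_eq_abs, abs_of_pos (by positivity)]
    field_simp
  let L : E N ≃ₗᵢ[ℝ] E N := (ℝ ∙ (ω - e))ᗮ.reflection
  have hL : L ω = e := Submodule.reflection_sub (by rw [hωn, he])
  have hsub : ball p ε \ (ball q1 R ∪ ball q2 R) ⊆ p +ᵥ (ε • (L ⁻¹' slab e R ε)) := by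
    intro x hx
    rw [Set.mem_vadd_set]
    refine ⟨x - p, ?_, by simp⟩
    rw [Set.mem_smul_set]
    refine ⟨ε⁻¹ • (x - p), ?_, by rw [smul_smul, mul_inv_cancel₀ hε.ne', one_smul]⟩
    have hxp : ‖x - p‖ < ε := by
      have := hx.1
      rwa [mem_ball, dist_eq_norm] at this
    have hx1 : R ≤ ‖(x - p) + v‖ := by
      have : x ∉ ball q1 R := fun h => hx.2 (Or.inl h)
      rw [mem_ball, dist_eq_norm, not_lt, hq1] at this
      have e0 : x - p + v = x - (p - v) := by abel
      rw [e0]; exact this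
    have hx2 : R ≤ ‖(x - p) - v‖ := by
      have : x ∉ ball q2 R := fun h => hx.2 (Or.inr h)
      rw [mem_ball, dist_eq_norm, not_lt, hq2] at this
      have e0 : x - p - v = x - (p + v) := by abel
      rw [e0]; exact this
    have e1 : R ^ 2 ≤ ‖x - p‖ ^ 2 + 2 * inner ℝ (x - p) v + R ^ 2 := by
      have := norm_add_sq_real (x - p) v
      rw [hvn] at this
      rw [← this]
      gcongr
    have e2 : R ^ 2 ≤ ‖x - p‖ ^ 2 - 2 * inner ℝ (x - p) v + R ^ 2 := by
      have := norm_sub_sq_real (x - p) v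
      rw [hvn] at this
      rw [← this]
      gcongr
    have e3 : ‖x - p‖ ^ 2 ≤ ε ^ 2 := by gcongr
    have e4 : |inner ℝ (x - p) v| ≤ ε ^ 2 / 2 := by
      rw [abs_le]; constructor <;> linarith
    refine ⟨?_, ?_⟩
    · rw [L.norm_map, norm_smul, Real.norm_eq_abs, abs_of_pos (by positivity), inv_mul_lt_iff₀ hε]
      linarith
    · have : inner ℝ (L (ε⁻¹ • (x - p))) e = ε⁻¹ * (R⁻¹ * inner ℝ (x - p) v) := by
        rw [← hL, L.inner_map_map, hω, real_inner_smul_left, real_inner_smul_right]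
      rw [this, abs_mul, abs_mul, abs_of_pos (inv_pos.2 hε), abs_of_pos (inv_pos.2 hR)]
      calc ε⁻¹ * (R⁻¹ * |inner ℝ (x - p) v|) ≤ ε⁻¹ * (R⁻¹ * (ε ^ 2 / 2)) := by gcongr
        _ = ε / (2 * R) := by field_simp
  have hvol : volume (p +ᵥ (ε • (L ⁻¹' slab e R ε))) = ENNReal.ofReal (ε ^ N) * volume (slab e R ε) := by
    rw [measure_vadd, Measure.addHaar_smul, L.measurePreserving.measure_preimage (slab_meas e R ε).nullMeasurableSet]
    congr 2
    rw [finrank_euclideanSpace, Fintype.card_fin, abs_of_pos (by positivity)]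
  calc volume (ball p ε \ (ball q1 R ∪ ball q2 R)) ≤ volume (p +ᵥ (ε • (L ⁻¹' slab e R ε))) := measure_mono hsub
    _ = ENNReal.ofReal (ε ^ N) * volume (slab e R ε) := hvol
    _ = ENNReal.ofReal (ε ^ N) * ENNReal.ofReal ((volume (slab e R ε)).toReal) := by
        rw [ENNReal.ofReal_toReal (slab_fin e R ε)]
    _ = ENNReal.ofReal ((volume (slab e R ε)).toReal * ε ^ N) := by
        rw [← ENNReal.ofReal_mul (by positivity), mul_comm]
end Pool.Agent.Helper949.TB

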