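import Mathlib
import Pool.Agent.Helper949.TB.Defs

set_option autoImplicit false

open MeasureTheory Filter Topology Metric

namespace Pool.Agent.Helper949.TB

end Pool.Agent.Helper949.TB

namespace Pool.Agent.Helper949.TB

private theorem gradient_eq_zero_of_notMem_tsupport {N : ℕ} (f : E N → ℝ) (x : E N)
    (hx : x ∉ tsupport f) : gradient f x = 0 := by
  have h : fderiv ℝ f x = 0 := by
    have h2 : f =ᶠ[𝓝 x] fun _ => (0:ℝ) := by
      have : (tsupport f)ᶜ ∈ 𝓝 x := (isClosed_tsupport f).isOpen_compl.mem_nhds hx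
      filter_upwards [this] with y hy
      exact image_eq_zero_of_notMem_tsupport hy
    rw [h2.fderiv_eq]
    simp
  unfold gradient
  rw [h]
  simp

/-- `B` vanishes on functions with disjoint supports. -/
theorem B_disjoint (N : ℕ) (f g : E N → ℝ) (U V : Set (E N)) (hf : tsupport f ⊆ U)
    (hg : tsupport g ⊆ V) (h : Disjoint U V) : B f g = 0 := by
  unfold B
  have : ∀ x, (inner ℝ (gradient f x) (gradient g x) - f x * g x) = 0 := by
    intro x
    by_cases hx : x ∈ tsupport f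
    · have hx' : x ∉ tsupport g := fun h' =>
        (Set.disjoint_left.mp h) (hf hx) (hg h')
      rw [gradient_eq_zero_of_notMem_tsupport g x hx', image_eq_zero_of_notMem_tsupport hx']
      simp
    · rw [gradient_eq_zero_of_notMem_tsupport f x hx, image_eq_zero_of_notMem_tsupport hx]
      simp
  calc _ = ∫ _x : E N, (0 : ℝ) := integral_congr_ae (Filter.Eventually.of_forall this)
    _ = 0 := by rw [integral_zero]

private theorem norm_gradient {N : ℕ} (v : E N → ℝ) (x : E N) : ‖gradient v x‖ = ‖fderiv ℝ v x‖ := by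
  unfold gradient
  simp

private theorem cont_gradient {N : ℕ} (v : E N → ℝ) (hv : ContDiff ℝ (⊤ : ℕ∞) v) :
    Continuous (fun x => gradient v x) := by
  unfold gradient
  exact (LinearIsometryEquiv.continuous _).comp (hv.continuous_fderiv (by simp))

private theorem cs_gradient {N : ℕ} (v : E N → ℝ) (hc : HasCompactSupport v) :
    HasCompactSupport (fun x => gradient v x) := by
  refine HasCompactSupport.intro' (K := tsupport v) hc (isClosed_tsupport v) ?_
  intro x hx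
  exact gradient_eq_zero_of_notMem_tsupport v x hx

private theorem int_inner {N : ℕ} (f g : E N → ℝ) (hf : ContDiff ℝ (⊤ : ℕ∞) f ∧ HasCompactSupport f)
    (hg : ContDiff ℝ (⊤ : ℕ∞) g ∧ HasCompactSupport g) :
    Integrable (fun x => (inner ℝ (gradient f x) (gradient g x) : ℝ)) := by
  apply Continuous.integrable_of_hasCompactSupport
  · exact (cont_gradient f hf.1).inner (cont_gradient g hg.1)
  · refine HasCompactSupport.intro' (K := tsupport f) hf.2 (isClosed_tsupport f) ?_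
    intro x hx
    rw [gradient_eq_zero_of_notMem_tsupport f x hx]
    simp

private theorem int_mul {N : ℕ} (f g : E N → ℝ) (hf : ContDiff ℝ (⊤ : ℕ∞) f ∧ HasCompactSupport f)
    (hg : ContDiff ℝ (⊤ : ℕ∞) g ∧ HasCompactSupport g) :
    Integrable (fun x => f x * g x) := by
  apply Continuous.integrable_of_hasCompactSupport
  · exact hf.1.continuous.mul hg.1.continuous
  · exact hf.2.mul_right

private theorem int_B {N : ℕ} (f g : E N → ℝ) (hf : ContDiff ℝ (⊤ : ℕ∞) f ∧ HasCompactSupport f)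
    (hg : ContDiff ℝ (⊤ : ℕ∞) g ∧ HasCompactSupport g) :
    Integrable (fun x => (inner ℝ (gradient f x) (gradient g x) - f x * g x : ℝ)) :=
  (int_inner f g hf hg).sub (int_mul f g hf hg)

theorem B_self (N : ℕ) (v : E N → ℝ) (hv : ContDiff ℝ (⊤ : ℕ∞) v) (hc : HasCompactSupport v) :
    ∫ x, ‖fderiv ℝ v x‖ ^ 2 = B v v + ∫ x, v x ^ 2 := by
  unfold B
  rw [integral_sub (int_inner v v ⟨hv, hc⟩ ⟨hv, hc⟩) (int_mul v v ⟨hv, hc⟩ ⟨hv, hc⟩)]
  have h1 : ∀ x, (inner ℝ (gradient v x) (gradient v x) : ℝ) = ‖fderiv ℝ v x‖ ^ 2 := by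
    intro x
    rw [real_inner_self_eq_norm_sq, norm_gradient]
  have h2 : ∀ x, v x * v x = v x ^ 2 := fun x => by ring
  simp only [h1, h2]
  ring

private theorem B_comm {N : ℕ} (f g : E N → ℝ) : B f g = B g f := by
  unfold B
  congr 1
  funext x
  rw [real_inner_comm, mul_comm]

private theorem B_sum_left {N : ℕ} {ι : Type} (s : Finset ι) (d : ι → ℝ) (u : ι → E N → ℝ) (g : E N → ℝ)
    (hu : ∀ i ∈ s, ContDiff ℝ (⊤ : ℕ∞) (u i) ∧ HasCompactSupport (u i))
    (hg : ContDiff ℝ (⊤ : ℕ∞) g ∧ HasCompactSupport g) :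
    B (fun x => ∑ i ∈ s, d i * u i x) g = ∑ i ∈ s, d i * B (u i) g := by
  unfold B
  have hgr : ∀ x, gradient (fun x => ∑ i ∈ s, d i * u i x) x = ∑ i ∈ s, d i • gradient (u i) x := by
    intro x
    have hd : ∀ i ∈ s, DifferentiableAt ℝ (fun x => d i * u i x) x := by
      intro i hi
      exact (((hu i hi).1.differentiable (by simp)) x).const_mul (d i)
    unfold gradient
    rw [fderiv_fun_sum hd, map_sum]
    refine Finset.sum_congr rfl fun i hi => ?_
    rw [fderiv_const_mul (((hu i hi).1.differentiable (by simp)) x)]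
    simp
  have hpt : ∀ x, (inner ℝ (gradient (fun x => ∑ i ∈ s, d i * u i x) x) (gradient g x)
      - (∑ i ∈ s, d i * u i x) * g x : ℝ)
      = ∑ i ∈ s, d i * (inner ℝ (gradient (u i) x) (gradient g x) - u i x * g x) := by
    intro x
    rw [hgr, sum_inner, Finset.sum_mul, ← Finset.sum_sub_distrib]
    refine Finset.sum_congr rfl fun i hi => ?_
    rw [real_inner_smul_left]
    ring
  simp only [hpt]
  rw [integral_finsetSum _ (fun i hi => (int_B (u i) g (hu i hi) hg).const_mul (d i))]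
  refine Finset.sum_congr rfl fun i hi => ?_
  rw [integral_const_mul]

private theorem sum_class {N : ℕ} {ι : Type} (s : Finset ι) (d : ι → ℝ) (u : ι → E N → ℝ)
    (hu : ∀ i ∈ s, ContDiff ℝ (⊤ : ℕ∞) (u i) ∧ HasCompactSupport (u i)) :
    ContDiff ℝ (⊤ : ℕ∞) (fun x => ∑ i ∈ s, d i * u i x) ∧
      HasCompactSupport (fun x => ∑ i ∈ s, d i * u i x) := by
  constructor
  · exact ContDiff.sum fun i hi => contDiff_const.mul (hu i hi).1
  · classical
    have hK : IsCompact (⋃ i ∈ s, tsupport (u i)) :=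
      s.isCompact_biUnion fun i hi => (hu i hi).2
    refine HasCompactSupport.intro' hK hK.isClosed ?_
    intro x hx
    refine Finset.sum_eq_zero fun i hi => ?_
    have : x ∉ tsupport (u i) := fun h => hx (Set.mem_biUnion hi h)
    rw [image_eq_zero_of_notMem_tsupport this, mul_zero]

private theorem B_sum_sum {N : ℕ} {ι : Type} (s : Finset ι) (d : ι → ℝ) (u : ι → E N → ℝ)
    (hu : ∀ i ∈ s, ContDiff ℝ (⊤ : ℕ∞) (u i) ∧ HasCompactSupport (u i)) :
    B (fun x => ∑ i ∈ s, d i * u i x) (fun x => ∑ i ∈ s, d i * u i x)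
      = ∑ i ∈ s, ∑ j ∈ s, d i * d j * B (u i) (u j) := by
  rw [B_sum_left s d u _ hu (sum_class s d u hu)]
  refine Finset.sum_congr rfl fun i hi => ?_
  rw [B_comm, B_sum_left s d u _ hu (hu i hi), Finset.mul_sum]
  refine Finset.sum_congr rfl fun j hj => ?_
  rw [B_comm (u j) (u i)]
  ring

set_option maxHeartbeats 4000000 in
theorem quad_bound (N : ℕ) (a f : Fin 3 → E N → ℝ)
    (ha : ∀ i, ContDiff ℝ (⊤ : ℕ∞) (a i) ∧ HasCompactSupport (a i))
    (hf : ∀ i, ContDiff ℝ (⊤ : ℕ∞) (f i) ∧ HasCompactSupport (f i))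
    (e b D τ : ℝ)
    (haa : ∀ i, B (a i) (a i) = e) (haa' : ∀ i j, i ≠ j → B (a i) (a j) = 0)
    (haf : ∀ i, B (a i) (f i) = b) (haf' : ∀ i, B (a (i + 1)) (f i) = b)
    (haf'' : ∀ i, B (a (i + 2)) (f i) = 0)
    (hff : ∀ i, B (f i) (f i) ≤ D) (hff' : ∀ i j, i ≠ j → B (f i) (f j) = 0)
    (hneg : 2 * τ * b + τ ^ 2 * D ≤ 0) (c : Fin 3 → ℝ) :
    B (fun x => ∑ i, c i * (a i x + τ * (f i x + f (i + 2) x)))
      (fun x => ∑ i, c i * (a i x + τ * (f i x + f (i + 2) x)))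
      ≤ (e + (2 * τ * b + τ ^ 2 * D)) * ∑ i, c i ^ 2 := by
  obtain ⟨d, d0, d1, d2, d3, d4, d5⟩ : ∃ d : Fin 6 → ℝ, d 0 = c 0 ∧ d 1 = c 1 ∧ d 2 = c 2 ∧
      d 3 = τ * (c 0 + c 1) ∧ d 4 = τ * (c 1 + c 2) ∧ d 5 = τ * (c 2 + c 0) :=
    ⟨![c 0, c 1, c 2, τ * (c 0 + c 1), τ * (c 1 + c 2), τ * (c 2 + c 0)], rfl, rfl, rfl, rfl,
      rfl, rfl⟩
  obtain ⟨u, u0, u1, u2, u3, u4, u5⟩ : ∃ u : Fin 6 → E N → ℝ, u 0 = a 0 ∧ u 1 = a 1 ∧
      u 2 = a 2 ∧ u 3 = f 0 ∧ u 4 = f 1 ∧ u 5 = f 2 :=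
    ⟨![a 0, a 1, a 2, f 0, f 1, f 2], rfl, rfl, rfl, rfl, rfl, rfl⟩
  have e20 : (2 : Fin 3) + 2 = 1 := by decide
  have e12 : (1 : Fin 3) + 2 = 0 := by decide
  have e02 : (0 : Fin 3) + 2 = 2 := by decide
  have e01 : (0 : Fin 3) + 1 = 1 := by decide
  have e11 : (1 : Fin 3) + 1 = 2 := by decide
  have e21 : (2 : Fin 3) + 1 = 0 := by decide
  have hfun : (fun x => ∑ i, c i * (a i x + τ * (f i x + f (i + 2) x)))
      = (fun x => ∑ i, d i * u i x) := by
    funext x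
    rw [Fin.sum_univ_three, Fin.sum_univ_six, e20, e12, e02, d0, d1, d2, d3, d4, d5,
      u0, u1, u2, u3, u4, u5]
    ring
  have hcl : ∀ i ∈ (Finset.univ : Finset (Fin 6)),
      ContDiff ℝ (⊤ : ℕ∞) (u i) ∧ HasCompactSupport (u i) := by
    intro i _
    have h6 : ∀ P : Fin 6 → Prop, P 0 → P 1 → P 2 → P 3 → P 4 → P 5 → ∀ i, P i := by
      intro P p0 p1 p2 p3 p4 p5 i
      fin_cases i <;> assumption
    refine h6 (fun i => ContDiff ℝ (⊤ : ℕ∞) (u i) ∧ HasCompactSupport (u i)) ?_ ?_ ?_ ?_ ?_ ?_ i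
    · simp only [u0]; exact ha 0
    · simp only [u1]; exact ha 1
    · simp only [u2]; exact ha 2
    · simp only [u3]; exact hf 0
    · simp only [u4]; exact hf 1
    · simp only [u5]; exact hf 2
  rw [hfun, B_sum_sum _ _ _ hcl]
  have A0 := haf 0
  have A1 := haf 1
  have A2 := haf 2
  have B0 := haf' 0
  have B1 := haf' 1
  have B2 := haf' 2
  have C0 := haf'' 0
  have C1 := haf'' 1
  have C2 := haf'' 2
  rw [e01] at B0
  rw [e11] at B1
  rw [e21] at B2
  rw [e02] at C0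
  rw [e12] at C1
  rw [e20] at C2
  have a01 := haa' 0 1 (by decide)
  have a02 := haa' 0 2 (by decide)
  have a10 := haa' 1 0 (by decide)
  have a12 := haa' 1 2 (by decide)
  have a20 := haa' 2 0 (by decide)
  have a21 := haa' 2 1 (by decide)
  have f01 := hff' 0 1 (by decide)
  have f02 := hff' 0 2 (by decide)
  have f10 := hff' 1 0 (by decide)
  have f12 := hff' 1 2 (by decide)
  have f20 := hff' 2 0 (by decide)
  have f21 := hff' 2 1 (by decide)
  have A0' : B (f 0) (a 0) = b := by rw [B_comm]; exact A0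
  have A1' : B (f 1) (a 1) = b := by rw [B_comm]; exact A1
  have A2' : B (f 2) (a 2) = b := by rw [B_comm]; exact A2
  have B0' : B (f 0) (a 1) = b := by rw [B_comm]; exact B0
  have B1' : B (f 1) (a 2) = b := by rw [B_comm]; exact B1
  have B2' : B (f 2) (a 0) = b := by rw [B_comm]; exact B2
  have C0' : B (f 0) (a 2) = 0 := by rw [B_comm]; exact C0
  have C1' : B (f 1) (a 0) = 0 := by rw [B_comm]; exact C1
  have C2' : B (f 2) (a 1) = 0 := by rw [B_comm]; exact C2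
  have key : ∑ i, ∑ j, d i * d j * B (u i) (u j)
      = e * (c 0 ^ 2 + c 1 ^ 2 + c 2 ^ 2)
        + 2 * τ * b * ((c 0 + c 1) ^ 2 + (c 1 + c 2) ^ 2 + (c 2 + c 0) ^ 2)
        + τ ^ 2 * ((c 0 + c 1) ^ 2 * B (f 0) (f 0) + (c 1 + c 2) ^ 2 * B (f 1) (f 1)
          + (c 2 + c 0) ^ 2 * B (f 2) (f 2)) := by
    simp only [Fin.sum_univ_six, d0, d1, d2, d3, d4, d5, u0, u1, u2, u3, u4, u5]
    rw [haa 0, haa 1, haa 2, a01, a02, a10, a12, a20, a21, f01, f02, f10, f12, f20, f21,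
      A0, A1, A2, B0, B1, B2, C0, C1, C2, A0', A1', A2', B0', B1', B2', C0', C1', C2']
    ring
  rw [key, Fin.sum_univ_three]
  have g0 := mul_le_mul_of_nonneg_left (hff 0) (by positivity : 0 ≤ τ ^ 2 * (c 0 + c 1) ^ 2)
  have g1 := mul_le_mul_of_nonneg_left (hff 1) (by positivity : 0 ≤ τ ^ 2 * (c 1 + c 2) ^ 2)
  have g2 := mul_le_mul_of_nonneg_left (hff 2) (by positivity : 0 ≤ τ ^ 2 * (c 2 + c 0) ^ 2)
  have g3 : (2 * τ * b + τ ^ 2 * D) * (c 0 + c 1 + c 2) ^ 2 ≤ 0 :=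
    mul_nonpos_of_nonpos_of_nonneg hneg (sq_nonneg _)
  nlinarith [g0, g1, g2, g3]
end Pool.Agent.Helper949.TB

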