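import Mathlib
import Pool.Agent.Helper949.TB.Defs

set_option autoImplicit false

open MeasureTheory Filter Topology Metric

namespace Pool.Agent.Helper949.TB

end Pool.Agent.Helper949.TB

namespace Pool.Agent.Helper949.TB
private theorem tri_norm {N : ℕ} (i0 i1 : Fin N) (h : i0 ≠ i1) (a b : ℝ) :
    ‖(EuclideanSpace.single i0 a + EuclideanSpace.single i1 b : E N)‖ ^ 2 = a ^ 2 + b ^ 2 := by
  rw [norm_add_sq_real]
  have h1 : (inner ℝ (EuclideanSpace.single i0 a : E N) (EuclideanSpace.single i1 b : E N) : ℝ) = 0 := by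
    rw [EuclideanSpace.inner_single_left]
    simp [h]
  rw [h1]
  simp

theorem triangle_exists (N : ℕ) (hN : 2 ≤ N) (R : ℝ) (hR : 0 < R) :
    ∃ q : Fin 3 → E N, ∀ i j, i ≠ j → dist (q i) (q j) = 2 * R := by
  let i0 : Fin N := ⟨0, by omega⟩
  let i1 : Fin N := ⟨1, by omega⟩
  have h01 : i0 ≠ i1 := by
    intro h
    have := congrArg Fin.val h
    simp [i0, i1] at this
  have h3 : Real.sqrt 3 ^ 2 = 3 := Real.sq_sqrt (by norm_num)
  have key : ∀ (x : E N), ‖x‖ ^ 2 = (2 * R) ^ 2 → ‖x‖ = 2 * R := by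
    intro x hx
    exact (sq_eq_sq₀ (norm_nonneg _) (by positivity)).1 hx
  let p1 : E N := EuclideanSpace.single i0 (2 * R)
  let p2 : E N := EuclideanSpace.single i0 R + EuclideanSpace.single i1 (Real.sqrt 3 * R)
  have d1 : ‖p1‖ = 2 * R := by
    simp only [p1]
    rw [EuclideanSpace.norm_single, Real.norm_eq_abs, abs_of_pos (by positivity)]
  have d2 : ‖p2‖ = 2 * R := by
    apply key
    simp only [p2]
    rw [tri_norm i0 i1 h01]
    rw [mul_pow, h3]; ring
  have d3 : ‖p2 - p1‖ = 2 * R := by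
    apply key
    have e : p2 - p1 = EuclideanSpace.single i0 (-R) + EuclideanSpace.single i1 (Real.sqrt 3 * R) := by
      simp only [p1, p2]
      ext k
      simp only [PiLp.sub_apply, PiLp.add_apply]
      by_cases hk0 : k = i0
      · subst hk0
        simp [h01]
        ring
      · by_cases hk1 : k = i1
        · subst hk1
          simp [h01.symm]
        · simp [hk0, hk1]
    rw [e, tri_norm i0 i1 h01]
    rw [mul_pow, h3]; ring
  refine ⟨![0, p1, p2], ?_⟩
  intro i j hij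
  fin_cases i <;> fin_cases j
  · exact absurd rfl hij
  · show dist (0 : E N) p1 = 2 * R
    rw [dist_eq_norm, zero_sub, norm_neg, d1]
  · show dist (0 : E N) p2 = 2 * R
    rw [dist_eq_norm, zero_sub, norm_neg, d2]
  · show dist p1 (0 : E N) = 2 * R
    rw [dist_eq_norm, sub_zero, d1]
  · exact absurd rfl hij
  · show dist p1 p2 = 2 * R
    rw [dist_comm, dist_eq_norm, d3]
  · show dist p2 (0 : E N) = 2 * R
    rw [dist_eq_norm, sub_zero, d2]
  · show dist p2 p1 = 2 * R
    rw [dist_eq_norm, d3]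
  · exact absurd rfl hij

private theorem tri_mm {N : ℕ} (a b c : E N) :
    dist (midpoint ℝ a b) (midpoint ℝ b c) = dist a c / 2 := by
  rw [dist_eq_norm, dist_eq_norm, midpoint_eq_smul_add, midpoint_eq_smul_add, ← smul_sub]
  have e : a + b - (b + c) = a - c := by abel
  rw [e, norm_smul]
  simp
  ring

private theorem tri_med {N : ℕ} (R : ℝ) (hR : 0 < R) (a b c : E N) (h1 : dist a b = 2 * R)
    (h2 : dist b c = 2 * R) (h3 : dist a c = 2 * R) :
    R + R / 10 ≤ dist c (midpoint ℝ a b) := by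
  have e : dist c (midpoint ℝ a b) ^ 2 = 3 * R ^ 2 := by
    rw [dist_eq_norm, midpoint_eq_smul_add]
    have e1 : c - (⅟2 : ℝ) • (a + b) = (1 / 2 : ℝ) • ((c - a) + (c - b)) := by
      rw [show ((⅟2 : ℝ)) = 1 / 2 by simp]
      have : c = (1 / 2 : ℝ) • (c + c) := by
        rw [← two_smul ℝ c, smul_smul]; norm_num
      nth_rewrite 1 [this]
      rw [← smul_sub]
      congr 1
      abel
    have e2 := parallelogram_law_with_norm ℝ (c - a) (c - b)
    have e3 : (c - a) - (c - b) = b - a := by abel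
    rw [e3, ← dist_eq_norm b a, dist_comm b a, h1, ← dist_eq_norm c a, dist_comm c a, h3,
      ← dist_eq_norm c b, dist_comm c b, h2] at e2
    rw [e1, norm_smul, mul_pow]
    have : ‖(1 / 2 : ℝ)‖ = 1 / 2 := by norm_num
    rw [this]
    nlinarith [e2]
  have h4 : (R + R / 10) ^ 2 ≤ dist c (midpoint ℝ a b) ^ 2 := by
    rw [e]; nlinarith [sq_nonneg R]
  exact le_of_sq_le_sq' h4 dist_nonneg
where
  le_of_sq_le_sq' {x y : ℝ} (h : x ^ 2 ≤ y ^ 2) (hy : 0 ≤ y) : x ≤ y := by
    exact le_of_sq_le_sq h hy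
  le_of_sq_le_sq {x y : ℝ} (h : x ^ 2 ≤ y ^ 2) (hy : 0 ≤ y) : x ≤ y := by
    by_contra hc
    push_neg at hc
    nlinarith

theorem triangle_geometry (N : ℕ) (R : ℝ) (hR : 0 < R) (q : Fin 3 → E N)
    (hq : ∀ i j, i ≠ j → dist (q i) (q j) = 2 * R) (ε : ℝ) (hε : 0 < ε) (hεR : ε < R / 10) :
    (∀ i j, i ≠ j → Disjoint (ball (q i) R) (ball (q j) R)) ∧
    (∀ i j : Fin 3, i ≠ j → Disjoint (ball (midpoint ℝ (q i) (q (i + 1))) ε)
      (ball (midpoint ℝ (q j) (q (j + 1))) ε)) ∧
    (∀ i : Fin 3, Disjoint (ball (q (i + 2)) R) (ball (midpoint ℝ (q i) (q (i + 1))) ε)) ∧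
    (∀ i : Fin 3, ‖midpoint ℝ (q i) (q (i + 1)) - q i‖ = R) ∧
    (∀ i : Fin 3, ‖midpoint ℝ (q i) (q (i + 1)) - q (i + 1)‖ = R) ∧
    (∀ i j : Fin 3, q j ∉ ball (midpoint ℝ (q i) (q (i + 1))) ε) := by
  have n1 : ∀ i : Fin 3, i ≠ i + 1 := by decide
  have n2 : ∀ i : Fin 3, i ≠ i + 2 := by decide
  have n3 : ∀ i : Fin 3, i + 1 ≠ i + 2 := by decide
  have hl : ∀ i : Fin 3, dist (midpoint ℝ (q i) (q (i + 1))) (q i) = R := by
    intro i
    rw [dist_midpoint_left, hq i (i + 1) (n1 i)]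
    simp
  have hr : ∀ i : Fin 3, dist (midpoint ℝ (q i) (q (i + 1))) (q (i + 1)) = R := by
    intro i
    rw [dist_midpoint_right, hq i (i + 1) (n1 i)]
    simp
  have hm : ∀ i : Fin 3, R + R / 10 ≤ dist (q (i + 2)) (midpoint ℝ (q i) (q (i + 1))) := by
    intro i
    exact tri_med R hR _ _ _ (hq _ _ (n1 i)) (hq _ _ (n3 i)) (hq _ _ (n2 i))
  have hmm : ∀ i j : Fin 3, i ≠ j →
      dist (midpoint ℝ (q i) (q (i + 1))) (midpoint ℝ (q j) (q (j + 1))) = R := by
    have hs : ∀ i : Fin 3,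
        dist (midpoint ℝ (q i) (q (i + 1))) (midpoint ℝ (q (i + 1)) (q (i + 1 + 1))) = R := by
      intro i
      rw [tri_mm, hq]
      · ring
      · revert i; decide
    intro i j hij
    have hc : j = i + 1 ∨ i = j + 1 := by revert i j; decide
    rcases hc with rfl | rfl
    · exact hs i
    · rw [dist_comm]; exact hs j
  refine ⟨?_, ?_, ?_, ?_, ?_, ?_⟩
  · intro i j hij
    apply ball_disjoint_ball
    rw [hq i j hij]; linarith
  · intro i j hij
    apply ball_disjoint_ball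
    rw [hmm i j hij]; linarith
  · intro i
    apply ball_disjoint_ball
    have := hm i
    linarith
  · intro i
    rw [← dist_eq_norm]; exact hl i
  · intro i
    rw [← dist_eq_norm]; exact hr i
  · intro i j
    rw [mem_ball, not_lt]
    have hc : j = i ∨ j = i + 1 ∨ j = i + 2 := by revert i j; decide
    rcases hc with rfl | rfl | rfl
    · rw [dist_comm, hl]; linarith
    · rw [dist_comm, hr]; linarith
    · have := hm i
      linarith

end Pool.Agent.Helper949.TB

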