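import Mathlib
import Pool.Agent.Helper949.TB.Defs

set_option autoImplicit false

open MeasureTheory Filter Topology Metric

namespace Pool.Agent.Helper949.TB

end Pool.Agent.Helper949.TB

namespace Pool.Agent.Helper949.TB
theorem l2_bound (N : ℕ) (w : Fin 3 → E N → ℝ) (Ω : Set (E N)) (hΩ : IsOpen Ω)
    (hc : ∀ i, Continuous (w i)) (hcs : ∀ i, HasCompactSupport (w i))
    (hs : ∀ i, tsupport (w i) ⊆ Ω) (hb : ∀ i x, |w i x| ≤ 3) (K : ℝ)
    (hK : volume Ω ≤ ENNReal.ofReal K) (hK0 : 0 ≤ K) (c : Fin 3 → ℝ) :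
    ∫ x, (∑ i, c i * w i x) ^ 2 ≤ 27 * K * ∑ i, c i ^ 2 := by
  have hfin : volume Ω ≠ ⊤ := ne_top_of_le_ne_top ENNReal.ofReal_ne_top hK
  have hS : 0 ≤ ∑ i, c i ^ 2 := Finset.sum_nonneg (fun i _ => sq_nonneg _)
  have hpt : ∀ x, (∑ i, c i * w i x) ^ 2 ≤ Ω.indicator (fun _ => 27 * ∑ i, c i ^ 2) x := by
    intro x
    by_cases hx : x ∈ Ω
    · rw [Set.indicator_of_mem hx]
      have h1 : (∑ i, c i * w i x) ^ 2 ≤ (∑ i, c i ^ 2) * (∑ i, w i x ^ 2) :=
        Finset.sum_mul_sq_le_sq_mul_sq _ _ _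
      have h2 : ∑ i, w i x ^ 2 ≤ ∑ _i : Fin 3, (9:ℝ) := by
        apply Finset.sum_le_sum
        intro i _
        have := hb i x
        rw [← sq_abs]
        nlinarith [abs_nonneg (w i x)]
      have h3 : ∑ _i : Fin 3, (9:ℝ) = 27 := by norm_num
      rw [h3] at h2
      calc (∑ i, c i * w i x) ^ 2 ≤ (∑ i, c i ^ 2) * (∑ i, w i x ^ 2) := h1
        _ ≤ (∑ i, c i ^ 2) * 27 := mul_le_mul_of_nonneg_left h2 hS
        _ = _ := by ring
    · rw [Set.indicator_of_notMem hx]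
      have h1 : ∀ i, w i x = 0 := fun i => image_eq_zero_of_notMem_tsupport (fun h => hx (hs i h))
      simp [h1]
  have hint : Integrable (Ω.indicator (fun _ => 27 * ∑ i, c i ^ 2)) volume :=
    (integrable_indicator_iff hΩ.measurableSet).2 (integrableOn_const hfin)
  calc ∫ x, (∑ i, c i * w i x) ^ 2 ≤ ∫ x, Ω.indicator (fun _ => 27 * ∑ i, c i ^ 2) x :=
        integral_mono_of_nonneg (Eventually.of_forall fun x => sq_nonneg _) hint
          (Eventually.of_forall hpt)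
    _ = (volume Ω).toReal * (27 * ∑ i, c i ^ 2) := by
        rw [integral_indicator hΩ.measurableSet, setIntegral_const, smul_eq_mul]
        rfl
    _ ≤ K * (27 * ∑ i, c i ^ 2) := by
        apply mul_le_mul_of_nonneg_right _ (by positivity)
        exact ENNReal.toReal_le_of_le_ofReal hK0 hK
    _ = _ := by ring
theorem span_rank (N : ℕ) (w : Fin 3 → E N → ℝ) (q : Fin 3 → E N)
    (h : ∀ i j, w i (q j) = if i = j then 1 else 0) :
    Module.finrank ℝ (Submodule.span ℝ (Set.range w)) = 3 ∧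
      ∀ v ∈ Submodule.span ℝ (Set.range w), ∃ c : Fin 3 → ℝ, v = fun x => ∑ i, c i * w i x := by
  constructor
  · have hli : LinearIndependent ℝ w := by
      rw [Fintype.linearIndependent_iff]
      intro g hg j
      have h1 := congrFun hg (q j)
      simp only [Finset.sum_apply, Pi.smul_apply, smul_eq_mul, h, Pi.zero_apply] at h1
      simpa using h1
    rw [finrank_span_eq_card hli]
    rfl
  · intro v hv
    obtain ⟨c, hc⟩ := (Submodule.mem_span_range_iff_exists_fun ℝ).1 hv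
    refine ⟨c, ?_⟩
    rw [← hc]
    funext x
    simp [Finset.sum_apply]
theorem scale_ray (N k : ℕ) (Ω : Set (E N)) (s : ℝ) (hs : 0 < s) (c : ℝ) (hc : c ∈ RaySet N k Ω) :
    c / s ^ 2 ∈ RaySet N k ((fun x : E N => s • x) '' Ω) := by
  obtain ⟨V, hV, hV'⟩ := hc
  have hs' : s⁻¹ ≠ 0 := inv_ne_zero hs.ne'
  let e : E N ≃ E N :=
    { toFun := fun x => s⁻¹ • x
      invFun := fun x => s • x
      left_inv := fun x => by simp [smul_smul, hs.ne']
      right_inv := fun x => by simp [smul_smul, hs.ne'] }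
  let L : (E N → ℝ) ≃ₗ[ℝ] (E N → ℝ) := LinearEquiv.funCongrLeft ℝ ℝ e
  refine ⟨V.map (L : (E N → ℝ) →ₗ[ℝ] (E N → ℝ)), ?_, ?_⟩
  · rw [LinearEquiv.finrank_map_eq]
    exact hV
  · rintro _ ⟨v, hv, rfl⟩
    obtain ⟨h1, h2, h3, h4⟩ := hV' v hv
    have hL : (L : (E N → ℝ) →ₗ[ℝ] (E N → ℝ)) v = fun x => v (s⁻¹ • x) := rfl
    rw [hL]
    have hfd : ∀ x, fderiv ℝ (fun x => v (s⁻¹ • x)) x = s⁻¹ • fderiv ℝ v (s⁻¹ • x) := by
      intro x
      have hd : HasFDerivAt v (fderiv ℝ v (s⁻¹ • x)) (s⁻¹ • x) :=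
        (h1.differentiable (by simp) (s⁻¹ • x)).hasFDerivAt
      have h5 : HasFDerivAt (fun x : E N => s⁻¹ • x) (s⁻¹ • ContinuousLinearMap.id ℝ (E N)) x :=
        (hasFDerivAt_id x).const_smul s⁻¹
      have h6 := hd.comp x h5
      have h7 : fderiv ℝ (v ∘ fun x : E N => s⁻¹ • x) x =
          (fderiv ℝ v (s⁻¹ • x)).comp (s⁻¹ • ContinuousLinearMap.id ℝ (E N)) := h6.fderiv
      change fderiv ℝ (v ∘ fun x : E N => s⁻¹ • x) x = _
      rw [h7]
      ext y
      simp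
    refine ⟨?_, ?_, ?_, ?_⟩
    · exact h1.comp (contDiff_const_smul s⁻¹)
    · exact h2.comp_smul hs'
    · intro x hx
      have h5 : tsupport (v ∘ (fun x : E N => s⁻¹ • x)) ⊆ (fun x : E N => s⁻¹ • x) ⁻¹' tsupport v :=
        tsupport_comp_subset_preimage v (continuous_const_smul s⁻¹)
      have h6 : s⁻¹ • x ∈ tsupport v := h5 hx
      exact ⟨s⁻¹ • x, h3 h6, by simp [smul_smul, hs.ne']⟩
    · have h5 : ∫ x, ‖fderiv ℝ (fun x => v (s⁻¹ • x)) x‖ ^ 2 =
          s ^ Module.finrank ℝ (E N) * ((s⁻¹) ^ 2 * ∫ x, ‖fderiv ℝ v x‖ ^ 2) := by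
        have h6 := Measure.integral_comp_inv_smul_of_nonneg (volume : Measure (E N))
          (fun x => ‖fderiv ℝ v x‖ ^ 2) hs.le
        rw [smul_eq_mul] at h6
        have h10 : (fun x => ‖fderiv ℝ (fun x => v (s⁻¹ • x)) x‖ ^ 2) =
            fun x => (s⁻¹) ^ 2 * ‖fderiv ℝ v (s⁻¹ • x)‖ ^ 2 := by
          funext x
          rw [hfd x, norm_smul, Real.norm_of_nonneg (inv_pos.2 hs).le]
          ring
        rw [h10, integral_const_mul, h6]
        ring
      have h7 : ∫ x, v (s⁻¹ • x) ^ 2 = s ^ Module.finrank ℝ (E N) * ∫ x, v x ^ 2 := by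
        have h6 := Measure.integral_comp_inv_smul_of_nonneg (volume : Measure (E N))
          (fun x => v x ^ 2) hs.le
        rw [smul_eq_mul] at h6
        exact h6
      rw [h5, h7]
      have h8 : 0 ≤ s ^ Module.finrank ℝ (E N) * (s⁻¹) ^ 2 := by positivity
      have h9 := mul_le_mul_of_nonneg_left h4 h8
      calc s ^ Module.finrank ℝ (E N) * ((s⁻¹) ^ 2 * ∫ x, ‖fderiv ℝ v x‖ ^ 2) =
          s ^ Module.finrank ℝ (E N) * (s⁻¹) ^ 2 * ∫ x, ‖fderiv ℝ v x‖ ^ 2 := by ring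
        _ ≤ s ^ Module.finrank ℝ (E N) * (s⁻¹) ^ 2 * (c * ∫ x, v x ^ 2) := h9
        _ = c / s ^ 2 * (s ^ Module.finrank ℝ (E N) * ∫ x, v x ^ 2) := by
            rw [inv_pow, div_eq_mul_inv]; ring
theorem scale_volume (N : ℕ) (Ω : Set (E N)) (s : ℝ) (hs : 0 < s) :
    volume ((fun x : E N => s • x) '' Ω) = ENNReal.ofReal (s ^ N) * volume Ω := by
  rw [Set.image_smul, Measure.addHaar_smul, finrank_euclideanSpace_fin,
    abs_of_nonneg (pow_nonneg hs.le N)]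
end Pool.Agent.Helper949.TB

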