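import Mathlib
import Pool.Agent.Helper949.TB.Defs
import Pool.Agent.Helper949.TB.J6
import Pool.Agent.Helper949.TB.J8a
import Pool.Agent.Helper949.TB.J8c
import Pool.Agent.Helper949.TB.J8d

set_option autoImplicit false

open MeasureTheory Filter Topology Metric

namespace Pool.Agent.Helper949.TB

end Pool.Agent.Helper949.TB

namespace Pool.Agent.Helper949.TB

/-- TARGET (all lemmas above may be used as given) -/
theorem trial (N : ℕ) (R : ℝ) (hR : 0 < R) (q : Fin 3 → E N)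
    (hq : ∀ i j, i ≠ j → dist (q i) (q j) = 2 * R) (ε : ℝ) (hε : 0 < ε) (hεR : ε < R / 10)
    (τ : ℝ) (hτ0 : 0 ≤ τ) (hτ1 : τ ≤ 1) (u : E N → ℝ) (hu : IsTest (ball (0 : E N) R) u)
    (hrad : ∀ x y, ‖x‖ = ‖y‖ → u x = u y) (h01 : ∀ x, 0 ≤ u x ∧ u x ≤ 1) (hu0 : u 0 = 1)
    (ω : E N) (hω : ‖ω‖ = 1) (D : ℝ) (hD : ∀ p : E N, B (phie ε p) (phie ε p) ≤ D)
    (δ : ℝ) (hneg' : 2 * τ * B u (phie ε (R • ω)) + τ ^ 2 * D ≤ 0)
    (hneg : B u u + (2 * τ * B u (phie ε (R • ω)) + τ ^ 2 * D) ≤ -δ) (hδ : 0 ≤ δ)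
    (K : ℝ) (hK0 : 0 < K) (hK : volume (Om q R ε) ≤ ENNReal.ofReal K) :
    1 - δ / (27 * K) ∈ RaySet N 3 (Om q R ε) := by
  obtain ⟨g1, g2, g3, g4, g5, g6⟩ := triangle_geometry N R hR q hq ε hε hεR
  obtain ⟨hu1, hu2, hu3⟩ := hu
  let a : Fin 3 → E N → ℝ := fun i x => u (x - q i)
  let f : Fin 3 → E N → ℝ := fun i => phie ε (midpoint ℝ (q i) (q (i + 1)))
  let w : Fin 3 → E N → ℝ := fun i x => a i x + τ * (f i x + f (i + 2) x)
  have ha1 : ∀ i, ContDiff ℝ (⊤ : ℕ∞) (a i) := fun i => hu1.comp (contDiff_id.sub contDiff_const)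
  have ha2 : ∀ i, HasCompactSupport (a i) := fun i =>
    hu2.comp_homeomorph (Homeomorph.subRight (q i))
  have ha3 : ∀ i, tsupport (a i) ⊆ ball (q i) R := by
    intro i x hx
    have h1 : tsupport (a i) = (Homeomorph.subRight (q i)) ⁻¹' tsupport u :=
      tsupport_comp_eq_preimage u (Homeomorph.subRight (q i))
    rw [h1] at hx
    have h2 : x - q i ∈ ball (0 : E N) R := hu3 hx
    rw [mem_ball_zero_iff] at h2
    rw [mem_ball, dist_eq_norm]
    exact h2
  have hf := fun i => phie_facts N ε hε (midpoint ℝ (q i) (q (i + 1)))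
  have hf1 : ∀ i, ContDiff ℝ (⊤ : ℕ∞) (f i) := fun i => (hf i).1
  have hf2 : ∀ i, HasCompactSupport (f i) := fun i => (hf i).2.1
  have hf3 : ∀ i, tsupport (f i) ⊆ ball (midpoint ℝ (q i) (q (i + 1))) ε := fun i => (hf i).2.2.1
  have hf4 : ∀ i x, 0 ≤ f i x ∧ f i x ≤ 1 := fun i => (hf i).2.2.2
  have hfq : ∀ i j, f i (q j) = 0 := fun i j =>
    image_eq_zero_of_notMem_tsupport fun h => g6 i j (hf3 i h)
  have haq : ∀ i j, a i (q j) = if i = j then 1 else 0 := by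
    intro i j
    split_ifs with h
    · subst h
      change u (q i - q i) = 1
      rw [sub_self, hu0]
    · refine image_eq_zero_of_notMem_tsupport fun h1 => ?_
      have h2 := ha3 i h1
      rw [mem_ball, hq j i (Ne.symm h)] at h2
      linarith
  have hwq : ∀ i j, w i (q j) = if i = j then 1 else 0 := by
    intro i j
    change a i (q j) + τ * (f i (q j) + f (i + 2) (q j)) = _
    rw [haq, hfq, hfq]
    ring
  obtain ⟨hrank, hspan⟩ := span_rank N w q hwq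
  have hw1 : ∀ i, ContDiff ℝ (⊤ : ℕ∞) (w i) := fun i =>
    (ha1 i).add (contDiff_const.mul ((hf1 i).add (hf1 (i + 2))))
  have hw2 : ∀ i, HasCompactSupport (w i) := fun i =>
    (ha2 i).add (((hf2 i).add (hf2 (i + 2))).mul_left)
  have hOm1 : ∀ i, ball (q i) R ⊆ Om q R ε := fun i x hx =>
    Or.inl (Set.mem_iUnion.2 ⟨i, hx⟩)
  have hOm2 : ∀ i : Fin 3, ball (midpoint ℝ (q i) (q (i + 1))) ε ⊆ Om q R ε := fun i x hx =>
    Or.inr (Set.mem_iUnion.2 ⟨i, hx⟩)
  have hOmo : IsOpen (Om q R ε) :=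
    (isOpen_iUnion fun i => isOpen_ball).union (isOpen_iUnion fun i => isOpen_ball)
  have hw3 : ∀ i, tsupport (w i) ⊆ Om q R ε := by
    intro i
    have h1 : tsupport (w i) ⊆ tsupport (a i) ∪ (tsupport (f i) ∪ tsupport (f (i + 2))) := by
      refine closure_minimal ?_ ((isClosed_tsupport _).union
        ((isClosed_tsupport _).union (isClosed_tsupport _)))
      intro x hx
      by_contra hcon
      simp only [Set.mem_union, not_or] at hcon
      obtain ⟨h1, h2, h3⟩ := hcon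
      apply hx
      change a i x + τ * (f i x + f (i + 2) x) = 0
      rw [image_eq_zero_of_notMem_tsupport h1, image_eq_zero_of_notMem_tsupport h2,
        image_eq_zero_of_notMem_tsupport h3]
      ring
    refine h1.trans (Set.union_subset ((ha3 i).trans (hOm1 i)) (Set.union_subset
      ((hf3 i).trans (hOm2 i)) ((hf3 (i + 2)).trans (hOm2 (i + 2)))))
  have hw4 : ∀ i x, |w i x| ≤ 3 := by
    intro i x
    have h1 := h01 (x - q i)
    have h2 := hf4 i x
    have h3 := hf4 (i + 2) x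
    change |u (x - q i) + τ * (f i x + f (i + 2) x)| ≤ 3
    rw [abs_le]
    constructor
    · nlinarith [mul_nonneg hτ0 (add_nonneg h2.1 h3.1)]
    · nlinarith [mul_le_mul hτ1 (add_le_add h2.2 h3.2) (add_nonneg h2.1 h3.1) zero_le_one]
  have hnR : ‖R • ω‖ = R := by rw [norm_smul, hω, mul_one, Real.norm_of_nonneg hR.le]
  refine ⟨Submodule.span ℝ (Set.range w), hrank, fun v hv => ?_⟩
  obtain ⟨c, rfl⟩ := hspan v hv
  have hv1 : ContDiff ℝ (⊤ : ℕ∞) (fun x => ∑ i, c i * w i x) :=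
    ContDiff.sum fun i _ => contDiff_const.mul (hw1 i)
  have hv3' : tsupport (fun x => ∑ i, c i * w i x) ⊆ ⋃ i, tsupport (w i) := by
    refine closure_minimal ?_ (isClosed_iUnion_of_finite fun i => isClosed_tsupport _)
    intro x hx
    by_contra hcon
    apply hx
    refine Finset.sum_eq_zero fun i _ => ?_
    have h1 : x ∉ tsupport (w i) := fun h => hcon (Set.mem_iUnion.2 ⟨i, h⟩)
    rw [image_eq_zero_of_notMem_tsupport h1, mul_zero]
  have hv2 : HasCompactSupport (fun x => ∑ i, c i * w i x) :=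
    (isCompact_iUnion fun i => hw2 i).of_isClosed_subset (isClosed_tsupport _) hv3'
  have hv3 : tsupport (fun x => ∑ i, c i * w i x) ⊆ Om q R ε :=
    hv3'.trans (Set.iUnion_subset hw3)
  refine ⟨hv1, hv2, hv3, ?_⟩
  rw [B_self N _ hv1 hv2]
  have hq1 := quad_bound N a f (fun i => ⟨ha1 i, ha2 i⟩) (fun i => ⟨hf1 i, hf2 i⟩)
    (B u u) (B u (phie ε (R • ω))) D τ (fun i => B_translate N u u (q i))
    (fun i j hij => B_disjoint N _ _ _ _ (ha3 i) (ha3 j) (g1 i j hij))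
    (fun i => B_invariant N u hu1 hrad ε (q i) _ (R • ω) (by rw [g4, hnR]))
    (fun i => B_invariant N u hu1 hrad ε (q (i + 1)) _ (R • ω) (by rw [g5, hnR]))
    (fun i => B_disjoint N _ _ _ _ (ha3 (i + 2)) (hf3 i) (g3 i))
    (fun i => hD _) (fun i j hij => B_disjoint N _ _ _ _ (hf3 i) (hf3 j) (g2 i j hij))
    hneg' c
  have hq2 := l2_bound N w (Om q R ε) hOmo (fun i => (hw1 i).continuous) hw2 hw3 hw4 K hK hK0.le c
  have hc0 : 0 ≤ ∑ i, c i ^ 2 := Finset.sum_nonneg fun i _ => sq_nonneg _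
  have hq3 : B (fun x => ∑ i, c i * w i x) (fun x => ∑ i, c i * w i x) ≤ -δ * ∑ i, c i ^ 2 :=
    hq1.trans (mul_le_mul_of_nonneg_right hneg hc0)
  have hq4 : δ / (27 * K) * ∫ x, (∑ i, c i * w i x) ^ 2 ≤ δ * ∑ i, c i ^ 2 := by
    rw [div_mul_eq_mul_div, div_le_iff₀ (by positivity)]
    have := mul_le_mul_of_nonneg_left hq2 hδ
    linarith
  have e : (1 - δ / (27 * K)) * ∫ x, (∑ i, c i * w i x) ^ 2 =
      (∫ x, (∑ i, c i * w i x) ^ 2) - δ / (27 * K) * ∫ x, (∑ i, c i * w i x) ^ 2 := by ring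
  rw [e]
  linarith
end Pool.Agent.Helper949.TB

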