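import Mathlib
import Pool.Agent.Helper949.TB.Defs
import Pool.Agent.Helper949.TB.J1a
import Pool.Agent.Helper949.TB.J1b
import Pool.Agent.Helper949.TB.J2
import Pool.Agent.Helper949.TB.J3a
import Pool.Agent.Helper949.TB.J3b
import Pool.Agent.Helper949.TB.J4
import Pool.Agent.Helper949.TB.J5
import Pool.Agent.Helper949.TB.J6
import Pool.Agent.Helper949.TB.J7
import Pool.Agent.Helper949.TB.J8c
import Pool.Agent.Helper949.TB.J8d
import Pool.Agent.Helper949.TB.J8

set_option autoImplicit false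
open MeasureTheory Filter Topology Metric

namespace Pool.Agent.Helper949.TB

theorem exists_ground (N : ℕ) (hN : 2 ≤ N) : ∃ (F : ℝ → ℝ) (R : ℝ), Ground N F R := by
  obtain ⟨F, hF, h0, hode⟩ := exists_series N (by omega)
  obtain ⟨R, hR⟩ := exists_ground_of_series N hN F hF h0 hode
  exact ⟨F, R, hR⟩

theorem Om_open {N : ℕ} (q : Fin 3 → E N) (R ε : ℝ) : IsOpen (Om q R ε) := by
  unfold Om
  exact (isOpen_iUnion fun i => isOpen_ball).union (isOpen_iUnion fun i => isOpen_ball)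

/-- volume of a ball of radius `r` -/
theorem vol_ball (N : ℕ) (q : E N) (r : ℝ) (hr : 0 < r) :
    volume (ball q r) = ENNReal.ofReal (r ^ N) * volume (ball (0 : E N) 1) := by
  have h := Measure.addHaar_ball_of_pos (volume : Measure (E N)) q hr
  rw [finrank_euclideanSpace_fin] at h
  exact h

theorem vol_union (N : ℕ) (q : Fin 3 → E N) (R : ℝ)
    (hd : ∀ i j, i ≠ j → Disjoint (ball (q i) R) (ball (q j) R)) :
    volume (⋃ i, ball (q i) R) = 3 * volume (ball (0 : E N) R) := by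
  rw [measure_iUnion (fun i j hij => hd i j hij) (fun i => isOpen_ball.measurableSet)]
  rw [tsum_fintype]
  have : ∀ i : Fin 3, volume (ball (q i) R) = volume (ball (0 : E N) R) := fun i =>
    Measure.addHaar_ball_center _ _ _
  simp only [this, Finset.sum_const, Finset.card_univ, Fintype.card_fin, nsmul_eq_mul]
  norm_num

/-- upper bound for the volume of `Om` -/
theorem Om_volume (N : ℕ) (q : Fin 3 → E N) (R ε : ℝ) (g : ℝ)
    (hd : ∀ i j, i ≠ j → Disjoint (ball (q i) R) (ball (q j) R))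
    (hgap : ∀ i : Fin 3, volume (ball (midpoint ℝ (q i) (q (i + 1))) ε \ (ball (q i) R ∪ ball (q (i + 1)) R))
      ≤ ENNReal.ofReal g) :
    volume (Om q R ε) ≤ 3 * volume (ball (0 : E N) R) + ENNReal.ofReal (3 * g) := by
  have hsub : Om q R ε ⊆ (⋃ i, ball (q i) R) ∪
      ⋃ i : Fin 3, (ball (midpoint ℝ (q i) (q (i + 1))) ε \ (ball (q i) R ∪ ball (q (i + 1)) R)) := by
    intro x hx
    rcases hx with hx | hx
    · exact Or.inl hx
    · by_cases h : x ∈ ⋃ i, ball (q i) R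
      · exact Or.inl h
      · right
        obtain ⟨i, hi⟩ := Set.mem_iUnion.1 hx
        refine Set.mem_iUnion.2 ⟨i, hi, ?_⟩
        rintro (h1 | h1)
        · exact h (Set.mem_iUnion.2 ⟨_, h1⟩)
        · exact h (Set.mem_iUnion.2 ⟨_, h1⟩)
  calc volume (Om q R ε) ≤ volume ((⋃ i, ball (q i) R) ∪
      ⋃ i : Fin 3, (ball (midpoint ℝ (q i) (q (i + 1))) ε \ (ball (q i) R ∪ ball (q (i + 1)) R))) :=
        measure_mono hsub
    _ ≤ volume (⋃ i, ball (q i) R) + volume (⋃ i : Fin 3, (ball (midpoint ℝ (q i) (q (i + 1))) ε \ (ball (q i) R ∪ ball (q (i + 1)) R))) :=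
        measure_union_le _ _
    _ ≤ 3 * volume (ball (0 : E N) R) + ENNReal.ofReal (3 * g) := by
        rw [vol_union N q R hd]
        gcongr
        calc volume (⋃ i : Fin 3, (ball (midpoint ℝ (q i) (q (i + 1))) ε \ (ball (q i) R ∪ ball (q (i + 1)) R)))
            ≤ ∑ i : Fin 3, volume ((ball (midpoint ℝ (q i) (q (i + 1))) ε \ (ball (q i) R ∪ ball (q (i + 1)) R))) :=
              measure_iUnion_fintype_le _ _
          _ ≤ ∑ i : Fin 3, ENNReal.ofReal g := Finset.sum_le_sum fun i _ => hgap i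
          _ = ENNReal.ofReal (3 * g) := by
              rw [Finset.sum_const, Finset.card_univ, Fintype.card_fin, nsmul_eq_mul,
                ENNReal.ofReal_mul (by norm_num)]
              norm_num

/-- final arithmetic -/
theorem final_arith (N : ℕ) (hN : 2 ≤ N) (R ρ s v V0 y : ℝ) (hR : 0 < R) (hρ : 0 < ρ) (hs : 0 < s)
    (hV0 : 0 < V0) (hy : y ≤ 1) (hsv : s ^ N * v = 1) (hρR : ρ ^ N * V0 = R ^ N) (hv : V0 ≤ v)
    (hv2 : v < V0 * (1 + y)) : (1 - y) / s ^ 2 < (R / ρ) ^ 2 := by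
  set z : ℝ := ρ / (R * s) with hz
  have hz0 : 0 < z := by positivity
  have hzN : z ^ N * V0 = v := by
    have hsN : s ^ N ≠ 0 := by positivity
    have hRN : R ^ N ≠ 0 := by positivity
    rw [hz, div_pow, mul_pow]
    field_simp
    rw [hρR]
    calc R ^ N = R ^ N * (s ^ N * v) := by rw [hsv, mul_one]
      _ = _ := by ring
  have hz1 : 1 ≤ z := by
    by_contra h
    push Not at h
    have : z ^ N < 1 := pow_lt_one₀ hz0.le h (by omega)
    nlinarith
  have hz2 : z ^ 2 ≤ z ^ N := pow_le_pow_right₀ hz1 hN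
  have hzy : z ^ N < 1 + y := by
    by_contra h
    push Not at h
    nlinarith
  have hkey : (1 - y) * z ^ 2 < 1 := by
    have h1 : (1 - y) * z ^ 2 ≤ (1 - y) * z ^ N := by
      apply mul_le_mul_of_nonneg_left hz2; linarith
    have h2 : 1 ≤ z ^ N := one_le_pow₀ hz1
    nlinarith
  rw [div_lt_iff₀ (by positivity)]
  have : (R / ρ) ^ 2 * s ^ 2 = 1 / z ^ 2 := by
    rw [hz]; field_simp
  rw [this, lt_div_iff₀ (by positivity)]
  exact hkey

theorem main_exists (N : ℕ) (hN : 2 ≤ N) (F : ℝ → ℝ) (R : ℝ) (hG : Ground N F R) :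
    ∃ Ω : Set (E N), IsOpen Ω ∧ volume Ω = 1 ∧ ∃ c ∈ RaySet N 3 Ω,
      ∀ ρ : ℝ, 0 < ρ → volume (ball (0 : E N) ρ) = ENNReal.ofReal (1 / 3) → c < (R / ρ) ^ 2 := by
  have hR := hG.Rpos
  have : NeZero N := ⟨by omega⟩
  obtain ⟨q, hq⟩ := triangle_exists N hN R hR
  obtain ⟨ω, hω⟩ : ∃ ω : E N, ‖ω‖ = 1 := ⟨EuclideanSpace.single 0 1, by simp⟩
  obtain ⟨β, hβ, hb⟩ := b_asymp N hN F R hG ω hω
  obtain ⟨θ, hθ, hθ0, hgap⟩ := gap_volume N (by omega) R hR
  set D1 : ℝ := ∫ x : E N, ‖fderiv ℝ (phi : E N → ℝ) x‖ ^ 2 with hD1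
  have hD1pos : 0 < D1 := phi_grad_pos N (by omega)
  set b1 : ENNReal := volume (ball (0 : E N) 1) with hb1
  have hb1pos : 0 < b1 := measure_ball_pos _ _ one_pos
  have hb1fin : b1 ≠ ⊤ := measure_ball_lt_top.ne
  set V1 : ℝ := (volume (ball (0 : E N) R)).toReal with hV1
  have hVRfin : volume (ball (0 : E N) R) ≠ ⊤ := measure_ball_lt_top.ne
  have hV1pos : 0 < V1 := ENNReal.toReal_pos (measure_ball_pos _ _ hR).ne' hVRfin
  have hVR : volume (ball (0 : E N) R) = ENNReal.ofReal V1 := (ENNReal.ofReal_toReal hVRfin).symm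
  set V0 : ℝ := 3 * V1 with hV0
  have hV0pos : 0 < V0 := by positivity
  set t : ℝ := β / (2 * D1) with ht
  have htpos : 0 < t := by positivity
  set γ : ℝ := β ^ 2 / (4 * D1) with hγ
  have hγpos : 0 < γ := by positivity
  set K : ℝ := V0 + 1 with hK
  have hKpos : 0 < K := by positivity
  set g : ℝ := (γ / 2) / (27 * K) with hg
  have hgpos : 0 < g := by positivity
  -- choose ε
  have e1 : ∀ᶠ ε in 𝓝[>] (0 : ℝ), θ ε < min (g * V0 / 3) (1 / 3) :=
    hθ.eventually_lt_const (by positivity)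
  have e2 : ∀ᶠ ε in 𝓝[>] (0 : ℝ), ε < min (min (R / 10) 1) (min (1 / t) (1 / g)) := by
    apply mem_nhdsWithin_of_mem_nhds
    exact Iio_mem_nhds (by positivity)
  obtain ⟨ε, ⟨⟨hbε, hθε⟩, hε2⟩, hεpos⟩ := (((hb.and e1).and e2).and self_mem_nhdsWithin).exists
  have hεpos' : 0 < ε := hεpos
  have hεR : ε < R / 10 := lt_of_lt_of_le hε2 ((min_le_left _ _).trans (min_le_left _ _))
  have hε1 : ε < 1 := lt_of_lt_of_le hε2 ((min_le_left _ _).trans (min_le_right _ _))
  have hεt : ε < 1 / t := lt_of_lt_of_le hε2 ((min_le_right _ _).trans (min_le_left _ _))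
  have hεg : ε < 1 / g := lt_of_lt_of_le hε2 ((min_le_right _ _).trans (min_le_right _ _))
  have hθ1 : θ ε < g * V0 / 3 := lt_of_lt_of_le hθε (min_le_left _ _)
  have hθ2 : θ ε < 1 / 3 := lt_of_lt_of_le hθε (min_le_right _ _)
  have hεN : 0 < ε ^ N := by positivity
  have hεN1 : ε ^ N ≤ 1 := pow_le_one₀ hεpos'.le hε1.le
  have hεNε : ε ^ N ≤ ε := by
    calc ε ^ N ≤ ε ^ 1 := pow_le_pow_of_le_one hεpos'.le hε1.le (by omega)
      _ = ε := pow_one _
  obtain ⟨u, hu, hrad, h01, hu0, huu, huφ⟩ := approx N hN F R hG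
  obtain ⟨hφs, hφc, hφt, hφ01⟩ := phie_facts N ε hεpos' (R • ω)
  have a1 : ∀ᶠ n in atTop, B (u n) (u n) < γ / 2 * ε ^ N :=
    huu.eventually_lt_const (by positivity)
  have a2 : ∀ᶠ n in atTop, B (u n) (phie ε (R • ω)) < -(β / 2) * ε ^ (N - 1) := by
    apply (huφ _ hφs hφc).eventually_lt_const
    refine lt_of_le_of_lt hbε ?_
    have : 0 < ε ^ (N - 1) := by positivity
    nlinarith
  obtain ⟨n, hn1, hn2⟩ := (a1.and a2).exists
  set D : ℝ := ε ^ N * ε⁻¹ ^ 2 * D1 with hD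
  set τ : ℝ := t * ε with hτ
  have hτ0 : 0 ≤ τ := by positivity
  have hτ1 : τ ≤ 1 := by
    have := (lt_div_iff₀ htpos).1 hεt
    rw [hτ]; nlinarith
  have hεpow : ε * ε ^ (N - 1) = ε ^ N := by
    rw [← pow_succ']; congr 1; omega
  have hmain : 2 * τ * B (u n) (phie ε (R • ω)) + τ ^ 2 * D ≤ -γ * ε ^ N := by
    have h1 : 2 * τ * B (u n) (phie ε (R • ω)) ≤ 2 * τ * (-(β / 2) * ε ^ (N - 1)) :=
      mul_le_mul_of_nonneg_left hn2.le (by positivity)
    have h2 : 2 * τ * (-(β / 2) * ε ^ (N - 1)) = -(t * β) * ε ^ N := by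
      rw [← hεpow, hτ]; ring
    have h3 : τ ^ 2 * D = t ^ 2 * D1 * ε ^ N := by
      rw [hτ, hD]; field_simp
    have h4 : -(t * β) + t ^ 2 * D1 = -γ := by
      rw [ht, hγ]; field_simp; ring
    calc _ ≤ -(t * β) * ε ^ N + t ^ 2 * D1 * ε ^ N := by rw [h3]; linarith
      _ = (-(t * β) + t ^ 2 * D1) * ε ^ N := by ring
      _ = -γ * ε ^ N := by rw [h4]
  obtain ⟨hdis, -, -, -, -, -⟩ := triangle_geometry N R hR q hq ε hεpos' hεR
  have hupper : volume (Om q R ε) ≤ ENNReal.ofReal (V0 + 3 * (θ ε * ε ^ N)) := by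
    have hne : ∀ i : Fin 3, i ≠ i + 1 := by decide
    have := Om_volume N q R ε (θ ε * ε ^ N) hdis
      (fun i => hgap (q i) (q (i + 1)) (hq _ _ (hne i)) ε hεpos' (by linarith))
    refine this.trans (le_of_eq ?_)
    rw [ENNReal.ofReal_add hV0pos.le (by have := hθ0 ε; positivity), hVR, hV0, ENNReal.ofReal_mul (by norm_num)]
    norm_num
  have hupperK : volume (Om q R ε) ≤ ENNReal.ofReal K := by
    refine hupper.trans (ENNReal.ofReal_le_ofReal ?_)
    rw [hK]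
    have := hθ0 ε
    nlinarith
  have hlower : ENNReal.ofReal V0 ≤ volume (Om q R ε) := by
    have h1 := vol_union N q R hdis
    have h2 : volume (⋃ i, ball (q i) R) ≤ volume (Om q R ε) := measure_mono Set.subset_union_left
    rw [h1, hVR] at h2
    refine le_trans (le_of_eq ?_) h2
    rw [hV0, ENNReal.ofReal_mul (by norm_num)]
    norm_num
  have hfin : volume (Om q R ε) ≠ ⊤ := ne_top_of_le_ne_top ENNReal.ofReal_ne_top hupper
  set v : ℝ := (volume (Om q R ε)).toReal with hv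
  have hvv : volume (Om q R ε) = ENNReal.ofReal v := (ENNReal.ofReal_toReal hfin).symm
  have hvlow : V0 ≤ v := by
    have := ENNReal.toReal_mono hfin hlower
    rwa [ENNReal.toReal_ofReal hV0pos.le] at this
  have hvpos : 0 < v := lt_of_lt_of_le hV0pos hvlow
  have hvup : v ≤ V0 + 3 * (θ ε * ε ^ N) := by
    have := ENNReal.toReal_mono ENNReal.ofReal_ne_top hupper
    rwa [ENNReal.toReal_ofReal (by have := hθ0 ε; positivity)] at this
  have htrial := trial N R hR q hq ε hεpos' hεR τ hτ0 hτ1 (u n) (hu n) (hrad n) (h01 n) (hu0 n) ω hω D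
    (fun p => phie_phie N ε hεpos' p) (γ / 2 * ε ^ N)
    (hmain.trans (by have := mul_pos hγpos hεN; linarith)) (by linarith) (by positivity) K hKpos hupperK
  have hy : γ / 2 * ε ^ N / (27 * K) = g * ε ^ N := by rw [hg]; ring
  rw [hy] at htrial
  -- scaling factor
  obtain ⟨s, hs, hsv⟩ : ∃ s : ℝ, 0 < s ∧ s ^ N * v = 1 := by
    refine ⟨(v⁻¹) ^ ((N : ℝ)⁻¹), by positivity, ?_⟩
    rw [Real.rpow_inv_natCast_pow (by positivity) (by omega)]
    exact inv_mul_cancel₀ hvpos.ne'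
  refine ⟨(fun x : E N => s • x) '' Om q R ε, ?_, ?_, (1 - g * ε ^ N) / s ^ 2,
    scale_ray N 3 _ s hs _ htrial, ?_⟩
  · have := (Om_open q R ε).smul₀ hs.ne'
    rwa [← Set.image_smul] at this
  · rw [scale_volume N _ s hs, hvv, ← ENNReal.ofReal_mul (by positivity), hsv, ENNReal.ofReal_one]
  · intro ρ hρ hρv
    have hgy : g * ε ^ N ≤ 1 := by
      have := (lt_div_iff₀ hgpos).1 hεg
      nlinarith
    refine final_arith N hN R ρ s v V0 (g * ε ^ N) hR hρ hs hV0pos hgy hsv ?_ hvlow ?_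
    · rw [vol_ball N 0 ρ hρ] at hρv
      have hVR' := vol_ball N 0 R hR
      have h1 : ρ ^ N * b1.toReal = 1 / 3 := by
        have := congrArg ENNReal.toReal hρv
        rwa [ENNReal.toReal_mul, ENNReal.toReal_ofReal (by positivity), ENNReal.toReal_ofReal (by norm_num)] at this
      have h2 : V1 = R ^ N * b1.toReal := by
        rw [hV1, hVR', ENNReal.toReal_mul, ENNReal.toReal_ofReal (by positivity)]
      rw [hV0, h2]
      calc ρ ^ N * (3 * (R ^ N * b1.toReal)) = 3 * R ^ N * (ρ ^ N * b1.toReal) := by ring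
        _ = R ^ N := by rw [h1]; ring
    · refine lt_of_le_of_lt hvup ?_
      have : θ ε * ε ^ N < (g * V0 / 3) * ε ^ N := mul_lt_mul_of_pos_right hθ1 hεN
      nlinarith

/-- the infimum of the `k`-th eigenvalue over open sets of volume `1` -/
noncomputable def lamStar (N k : ℕ) : ℝ :=
  sInf {l : ℝ | ∃ Ω : Set (E N), IsOpen Ω ∧ volume Ω = 1 ∧ l = lam N k Ω}

/-- `Ω` is the union of three pairwise disjoint open balls, each of volume `1/3` -/
def IsThreeBalls (N : ℕ) (Ω : Set (E N)) : Prop :=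
  ∃ (q : Fin 3 → E N) (r : Fin 3 → ℝ), (∀ i, volume (ball (q i) (r i)) = ENNReal.ofReal (1 / 3)) ∧
    (∀ i j, i ≠ j → Disjoint (ball (q i) (r i)) (ball (q j) (r j))) ∧ Ω = ⋃ i, ball (q i) (r i)

theorem radius_unique (N : ℕ) (hN : 1 ≤ N) (q q' : E N) (r r' : ℝ) 
    (h : volume (ball q r) = ENNReal.ofReal (1 / 3)) (h' : volume (ball q' r') = ENNReal.ofReal (1 / 3)) :
    0 < r ∧ r = r' := by
  have : NeZero N := ⟨by omega⟩
  have pos : ∀ (q : E N) (r : ℝ), volume (ball q r) = ENNReal.ofReal (1 / 3) → 0 < r := by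
    intro q r h
    by_contra hr
    push Not at hr
    rw [ball_eq_empty.2 hr, measure_empty] at h
    have : (0 : ENNReal) < ENNReal.ofReal (1 / 3) := by
      rw [ENNReal.ofReal_pos]; norm_num
    exact this.ne h
  have hr := pos q r h
  have hr' := pos q' r' h'
  refine ⟨hr, ?_⟩
  rw [vol_ball N q r hr] at h
  rw [vol_ball N q' r' hr'] at h'
  have hb1pos : 0 < volume (ball (0 : E N) 1) := measure_ball_pos _ _ one_pos
  have hb1fin : volume (ball (0 : E N) 1) ≠ ⊤ := measure_ball_lt_top.ne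
  have h2 : ENNReal.ofReal (r ^ N) = ENNReal.ofReal (r' ^ N) := by
    have := h.trans h'.symm
    exact (ENNReal.mul_left_inj hb1pos.ne' hb1fin).1 this
  have h3 : r ^ N = r' ^ N := by
    rwa [ENNReal.ofReal_eq_ofReal_iff (by positivity) (by positivity)] at h2
  exact (pow_left_inj₀ hr.le hr'.le (by omega)).1 h3

theorem three_balls_lower (N : ℕ) (hN : 2 ≤ N) (F : ℝ → ℝ) (R : ℝ) (hG : Ground N F R)
    (Ω : Set (E N)) (hΩ : IsThreeBalls N Ω) :
    ∃ ρ : ℝ, 0 < ρ ∧ volume (ball (0 : E N) ρ) = ENNReal.ofReal (1 / 3) ∧ (R / ρ) ^ 2 ≤ lam N 3 Ω := by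
  obtain ⟨q, r, hv, hd, rfl⟩ := hΩ
  have hr : ∀ i, 0 < r i ∧ r i = r 0 := fun i => radius_unique N (by omega) (q i) (q 0) (r i) (r 0) (hv i) (hv 0)
  have hr0 : 0 < r 0 := (hr 0).1
  refine ⟨r 0, hr0, ?_, ?_⟩
  · rw [← hv 0]; exact (Measure.addHaar_ball_center _ _ _).symm
  · have hU : (⋃ i, ball (q i) (r i)) = ⋃ i, ball (q i) (r 0) := by
      apply Set.iUnion_congr; intro i; rw [(hr i).2]
    rw [hU]
    have hne : (⋃ i, ball (q i) (r 0)).Nonempty := ⟨q 0, Set.mem_iUnion.2 ⟨0, mem_ball_self hr0⟩⟩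
    refine lam_lower N 3 (by norm_num) (⋃ i, ball (q i) (r 0)) (isOpen_iUnion fun i => isOpen_ball) hne (by omega) _ ?_
    intro f hf
    apply union_ineq N ((R / r 0) ^ 2) (r 0) (fun q f hf => ball_ineq N hN F R hG q (r 0) hr0 f hf) q _ f hf
    intro i j hij
    have := hd i j hij
    rwa [(hr i).2, (hr j).2] at this

theorem lamStar_le (N k : ℕ) (hk : 1 ≤ k) (Ω : Set (E N)) (h1 : IsOpen Ω) (h2 : volume Ω = 1) :
    lamStar N k ≤ lam N k Ω := by
  apply csInf_le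
  · refine ⟨0, ?_⟩
    rintro l ⟨Ω', -, -, rfl⟩
    exact Real.sInf_nonneg fun c hc => raySet_nonneg N k hk Ω' c hc
  · exact ⟨Ω, h1, h2, rfl⟩

theorem three_balls_not_optimal (N : ℕ) (hN : 2 ≤ N) (Ω₀ : Set (E N)) (hΩ₀ : IsThreeBalls N Ω₀) :
    (∃ Ω : Set (E N), IsOpen Ω ∧ volume Ω = 1 ∧ lam N 3 Ω < lam N 3 Ω₀) ∧
      lamStar N 3 < lam N 3 Ω₀ := by
  obtain ⟨F, R, hG⟩ := exists_ground N hN
  obtain ⟨Ω, h1, h2, c, hc, hcρ⟩ := main_exists N hN F R hG
  obtain ⟨ρ, hρ, hρv, hρl⟩ := three_balls_lower N hN F R hG Ω₀ hΩ₀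
  have hlt : lam N 3 Ω < lam N 3 Ω₀ :=
    (lam_le N 3 (by norm_num) Ω c hc).trans_lt ((hcρ ρ hρ hρv).trans_le hρl)
  exact ⟨⟨Ω, h1, h2, hlt⟩, (lamStar_le N 3 (by norm_num) Ω h1 h2).trans_lt hlt⟩

end Pool.Agent.Helper949.TB
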